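import Pool.Agent.K93.SO.Stm

/-!
# Project SO, part AB, first half: the pointwise bound of the number of admissible pairs
-/

set_option autoImplicit false

namespace Pool.Agent.K93.SO

open Finset
open Pool.Agent.K93.SD (tau)

namespace ABP

lemma cast_UU (p μ j n t : ℕ) :
    ((UU p μ j n t : ℕ) : ℤ) = ((μ : ℤ) * t + j * ((n : ℤ) + 1) ^ p + j) ^ p := by
  unfold UU
  push_cast
  rfl

/-- the admissible `g` are bounded -/
lemma le_UU (hR : S_RES) {p : ℕ} (hp : p.Prime) (h3 : 3 ≤ p) {μ j n t g x : ℕ} (hn : 2 ≤ n)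
    (hj : 1 ≤ j) (hμ : 1 ≤ μ) (ht : 1 ≤ t) (h : Adm p μ j n t g x) : g ≤ UU p μ j n t := by
  obtain ⟨-, -, h2, h4⟩ := h
  have hμt : (1 : ℤ) ≤ (μ : ℤ) * t := by exact_mod_cast Nat.mul_pos hμ ht
  have hj' : (1 : ℤ) ≤ j := by exact_mod_cast hj
  have hn1 : (1 : ℤ) ≤ ((n : ℤ) + 1) ^ p := one_le_pow₀ (by omega)
  have hjn : (j : ℤ) * 1 ≤ j * ((n : ℤ) + 1) ^ p := mul_le_mul_of_nonneg_left hn1 (by omega)
  have h5 : (g : ℤ) ∣ ((μ : ℤ) * t - j) + j * ((x : ℤ) + n) ^ p := by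
    have : ((μ : ℤ) * t - j) + j * ((x : ℤ) + n) ^ p =
        (μ : ℤ) * t + j * (((x : ℤ) + n) ^ p - 1) := by ring
    rw [this]
    exact h4
  have h6 := hR p hp h3 n j g ((μ : ℤ) * t - j) x (by omega) hj (by linarith)
    (by omega) h2 h5
  have h7 : |(μ : ℤ) * t - j| ≤ (μ : ℤ) * t + j := by
    rw [abs_le]
    constructor <;> linarith
  have h8 : (|(μ : ℤ) * t - j| + j * ((n : ℤ) + 1) ^ p) ^ p ≤ ((UU p μ j n t : ℕ) : ℤ) := by
    rw [cast_UU]
    apply pow_le_pow_left₀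
    · have := abs_nonneg ((μ : ℤ) * t - j)
      linarith
    · linarith
  exact_mod_cast h6.trans h8

/-- divisors of admissible numbers are admissible -/
lemma adm_dvd {p μ j n t g x m : ℕ} (h : Adm p μ j n t g x) (hm : m ∣ g) :
    Adm p μ j n t m (x % m) := by
  obtain ⟨h1, -, h2, h4⟩ := h
  have hm0 : 0 < m := Nat.pos_of_dvd_of_pos hm h1
  have hmg : (m : ℤ) ∣ g := Int.natCast_dvd_natCast.2 hm
  have h5 : (m : ℤ) ∣ (x : ℤ) - ((x % m : ℕ) : ℤ) := by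
    refine ⟨((x / m : ℕ) : ℤ), ?_⟩
    have h6 : ((m * (x / m) + x % m : ℕ) : ℤ) = (x : ℤ) := by rw [Nat.div_add_mod]
    rw [Nat.cast_add, Nat.cast_mul] at h6
    linarith
  refine ⟨hm0, Nat.mod_lt _ hm0, ?_, ?_⟩
  · have h6 : ((x % m : ℕ) : ℤ) ^ p - 1 = ((x : ℤ) ^ p - 1) - ((x : ℤ) ^ p - ((x % m : ℕ) : ℤ) ^ p) := by
      ring
    rw [h6]
    exact dvd_sub (hmg.trans h2) (h5.trans (sub_dvd_pow_sub_pow _ _ p))
  · have h6 : (μ : ℤ) * t + j * ((((x % m : ℕ) : ℤ) + n) ^ p - 1) =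
        ((μ : ℤ) * t + j * (((x : ℤ) + n) ^ p - 1)) -
          j * (((x : ℤ) + n) ^ p - (((x % m : ℕ) : ℤ) + n) ^ p) := by
      ring
    rw [h6]
    refine dvd_sub (hmg.trans h4) (Dvd.dvd.mul_left ?_ _)
    refine Dvd.dvd.trans ?_ (sub_dvd_pow_sub_pow _ _ p)
    have h7 : ((x : ℤ) + n) - (((x % m : ℕ) : ℤ) + n) = (x : ℤ) - ((x % m : ℕ) : ℤ) := by ring
    rw [h7]
    exact h5

lemma UU_le {p : ℕ} (h3 : 3 ≤ p) {G μ j n Ts t : ℕ} (hn : n ≤ G) (hG : 1 ≤ G)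
    (hj : j < μ) (hμ : μ ≤ 2 * G) (hTs : (4 * G) ^ p ≤ Ts) (ht : t < 3 * Ts) :
    UU p μ j n t ≤ (8 * G * Ts) ^ p := by
  unfold UU
  apply Nat.pow_le_pow_left
  have h1 : (n + 1) ^ p ≤ (2 * G) ^ p := Nat.pow_le_pow_left (by omega) p
  have h2 : (4 * G) ^ p = 2 ^ p * (2 * G) ^ p := by
    rw [← mul_pow]
    congr 1
    ring
  have h4 : 8 ≤ 2 ^ p := by
    calc 8 = 2 ^ 3 := by norm_num
      _ ≤ 2 ^ p := Nat.pow_le_pow_right (by norm_num) h3
  have h5 : 8 * (2 * G) ^ p ≤ Ts := by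
    calc 8 * (2 * G) ^ p ≤ 2 ^ p * (2 * G) ^ p := Nat.mul_le_mul_right _ h4
      _ = (4 * G) ^ p := h2.symm
      _ ≤ Ts := hTs
  have h6 : 1 ≤ (2 * G) ^ p := Nat.one_le_pow _ _ (by omega)
  have h7 : μ * t ≤ 2 * G * (3 * Ts) := Nat.mul_le_mul hμ ht.le
  have h8 : j * (n + 1) ^ p ≤ 2 * G * (2 * G) ^ p := Nat.mul_le_mul (by omega) h1
  have h9 : j * 1 ≤ 2 * G * (2 * G) ^ p := Nat.mul_le_mul (by omega) h6
  have h10 : 2 * G * (8 * (2 * G) ^ p) ≤ 2 * G * Ts := Nat.mul_le_mul_left _ h5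
  have e1 : 2 * G * (3 * Ts) = 6 * (G * Ts) := by ring
  have e2 : 2 * G * (8 * (2 * G) ^ p) = 8 * (2 * G * (2 * G) ^ p) := by ring
  have e3 : 2 * G * Ts = 2 * (G * Ts) := by ring
  have e4 : 8 * G * Ts = 8 * (G * Ts) := by ring
  rw [e1] at h7
  rw [e2, e3] at h10
  rw [e4]
  omega

open Classical in
theorem adp (hR : S_RES) (hr : S_RHO) (ht : S_TAUI) (hL : S_LCM) : ∀ p : ℕ, p.Prime → 3 ≤ p →
    ∃ C γ : ℕ, 1 ≤ C ∧ ∀ G μ j n Ts t W : ℕ, 2 ≤ n → n ≤ G → 1 ≤ j → j < μ → μ ≤ 2 * G →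
      (4 * G) ^ p ≤ Ts → 1 ≤ t → t < 3 * Ts → 8 * G * Ts ≤ W ^ 2 →
      ((Ad p μ j n t).card : ℝ) ≤
        C * ∑ m ∈ (Icc 1 W).filter (fun m => ∃ x, Adm p μ j n t m x), (tau m : ℝ) ^ γ := by
  intro p hp h3
  obtain ⟨C, γ, hC, hCγ⟩ := ht p
  refine ⟨C ^ (p + 1), γ * (p + 1), Nat.one_le_pow _ _ hC, ?_⟩
  intro G μ j n Ts t W hn hnG hj hjμ hμ hTs ht1 htTs hW
  have hG : 1 ≤ G := by omega
  have hle : ∀ g x, Adm p μ j n t g x → g ≤ UU p μ j n t := fun g x h =>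
    le_UU hR hp h3 hn hj (by omega) ht1 h
  -- the largest admissible number
  obtain ⟨N, hN, hNmax⟩ : ∃ N, (∃ x, Adm p μ j n t N x) ∧ ∀ g, (∃ x, Adm p μ j n t g x) → g ≤ N := by
    have hne : ((range (UU p μ j n t + 1)).filter (fun g => ∃ x, Adm p μ j n t g x)).Nonempty := by
      have h1 : Adm p μ j n t 1 0 := ⟨le_refl _, by norm_num, one_dvd _, one_dvd _⟩
      exact ⟨1, mem_filter.2 ⟨mem_range.2 (Nat.lt_succ_of_le (hle 1 0 h1)), 0, h1⟩⟩
    obtain ⟨N, hN, hmax⟩ := exists_max_image _ id hne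
    refine ⟨N, (mem_filter.1 hN).2, fun g hg => ?_⟩
    obtain ⟨x, hx⟩ := hg
    exact hmax g (mem_filter.2 ⟨mem_range.2 (Nat.lt_succ_of_le (hle g x hx)), x, hx⟩)
  obtain ⟨xN, hxN⟩ := hN
  have hN1 : 1 ≤ N := hxN.1
  have hdvd : ∀ g x, Adm p μ j n t g x → g ∣ N := by
    intro g x h
    obtain ⟨y, hy⟩ := hL p μ j n t N xN g x hxN h
    have h1 : Nat.lcm N g ≤ N := hNmax _ ⟨y, hy⟩
    have h2 : Nat.lcm N g = N := le_antisymm h1 (Nat.le_of_dvd hy.1 (Nat.dvd_lcm_left N g))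
    rw [← h2]
    exact Nat.dvd_lcm_right N g
  -- the number of pairs
  have hcard : (Ad p μ j n t).card ≤ tau N ^ (p + 1) := by
    have h1 : (Ad p μ j n t).card = ∑ g ∈ N.divisors, ((Ad p μ j n t).filter (fun y => y.1 = g)).card := by
      refine card_eq_sum_card_fiberwise fun y hy => ?_
      have h2 : y ∈ Ad p μ j n t := hy
      have h4 := (mem_filter.1 h2).2
      rw [mem_coe, Nat.mem_divisors]
      exact ⟨hdvd _ _ h4, by omega⟩
    rw [h1]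
    have h2 : ∀ g ∈ N.divisors, ((Ad p μ j n t).filter (fun y => y.1 = g)).card ≤ tau N ^ p := by
      intro g hg
      have hgN := (Nat.mem_divisors.1 hg).1
      have hg1 : 1 ≤ g := Nat.pos_of_mem_divisors hg
      have h4 : ((Ad p μ j n t).filter (fun y => y.1 = g)).card ≤
          ((range g).filter (fun x : ℕ => (g : ℤ) ∣ (x : ℤ) ^ p - 1)).card := by
        refine card_le_card_of_injOn Prod.snd ?_ ?_
        · intro y hy
          have hy' : y ∈ (Ad p μ j n t).filter (fun y => y.1 = g) := hy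
          rw [mem_filter] at hy'
          obtain ⟨h5, h6⟩ := hy'
          have h7 := (mem_filter.1 h5).2
          rw [h6] at h7
          exact mem_filter.2 ⟨mem_range.2 h7.2.1, h7.2.2.1⟩
        · intro y hy z hz hyz
          have hy' : y ∈ (Ad p μ j n t).filter (fun y => y.1 = g) := hy
          have hz' : z ∈ (Ad p μ j n t).filter (fun y => y.1 = g) := hz
          exact Prod.ext ((mem_filter.1 hy').2.trans (mem_filter.1 hz').2.symm) hyz
      refine (h4.trans (hr p hp h3 g hg1)).trans (Nat.pow_le_pow_left ?_ p)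
      exact card_le_card (Nat.divisors_subset_of_dvd (by omega) hgN)
    calc ∑ g ∈ N.divisors, ((Ad p μ j n t).filter (fun y => y.1 = g)).card
        ≤ ∑ g ∈ N.divisors, tau N ^ p := sum_le_sum h2
      _ = tau N ^ (p + 1) := by
        rw [sum_const, smul_eq_mul, pow_succ, mul_comm]
        rfl
  -- a small divisor
  obtain ⟨m, hmN, hmle, hmtau⟩ := hCγ N (by omega)
  have hm1 : 1 ≤ m := Nat.pos_of_dvd_of_pos hmN hN1
  have hmW : m ≤ W := by
    have hW1 : 1 ≤ W := by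
      rcases Nat.eq_zero_or_pos W with h | h
      · exfalso
        subst h
        have h1 : 1 ≤ Ts := (Nat.one_le_pow _ _ (by omega)).trans hTs
        have h2 : 0 < 8 * G * Ts := by positivity
        have h4 : 8 * G * Ts ≤ 0 := by simpa using hW
        omega
      · exact h
    have h2p : 2 * p ≤ 2 ^ p := by
      clear * - h3
      induction p, h3 using Nat.le_induction with
      | base => norm_num
      | succ k hk ih => rw [pow_succ]; omega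
    have h1 : m ^ (2 ^ p) ≤ W ^ (2 ^ p) := by
      calc m ^ (2 ^ p) ≤ N := hmle
        _ ≤ UU p μ j n t := hle N xN hxN
        _ ≤ (8 * G * Ts) ^ p := UU_le h3 hnG hG hjμ hμ hTs htTs
        _ ≤ (W ^ 2) ^ p := Nat.pow_le_pow_left hW p
        _ = W ^ (2 * p) := by rw [pow_mul]
        _ ≤ W ^ (2 ^ p) := Nat.pow_le_pow_right hW1 h2p
    exact (Nat.pow_le_pow_iff_left (by positivity)).1 h1
  have hmem : m ∈ (Icc 1 W).filter (fun m => ∃ x, Adm p μ j n t m x) :=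
    mem_filter.2 ⟨mem_Icc.2 ⟨hm1, hmW⟩, _, adm_dvd hxN hmN⟩
  have hfin : ((Ad p μ j n t).card : ℝ) ≤ (C : ℝ) ^ (p + 1) * (tau m : ℝ) ^ (γ * (p + 1)) := by
    have h1 : (Ad p μ j n t).card ≤ C ^ (p + 1) * tau m ^ (γ * (p + 1)) := by
      refine hcard.trans ((Nat.pow_le_pow_left hmtau (p + 1)).trans ?_)
      rw [mul_pow, ← pow_mul]
    exact_mod_cast h1
  refine hfin.trans ?_
  push_cast
  refine mul_le_mul_of_nonneg_left ?_ (by positivity)
  exact single_le_sum (f := fun m : ℕ => (tau m : ℝ) ^ (γ * (p + 1))) (fun i _ => by positivity) hmem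

end ABP

end Pool.Agent.K93.SO
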