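import Pool.Agent.K93.SO.Stm

/-!
# Project SO (helper93), second half of AB (helper33): the sum over `t`
-/

set_option autoImplicit false

namespace Pool.Agent.K93.SO.ABS

open Finset
open Pool.Agent.K93.SD (tau em La S_CRT)

/-- the solutions `t` of a congruence `μ t + B = 0` modulo `m` in a window -/
theorem cnt {m μ : ℕ} (W t' : ℕ) (B : ℤ) (hm : 1 ≤ m) (hμ : 1 ≤ μ) :
    ((Ico t' (t' + W)).filter (fun t : ℕ => (m : ℤ) ∣ (μ : ℤ) * t + B)).card ≤ μ * W / m + 1 := by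
  rw [← card_range (μ * W / m + 1)]
  refine card_le_card_of_injOn (fun t => μ * (t - t') / m) ?_ ?_
  · intro t ht
    rw [Finset.mem_coe, mem_filter, mem_Ico] at ht
    rw [Finset.mem_coe, mem_range, Nat.lt_succ_iff]
    exact Nat.div_le_div_right (Nat.mul_le_mul_left _ (by omega))
  · have key : ∀ t1 t2 : ℕ, t' ≤ t1 → t1 < t2 → (m : ℤ) ∣ (μ : ℤ) * t1 + B → (m : ℤ) ∣ (μ : ℤ) * t2 + B →
        μ * (t1 - t') / m ≠ μ * (t2 - t') / m := by
      intro t1 t2 h0 h1 h2 h3 h4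
      obtain ⟨s, rfl⟩ := Nat.exists_eq_add_of_lt h1
      obtain ⟨u, rfl⟩ := Nat.exists_eq_add_of_le h0
      have h5 : (m : ℤ) ∣ ((μ * (s + 1) : ℕ) : ℤ) := by
        have h6 := dvd_sub h3 h2
        have h7 : (μ : ℤ) * ((t' + u + s + 1 : ℕ) : ℤ) + B - ((μ : ℤ) * ((t' + u : ℕ) : ℤ) + B) =
            ((μ * (s + 1) : ℕ) : ℤ) := by
          push_cast
          ring
        rwa [h7] at h6
      have h6 : m ≤ μ * (s + 1) :=
        Nat.le_of_dvd (Nat.mul_pos hμ (by omega)) (Int.natCast_dvd_natCast.1 h5)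
      have h7 : μ * (t' + u + s + 1 - t') = μ * (t' + u - t') + μ * (s + 1) := by
        rw [← mul_add]
        congr 1
        omega
      rw [h7] at h4
      have h8 : μ * (t' + u - t') / m + 1 ≤ (μ * (t' + u - t') + μ * (s + 1)) / m := by
        rw [← Nat.add_div_right _ hm]
        exact Nat.div_le_div_right (by omega)
      omega
    intro t1 h1 t2 h2 h
    rw [Finset.mem_coe, mem_filter, mem_Ico] at h1 h2
    rcases lt_trichotomy t1 t2 with h3 | h3 | h3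
    · exact absurd h (key t1 t2 h1.1.1 h3 h1.2 h2.2)
    · exact h3
    · exact absurd h.symm (key t2 t1 h2.1.1 h3 h2.2 h1.2)

open Classical in
/-- the number of the `t` in a window for which `m` is admissible -/
theorem cntm (hr : S_RHO) {p : ℕ} (hp : p.Prime) (hp3 : 3 ≤ p) {G μ j n t' W m : ℕ} (hμ1 : 1 ≤ μ)
    (hμ : μ ≤ 2 * G) (hm : 1 ≤ m) (hmW : m ≤ W) :
    (((Ico t' (t' + W)).filter (fun t => ∃ x, Adm p μ j n t m x)).card : ℝ) ≤
      (tau m : ℝ) ^ p * (4 * G * W / m) := by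
  have h1 : (Ico t' (t' + W)).filter (fun t => ∃ x, Adm p μ j n t m x) ⊆
      ((range m).filter (fun x : ℕ => (m : ℤ) ∣ (x : ℤ) ^ p - 1)).biUnion fun x =>
        (Ico t' (t' + W)).filter (fun t : ℕ => (m : ℤ) ∣ (μ : ℤ) * t + j * (((x : ℤ) + n) ^ p - 1)) := by
    intro t ht
    rw [mem_filter] at ht
    obtain ⟨ht1, x, -, hx1, hx2, hx3⟩ := ht
    rw [mem_biUnion]
    refine ⟨x, ?_, ?_⟩
    · rw [mem_filter, mem_range]
      exact ⟨hx1, hx2⟩
    · rw [mem_filter]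
      exact ⟨ht1, hx3⟩
  have h2 : ((Ico t' (t' + W)).filter (fun t => ∃ x, Adm p μ j n t m x)).card ≤
      tau m ^ p * (μ * W / m + 1) := by
    refine (card_le_card h1).trans ((card_biUnion_le_card_mul _ _ (μ * W / m + 1) fun x _ =>
      cnt W t' _ hm hμ1).trans ?_)
    exact Nat.mul_le_mul_right _ (hr p hp hp3 m hm)
  have hm0 : (0 : ℝ) < m := by exact_mod_cast hm
  have h3 : ((μ * W / m + 1 : ℕ) : ℝ) ≤ 4 * G * W / m := by
    have h4 : ((μ * W / m : ℕ) : ℝ) ≤ (μ : ℝ) * W / m := by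
      have := Nat.cast_div_le (α := ℝ) (m := μ * W) (n := m)
      push_cast at this
      exact this
    have h5 : (1 : ℝ) ≤ (μ : ℝ) * W / m := by
      rw [le_div_iff₀ hm0, one_mul]
      have h6 : m ≤ μ * W := hmW.trans (Nat.le_mul_of_pos_left W hμ1)
      exact_mod_cast h6
    have h6 : (μ : ℝ) * W / m ≤ 2 * G * W / m := by
      have h7 : (μ : ℝ) ≤ 2 * G := by exact_mod_cast hμ
      have h8 : (0 : ℝ) ≤ W := Nat.cast_nonneg _
      gcongr
    push_cast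
    calc ((μ * W / m : ℕ) : ℝ) + 1 ≤ (μ : ℝ) * W / m + (μ : ℝ) * W / m := add_le_add h4 h5
      _ ≤ 2 * G * W / m + 2 * G * W / m := add_le_add h6 h6
      _ = _ := by ring
  calc _ ≤ ((tau m ^ p * (μ * W / m + 1) : ℕ) : ℝ) := by exact_mod_cast h2
    _ = (tau m : ℝ) ^ p * ((μ * W / m + 1 : ℕ) : ℝ) := by push_cast; ring
    _ ≤ _ := mul_le_mul_of_nonneg_left h3 (by positivity)

open Classical in
/-- the sum over `t` -/
theorem absum (hr : S_RHO) {p : ℕ} (hp : p.Prime) (hp3 : 3 ≤ p) {G μ j n t' W : ℕ} (c : ℕ) (hμ1 : 1 ≤ μ)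
    (hμ : μ ≤ 2 * G) :
    ∑ t ∈ Ico t' (t' + W), ∑ m ∈ (Icc 1 W).filter (fun m => ∃ x, Adm p μ j n t m x), (tau m : ℝ) ^ c ≤
      4 * G * W * ∑ m ∈ Icc 1 W, (tau m : ℝ) ^ (c + p) / m := by
  have h1 : ∑ t ∈ Ico t' (t' + W), ∑ m ∈ (Icc 1 W).filter (fun m => ∃ x, Adm p μ j n t m x),
      (tau m : ℝ) ^ c = ∑ m ∈ Icc 1 W, ∑ t ∈ (Ico t' (t' + W)).filter
        (fun t => ∃ x, Adm p μ j n t m x), (tau m : ℝ) ^ c := by
    simp only [sum_filter]
    exact sum_comm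
  rw [h1, mul_sum]
  refine sum_le_sum fun m hm => ?_
  rw [mem_Icc] at hm
  rw [sum_const, nsmul_eq_mul]
  have h2 := mul_le_mul_of_nonneg_right (cntm hr hp hp3 (j := j) (n := n) (t' := t') hμ1 hμ hm.1 hm.2)
    (show (0 : ℝ) ≤ (tau m : ℝ) ^ c by positivity)
  refine h2.trans (le_of_eq ?_)
  rw [pow_add]
  ring

end Pool.Agent.K93.SO.ABS
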