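import Pool.Agent.K93.SD.Stm

/-!
# Zeros of the gcd recursion with `n^p - 1`, `p` an odd prime: project SO (helper93), statements of the parts

As project SD (`p = 2`), with one number `g` for each jump: in reversed time from a very large jump at the time `k`
(`μ a (k-1) = j (k^p - 1)`, `j < μ ≤ 2 G`), `T s = a (k-s) - a (k-1)`, `T 1 = 0`, `T (s+1) = T s + g s`,
`g s ∣ (k-s)^p - 1`, `g s ∣ μ T s + j (k^p - 1)`.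
-/

set_option autoImplicit false

namespace Pool.Agent.K93.SO

open Finset
open Pool.Agent.K93.SD (tau em La S_CRT)

/-- `x` is the residue of `k - n` -/
def Adm (p μ j n t g x : ℕ) : Prop := 1 ≤ g ∧ x < g ∧ (g : ℤ) ∣ (x : ℤ) ^ p - 1 ∧
  (g : ℤ) ∣ (μ : ℤ) * t + j * (((x : ℤ) + n) ^ p - 1)

/-- bound of the admissible `g` -/
def UU (p μ j n t : ℕ) : ℕ := (μ * t + j * (n + 1) ^ p + j) ^ p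

open Classical in
/-- the admissible pairs -/
noncomputable def Ad (p μ j n t : ℕ) : Finset (ℕ × ℕ) :=
  (Icc 1 (UU p μ j n t) ×ˢ range (UU p μ j n t)).filter (fun y => Adm p μ j n t y.1 y.2)

/-- the reversed walk, steps `1, …, R` -/
structure Walk (p k μ j R : ℕ) (T g : ℕ → ℕ) : Prop where
  start : T 1 = 0
  first : 1 ≤ R → T 2 ≤ (j * (2 ^ p + 1)) ^ p
  gpos : ∀ n, 1 ≤ n → n ≤ R → 1 ≤ g n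
  step : ∀ n, 1 ≤ n → n ≤ R → T (n + 1) = T n + g n
  gV : ∀ n, 1 ≤ n → n ≤ R → (g n : ℤ) ∣ ((k : ℤ) - n) ^ p - 1
  gT : ∀ n, 1 ≤ n → n ≤ R → (g n : ℤ) ∣ (μ : ℤ) * T n + j * ((k : ℤ) ^ p - 1)

/-- the steps up to `R` with `T n ≥ T0` and a jump of size at least `D` -/
def J (R T0 D : ℕ) (T g : ℕ → ℕ) : Finset ℕ := (Icc 1 R).filter (fun n => T0 ≤ T n ∧ D ≤ g n)

/-- a leap at the step `n`: from a value `t < B` by a jump of size at least `Λ B` -/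
def Leap (p μ j n B Λ k : ℕ) : Prop := ∃ t g : ℕ, 1 ≤ t ∧ t < B ∧ 1 ≤ g ∧ Λ * B ≤ g ∧
  (g : ℤ) ∣ ((k : ℤ) - n) ^ p - 1 ∧ (g : ℤ) ∣ (μ : ℤ) * t + j * ((k : ℤ) ^ p - 1)

open Classical in
/-- `r` successive jumps of size at least `D` such that the sums in between are small for at least half of the pairs
of neighbours -/
def BadRun (p μ j G H Y T0 Ts D r k : ℕ) : Prop :=
  ∃ n t g : ℕ → ℕ,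
    (∀ i, i < r → 2 ≤ n i ∧ n i ≤ G ∧ T0 ≤ t i ∧ t i ≤ Ts ∧ 1 ≤ g i ∧ D ≤ g i ∧
      (g i : ℤ) ∣ ((k : ℤ) - n i) ^ p - 1 ∧ (g i : ℤ) ∣ (μ : ℤ) * t i + j * ((k : ℤ) ^ p - 1)) ∧
    (∀ i i', i < i' → i' < r → Nat.gcd (g i) (g i') ≤ H) ∧
    (∀ i, i + 1 < r → n i < n (i + 1) ∧ t i + g i ≤ t (i + 1) ∧
      t (i + 1) ≤ t i + g i + G * g (i + 1)) ∧
    r ≤ 2 * ((range (r - 1)).filter
      (fun i => Y * (t (i + 1) - (t i + g i)) < g (i + 1))).card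

/-- the recursion of the problem, with an arbitrary initial value `a 1` -/
def IsSeq (p : ℕ) (a : ℕ → ℤ) : Prop :=
  ∀ n : ℕ, 2 ≤ n → a n = |a (n - 1) - ((Int.gcd (a (n - 1)) ((n : ℤ) ^ p - 1) : ℕ) : ℤ)|

/-- the recursion holds after the index `n` -/
def IsFrom (p : ℕ) (a : ℕ → ℤ) (n : ℕ) : Prop :=
  ∀ i : ℕ, n < i → a i = |a (i - 1) - ((Int.gcd (a (i - 1)) ((i : ℤ) ^ p - 1) : ℕ) : ℤ)|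

/-- **RES** the resultant of `X^p - 1` and `A + j (X + n)^p` -/
def S_RES : Prop := ∀ p : ℕ, p.Prime → 3 ≤ p → ∀ (n j g : ℕ) (A x : ℤ), 1 ≤ n → 1 ≤ j →
  A + j * ((n : ℤ) + 1) ^ p ≠ 0 → ¬ (n = 1 ∧ A = j) → (g : ℤ) ∣ x ^ p - 1 → (g : ℤ) ∣ A + j * (x + n) ^ p →
  (g : ℤ) ≤ (|A| + j * ((n : ℤ) + 1) ^ p) ^ p

/-- **RHO** the number of `p`-th roots of unity modulo `g` -/
def S_RHO : Prop := ∀ p : ℕ, p.Prime → 3 ≤ p → ∀ g : ℕ, 1 ≤ g →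
  ((range g).filter (fun x : ℕ => (g : ℤ) ∣ (x : ℤ) ^ p - 1)).card ≤ tau g ^ p

/-- **TAUI** small divisors -/
def S_TAUI : Prop := ∀ i : ℕ, ∃ C γ : ℕ, 1 ≤ C ∧ ∀ N : ℕ, N ≠ 0 → ∃ m, m ∣ N ∧ m ^ (2 ^ i) ≤ N ∧
  tau N ≤ C * tau m ^ γ

/-- **LCM** the admissible `g` are closed under least common multiples -/
def S_LCM : Prop := ∀ p μ j n t g₁ x₁ g₂ x₂ : ℕ, Adm p μ j n t g₁ x₁ → Adm p μ j n t g₂ x₂ →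
  ∃ x, Adm p μ j n t (Nat.lcm g₁ g₂) x

/-- **REC** a short gap between zeros gives a reversed walk -/
def S_REC : Prop := ∀ p : ℕ, p.Prime → 3 ≤ p → ∀ (a : ℕ → ℤ) (n n' G : ℕ), IsFrom p a n → 1 ≤ G →
  16 ^ p * G ^ 4 ≤ n → n < n' → a n = 0 → a n' = 0 → (∀ k, n < k → k < n' → a k ≠ 0) → n' ≤ n + G →
  ∃ (k μ j R : ℕ) (T g : ℕ → ℕ), n + 1 < k ∧ k ≤ n' ∧ 1 ≤ j ∧ j < μ ∧ μ ≤ 2 * G ∧ R ≤ G ∧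
    Walk p k μ j R T g ∧ n ≤ T (R + 1)

/-- **AB** -/
def S_AB : Prop := ∀ p : ℕ, p.Prime → 3 ≤ p → ∃ K β : ℕ, 1 ≤ K ∧ ∀ G μ j n Ts t' W : ℕ, 2 ≤ n → n ≤ G → 1 ≤ j →
  j < μ → μ ≤ 2 * G → (4 * G) ^ p ≤ Ts → 1 ≤ t' → t' ≤ Ts → W ≤ 2 * Ts → 8 * G * Ts ≤ W ^ 2 →
  ∑ t ∈ Ico t' (t' + W), ((Ad p μ j n t).card : ℝ) ≤ K * G * W * (1 + Real.log (8 * G * Ts)) ^ β

/-- the admissible pairs at the value `t` which are of use -/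
noncomputable def Pr (p μ j n P Q D t' t : ℕ) : Finset (ℕ × ℕ) :=
  (Ad p μ j n t).filter (fun y => D ≤ y.1 ∧ P * (t - t') ≤ Q * y.1)

/-- **WT** the weight of a step -/
def S_WT : Prop := ∀ p : ℕ, p.Prime → 3 ≤ p → ∃ K β : ℕ, 1 ≤ K ∧ ∀ G μ j n P Q D Ts t' : ℕ, 2 ≤ n → n ≤ G → 1 ≤ j →
  j < μ → μ ≤ 2 * G → (4 * G) ^ p ≤ Ts → 1 ≤ P → 1 ≤ Q → 1 ≤ D → 1 ≤ t' → Q * D ≤ P * Ts →
  8 * G * Ts * P ^ 2 ≤ Q ^ 2 * D ^ 2 →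
  ∑ t ∈ Icc t' Ts, ∑ y ∈ Pr p μ j n P Q D t' t, (1 / (y.1 : ℝ)) ≤
    K * G * ((Q : ℝ) / P) * (1 + Real.log (8 * G * Ts)) ^ β

open Classical in
/-- **LEAP** leaps are rare -/
def S_LEAP : Prop := ∀ p : ℕ, p.Prime → 3 ≤ p → ∃ K β : ℕ, 1 ≤ K ∧ ∀ G μ j n B Λ X : ℕ, 2 ≤ n → n ≤ G → 1 ≤ j →
  j < μ → μ ≤ 2 * G → (8 * G) ^ p ≤ B → 1 ≤ Λ →
  (((Icc 1 X).filter (fun k : ℕ => Leap p μ j n B Λ k)).card : ℝ) ≤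
    K * G * ((X : ℝ) / Λ + B) * (1 + Real.log (8 * G * B)) ^ β

open Classical in
/-- **CNT** the number of `k ≤ X` with a bad run of length `2 b` at the level `D` -/
def S_CNT : Prop := ∀ p : ℕ, p.Prime → 3 ≤ p → ∃ K β : ℕ, 1 ≤ K ∧ ∀ (μ j G Y T0 Ts D b X : ℕ), 1 ≤ G → 1 ≤ j →
  j < μ → μ ≤ 2 * G → 2 ≤ Y → 1 ≤ T0 → (4 * G) ^ p ≤ Ts → 1 ≤ D → 1 ≤ b → G * D ≤ Ts → 8 * G * Ts * Y ^ 2 ≤ D ^ 2 →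
  (((Icc 1 X).filter (fun k : ℕ => BadRun p μ j G ((4 * G) ^ (p ^ 2)) Y T0 Ts D (2 * b) k)).card : ℝ) ≤
    4 ^ b * ((X : ℝ) * ((4 * G : ℝ) ^ (p ^ 2)) ^ ((2 * b) ^ 2) * (G * Ts * ((8 * G * Ts) ^ p) ^ 2) *
      (K * (G : ℝ) ^ 3 * (1 + Real.log (8 * G * Ts)) ^ β) ^ (2 * b) / (Y : ℝ) ^ b +
      (G * Ts * ((8 * G * Ts) ^ p) ^ 2) ^ (2 * b))

/-- **BIG** many big jumps while `T` grows from `T0` to `(4 Λ) ^ M T0`, if there are no leaps -/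
def S_BIG : Prop := ∀ (p k μ j G R T0 D Λ M : ℕ) (T g : ℕ → ℕ), Walk p k μ j R T g → R ≤ G → 1 ≤ Λ →
  (j * (2 ^ p + 1)) ^ p < T0 → 2 * G * D ≤ T0 →
  (∀ m n, m < M → 2 ≤ n → n ≤ R → 1 ≤ T n → T n < (4 * Λ) ^ m * T0 → g n < Λ * ((4 * Λ) ^ m * T0)) →
  (4 * Λ) ^ M * T0 < T (R + 1) → M ≤ (J R T0 D T g).card

/-- **RUN** without bad runs the number of jumps grows by the factor `9/8` from level to level -/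
def S_RUN : Prop := ∀ p : ℕ, p.Prime → 3 ≤ p → ∀ (k μ j G R Y T0 Ts r K : ℕ) (T g D : ℕ → ℕ), Walk p k μ j R T g →
  R ≤ G → 1 ≤ μ → μ ≤ 2 * G → 1 ≤ T0 →
  (∀ n, 1 ≤ n → n ≤ R → T n ≤ Ts) → 2 ≤ r → 1 ≤ Y → 1 ≤ G → (∀ i, i ≤ K → G < D i) →
  (∀ i, i < K → 2 * G * Y * D (i + 1) ≤ D i) →
  (∀ i, i < K → ¬ BadRun p μ j G ((4 * G) ^ (p ^ 2)) Y T0 Ts (D i) r k) → r ≤ (J R T0 (D 0) T g).card →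
  9 ^ K * (J R T0 (D 0) T g).card ≤ 8 ^ K * G

/-- the parameters (`em h = 6 h + 4`, `La h = 2 ^ (20 h)` as for `p = 2`) -/
def uu (p h : ℕ) : ℕ := 100000 * p ^ 4 * h ^ 2
def Tz (p h : ℕ) : ℕ := 2 ^ (6 * em h * uu p h)
def Ts (p h : ℕ) : ℕ := 2 ^ (8 * em h * uu p h)
def Dk (p h i : ℕ) : ℕ := 2 ^ ((6 * em h - 2 - i) * uu p h)
def Yy (p h : ℕ) : ℕ := 2 ^ (uu p h - h - 2)
/-- the exponent of `X` -/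
def xx (p h : ℕ) : ℕ := 100000000000 * p ^ 6 * h ^ 4

/-- **PAR** -/
def S_PAR : Prop := ∀ p K β : ℕ, 3 ≤ p → ∃ h₀ : ℕ, 1 ≤ h₀ ∧ ∀ h X : ℕ, h₀ ≤ h → 2 ^ xx p h ≤ X →
  (2 * 2 ^ h : ℝ) ^ 2 * (2 ^ h * (64 * p * em h) * (K * 2 ^ h * ((X : ℝ) / La h + Ts p h) *
      (1 + Real.log (8 * 2 ^ h * Ts p h)) ^ β) +
    (6 * h) * (4 ^ (32 * p * em h) * ((X : ℝ) * ((4 * 2 ^ h : ℝ) ^ (p ^ 2)) ^ ((2 * (32 * p * em h)) ^ 2) *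
      (2 ^ h * Ts p h * ((8 * 2 ^ h * Ts p h) ^ p) ^ 2) *
      (K * ((2 : ℝ) ^ h) ^ 3 * (1 + Real.log (8 * 2 ^ h * Ts p h)) ^ β) ^ (2 * (32 * p * em h)) /
        (Yy p h : ℝ) ^ (32 * p * em h) +
      (2 ^ h * Ts p h * ((8 * 2 ^ h * Ts p h) ^ p) ^ 2) ^ (2 * (32 * p * em h))))) ≤ X / 2 ^ (3 * h)

/-- **EXC** the exceptional set -/
def S_EXC : Prop := ∀ p : ℕ, p.Prime → 3 ≤ p → ∃ h₀ : ℕ, 1 ≤ h₀ ∧ ∀ h X : ℕ, h₀ ≤ h → 2 ^ xx p h ≤ X →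
  ∃ E : Finset ℕ, (E.card : ℝ) ≤ X / 2 ^ (3 * h) ∧
  ∀ k, 1 ≤ k → k ≤ X → k ∉ E → ∀ (μ j R : ℕ) (T g : ℕ → ℕ), 1 ≤ j → j < μ → μ ≤ 2 * 2 ^ h → R ≤ 2 ^ h →
    Walk p k μ j R T g → T (R + 1) ≤ Ts p h

/-- **ZER** the number of zeros up to `X` in terms of `h` -/
def S_ZER : Prop := ∀ p : ℕ, p.Prime → 3 ≤ p → ∃ h₀ : ℕ, 1 ≤ h₀ ∧ ∀ h X : ℕ, h₀ ≤ h → 2 ^ xx p h ≤ X →
  ∀ a : ℕ → ℤ, IsSeq p a → ({n : ℕ | 1 ≤ n ∧ n ≤ X ∧ a n = 0}.ncard : ℝ) ≤ 8 * X / 2 ^ h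

/-- **ALL** almost all descents last at least `2 ^ h` steps -/
def S_ALL : Prop := ∀ p : ℕ, p.Prime → 3 ≤ p → ∃ h₀ : ℕ, 1 ≤ h₀ ∧ ∀ h X : ℕ, h₀ ≤ h → 2 ^ xx p h ≤ X →
  ({n : ℕ | 1 ≤ n ∧ n ≤ X ∧ ∃ (a : ℕ → ℤ) (n' : ℕ), IsFrom p a n ∧ a n = 0 ∧ n < n' ∧ n' ≤ n + 2 ^ h ∧ a n' = 0}.ncard :
    ℝ) ≤ 8 * X / 2 ^ h

/-- **TPA** -/
def S_TPA : Prop := ∀ p : ℕ, p.Prime → 3 ≤ p → ∃ c C : ℝ, 0 < c ∧ 0 < C ∧ ∀ X : ℕ, 2 ≤ X →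
  ({n : ℕ | 1 ≤ n ∧ n ≤ X ∧ ∃ (a : ℕ → ℤ) (n' : ℕ), IsFrom p a n ∧ a n = 0 ∧ n < n' ∧
    (n' : ℝ) ≤ n + Real.exp (c * Real.log X ^ (1 / 4 : ℝ)) ∧ a n' = 0}.ncard : ℝ) ≤
      C * X * Real.exp (-(c * Real.log X ^ (1 / 4 : ℝ)))

/-- **TOP** -/
def S_TOP : Prop := ∀ p : ℕ, p.Prime → 3 ≤ p → ∃ c C : ℝ, 0 < c ∧ 0 < C ∧ ∀ a : ℕ → ℤ, IsSeq p a → ∀ X : ℕ, 2 ≤ X →
  ({n : ℕ | 1 ≤ n ∧ n ≤ X ∧ a n = 0}.ncard : ℝ) ≤ C * X * Real.exp (-(c * Real.log X ^ (1 / 4 : ℝ)))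

end Pool.Agent.K93.SO
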