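import Pool.Agent.K93.SO.Stm
import Pool.Agent.K93.SD.T_SIV
import Pool.Agent.H359R2.Tau

/-! AB: the number of admissible pairs in a window -/

set_option autoImplicit false

namespace Pool.Agent.K93.SO

open Finset
open Pool.Agent.K93.SD (tau)

namespace AB

/-- admissible numbers are bounded -/
theorem adm_le (hR : S_RES) {p : ℕ} (hp : p.Prime) (hp3 : 3 ≤ p) {μ j n t g x : ℕ} (hn : 2 ≤ n) (hj : 1 ≤ j)
    (hμ : j < μ) (ht : 1 ≤ t) (h : Adm p μ j n t g x) : g ≤ UU p μ j n t := by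
  obtain ⟨h1, h2, h3, h4⟩ := h
  have hA : (0 : ℤ) ≤ (μ : ℤ) * t - j := by
    have h5 : j ≤ μ * t := by
      have := Nat.le_mul_of_pos_right μ ht
      omega
    have h6 : (j : ℤ) ≤ μ * t := by exact_mod_cast h5
    linarith
  have hj0 : (0 : ℤ) < j := by exact_mod_cast hj
  have hpos : (0 : ℤ) < j * ((n : ℤ) + 1) ^ p := by positivity
  have h5 := hR p hp hp3 n j g ((μ : ℤ) * t - j) x (by omega) hj (by
      intro h0
      linarith) (by rintro ⟨h, _⟩; omega) h3 (by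
      have h6 : ((μ : ℤ) * t - j) + j * ((x : ℤ) + n) ^ p = (μ : ℤ) * t + j * (((x : ℤ) + n) ^ p - 1) := by ring
      rw [h6]
      exact h4)
  rw [abs_of_nonneg hA] at h5
  have h6 : ((μ : ℤ) * t - j) + j * ((n : ℤ) + 1) ^ p ≤ (μ : ℤ) * t + j * ((n : ℤ) + 1) ^ p + j := by linarith
  have h7 := pow_le_pow_left₀ (by linarith : (0 : ℤ) ≤ ((μ : ℤ) * t - j) + j * ((n : ℤ) + 1) ^ p) h6 p
  have h8 : ((UU p μ j n t : ℕ) : ℤ) = ((μ : ℤ) * t + j * ((n : ℤ) + 1) ^ p + j) ^ p := by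
    unfold UU
    push_cast
    ring
  have h9 : (g : ℤ) ≤ (UU p μ j n t : ℕ) := by
    rw [h8]
    exact h5.trans h7
  exact_mod_cast h9

theorem mem_Ad {p μ j n t : ℕ} {y : ℕ × ℕ} (hb : ∀ g x, Adm p μ j n t g x → g ≤ UU p μ j n t) :
    y ∈ Ad p μ j n t ↔ Adm p μ j n t y.1 y.2 := by
  classical
  simp only [Ad, mem_filter, mem_product, mem_Icc, mem_range]
  constructor
  · exact fun h => h.2
  · intro h
    have := hb _ _ h
    exact ⟨⟨⟨h.1, this⟩, lt_of_lt_of_le h.2.1 this⟩, h⟩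

theorem exN {p μ j n t : ℕ} (hL : S_LCM) (hb : ∀ g x, Adm p μ j n t g x → g ≤ UU p μ j n t) :
    ∃ N x, Adm p μ j n t N x ∧ ∀ g y, Adm p μ j n t g y → g ∣ N := by
  have hne : {g | ∃ x, Adm p μ j n t g x}.Nonempty :=
    ⟨1, 0, le_rfl, Nat.one_pos, by simp, by simp⟩
  have hbd : BddAbove {g | ∃ x, Adm p μ j n t g x} := by
    refine ⟨UU p μ j n t, ?_⟩
    rintro g ⟨x, hx⟩
    exact hb g x hx
  obtain ⟨x, hx⟩ := Nat.sSup_mem hne hbd
  refine ⟨sSup {g | ∃ x, Adm p μ j n t g x}, x, hx, ?_⟩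
  intro g y hy
  obtain ⟨z, hz⟩ := hL p μ j n t _ x g y hx hy
  have h1 : Nat.lcm (sSup {g | ∃ x, Adm p μ j n t g x}) g ≤ sSup {g | ∃ x, Adm p μ j n t g x} :=
    le_csSup hbd ⟨z, hz⟩
  have h2 : sSup {g | ∃ x, Adm p μ j n t g x} ∣ Nat.lcm (sSup {g | ∃ x, Adm p μ j n t g x}) g :=
    Nat.dvd_lcm_left _ _
  have h3 := Nat.le_of_dvd (by have := hz.1; omega) h2
  have h4 : Nat.lcm (sSup {g | ∃ x, Adm p μ j n t g x}) g = sSup {g | ∃ x, Adm p μ j n t g x} :=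
    le_antisymm h1 h3
  have h5 : g ∣ Nat.lcm (sSup {g | ∃ x, Adm p μ j n t g x}) g := Nat.dvd_lcm_right _ _
  rw [h4] at h5
  exact h5

theorem adm_dvd {p μ j n t N x m : ℕ} (h : Adm p μ j n t N x) (hm : m ∣ N) : Adm p μ j n t m (x % m) := by
  obtain ⟨h1, h2, h3, h4⟩ := h
  have hm0 : 1 ≤ m := Nat.pos_of_dvd_of_pos hm h1
  have hmZ : (m : ℤ) ∣ N := by exact_mod_cast hm
  have e1 : (m : ℤ) ∣ (x : ℤ) - ((x % m : ℕ) : ℤ) := by
    have h5 : (x : ℤ) - ((x % m : ℕ) : ℤ) = m * ((x / m : ℕ) : ℤ) := by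
      have h6 := Nat.div_add_mod x m
      have h7 : (m : ℤ) * ((x / m : ℕ) : ℤ) + ((x % m : ℕ) : ℤ) = x := by exact_mod_cast h6
      linarith
    rw [h5]
    exact dvd_mul_right _ _
  refine ⟨hm0, Nat.mod_lt _ hm0, ?_, ?_⟩
  · have e2 : (m : ℤ) ∣ (x : ℤ) ^ p - ((x % m : ℕ) : ℤ) ^ p := e1.trans (sub_dvd_pow_sub_pow _ _ _)
    have e3 := hmZ.trans h3
    have e4 : ((x % m : ℕ) : ℤ) ^ p - 1 = ((x : ℤ) ^ p - 1) - ((x : ℤ) ^ p - ((x % m : ℕ) : ℤ) ^ p) := by ring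
    rw [e4]
    exact dvd_sub e3 e2
  · have e2 : (m : ℤ) ∣ ((x : ℤ) + n) ^ p - (((x % m : ℕ) : ℤ) + n) ^ p := by
      refine dvd_trans ?_ (sub_dvd_pow_sub_pow _ _ _)
      have e5 : ((x : ℤ) + n) - (((x % m : ℕ) : ℤ) + n) = (x : ℤ) - ((x % m : ℕ) : ℤ) := by ring
      rw [e5]
      exact e1
    have e3 := hmZ.trans h4
    have e4 : (μ : ℤ) * t + j * ((((x % m : ℕ) : ℤ) + n) ^ p - 1) =
        ((μ : ℤ) * t + j * (((x : ℤ) + n) ^ p - 1)) -
          j * (((x : ℤ) + n) ^ p - (((x % m : ℕ) : ℤ) + n) ^ p) := by ring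
    rw [e4]
    exact dvd_sub e3 (e2.mul_left _)

theorem card_Ad (hr : S_RHO) {p : ℕ} (hp : p.Prime) (hp3 : 3 ≤ p) {μ j n t N : ℕ} (hN : 1 ≤ N)
    (hb : ∀ g x, Adm p μ j n t g x → g ≤ UU p μ j n t) (hdiv : ∀ g y, Adm p μ j n t g y → g ∣ N) :
    (Ad p μ j n t).card ≤ tau N ^ (p + 1) := by
  have h1 : Ad p μ j n t ⊆ N.divisors.biUnion
      (fun g => ((range g).filter (fun x : ℕ => (g : ℤ) ∣ (x : ℤ) ^ p - 1)).image (fun x => (g, x))) := by
    intro y hy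
    rw [mem_Ad hb] at hy
    rw [mem_biUnion]
    refine ⟨y.1, Nat.mem_divisors.2 ⟨hdiv _ _ hy, by omega⟩, ?_⟩
    rw [mem_image]
    exact ⟨y.2, mem_filter.2 ⟨mem_range.2 hy.2.1, hy.2.2.1⟩, rfl⟩
  have h2 := (card_le_card h1).trans card_biUnion_le
  have h3 : ∑ g ∈ N.divisors, (((range g).filter (fun x : ℕ => (g : ℤ) ∣ (x : ℤ) ^ p - 1)).image
      (fun x => (g, x))).card ≤ ∑ g ∈ N.divisors, tau N ^ p := by
    refine sum_le_sum fun g hg => ?_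
    rw [Nat.mem_divisors] at hg
    have hg1 : 1 ≤ g := Nat.pos_of_dvd_of_pos hg.1 hN
    refine card_image_le.trans ((hr p hp hp3 g hg1).trans ?_)
    exact Nat.pow_le_pow_left (card_le_card (Nat.divisors_subset_of_dvd hg.2 hg.1)) p
  refine (h2.trans h3).trans (le_of_eq ?_)
  rw [sum_const, smul_eq_mul, pow_succ, mul_comm]
  rfl

theorem count (μ W m t' c : ℕ) (hμ : 1 ≤ μ) (hm : 1 ≤ m) (hmW : m ≤ W) :
    (((Ico t' (t' + W)).filter (fun t => m ∣ μ * t + c)).card : ℝ) ≤ 2 * ((μ * W : ℕ) : ℝ) / m := by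
  have h1 : ((Ico t' (t' + W)).filter (fun t => m ∣ μ * t + c)).card ≤
      ((Ico (μ * t' + c) (μ * t' + c + μ * W)).filter (fun u => m ∣ u)).card := by
    refine Finset.card_le_card_of_injOn (fun t => μ * t + c) ?_ ?_
    · intro t ht
      rw [Finset.mem_coe, mem_filter, mem_Ico] at ht
      rw [Finset.mem_coe, mem_filter, mem_Ico]
      have h2 : μ * t' ≤ μ * t := Nat.mul_le_mul_left _ ht.1.1
      have h3 : μ * t < μ * (t' + W) := Nat.mul_lt_mul_of_pos_left ht.1.2 hμ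
      have h4 : μ * (t' + W) = μ * t' + μ * W := by ring
      refine ⟨⟨?_, ?_⟩, ht.2⟩
      · show μ * t' + c ≤ μ * t + c
        omega
      · show μ * t + c < μ * t' + c + μ * W
        omega
    · intro t _ u _ htu
      have h2 : μ * t + c = μ * u + c := htu
      exact Nat.eq_of_mul_eq_mul_left hμ (by omega)
  have h2 : (((Ico t' (t' + W)).filter (fun t => m ∣ μ * t + c)).card : ℝ) ≤
      (((Ico (μ * t' + c) (μ * t' + c + μ * W)).filter (fun u => m ∣ u)).card : ℝ) := by exact_mod_cast h1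
  exact h2.trans (SD.SIV.card_mult _ _ _ hm (hmW.trans (Nat.le_mul_of_pos_left W hμ)))

theorem two_mul_le {p : ℕ} (hp3 : 3 ≤ p) : 2 * p ≤ 2 ^ p := by
  induction p, hp3 using Nat.le_induction with
  | base => norm_num
  | succ q hq ih =>
    have h8 : 2 ^ (q + 1) = 2 * 2 ^ q := by ring
    omega

/-- the bound of `UU` -/
theorem UU_le {p : ℕ} (hp3 : 3 ≤ p) {G μ j n Ts t W : ℕ} (hn : 2 ≤ n) (hnG : n ≤ G)
    (hj : j < μ) (hμ : μ ≤ 2 * G) (hTs : (4 * G) ^ p ≤ Ts) (ht : t ≤ 3 * Ts)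
    (hW : 8 * G * Ts ≤ W ^ 2) : UU p μ j n t ≤ W ^ (2 ^ p) := by
  have hG : 1 ≤ G := by omega
  have h1 : (n + 1) ^ p ≤ (2 * G) ^ p := Nat.pow_le_pow_left (by omega) p
  have h2 : 1 ≤ (2 * G) ^ p := Nat.one_le_pow _ _ (by omega)
  have h3 : 2 * (2 * G) ^ p ≤ (4 * G) ^ p := by
    have h4 : (4 * G) ^ p = 2 ^ p * (2 * G) ^ p := by
      rw [← mul_pow]
      congr 1
      ring
    rw [h4]
    refine Nat.mul_le_mul_right _ ?_
    calc 2 = 2 ^ 1 := by norm_num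
      _ ≤ 2 ^ p := Nat.pow_le_pow_right (by norm_num) (by omega)
  have h4 : μ * t ≤ 6 * (G * Ts) := by
    calc μ * t ≤ 2 * G * (3 * Ts) := Nat.mul_le_mul hμ ht
      _ = 6 * (G * Ts) := by ring
  have h5 : j * (n + 1) ^ p + j ≤ 2 * (G * Ts) := by
    have h6 : (n + 1) ^ p + 1 ≤ Ts := by omega
    calc j * (n + 1) ^ p + j = j * ((n + 1) ^ p + 1) := by ring
      _ ≤ 2 * G * Ts := Nat.mul_le_mul (by omega) h6
      _ = 2 * (G * Ts) := by ring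
  have h6 : μ * t + j * (n + 1) ^ p + j ≤ W ^ 2 := by
    have h7 : 8 * G * Ts = 8 * (G * Ts) := by ring
    omega
  have hW1 : 1 ≤ W := by
    rcases Nat.eq_zero_or_pos W with h | h
    · subst h
      have : 1 ≤ Ts := by omega
      have : 1 ≤ G * Ts := Nat.mul_pos hG this
      have h7 : 8 * G * Ts = 8 * (G * Ts) := by ring
      simp at hW
      omega
    · exact h
  have h7 := two_mul_le hp3
  calc UU p μ j n t ≤ (W ^ 2) ^ p := Nat.pow_le_pow_left h6 p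
    _ = W ^ (2 * p) := by rw [← pow_mul]
    _ ≤ W ^ (2 ^ p) := Nat.pow_le_pow_right hW1 h7

theorem pointwise {p C γ : ℕ} (hTau : ∀ N : ℕ, N ≠ 0 → ∃ m, m ∣ N ∧ m ^ (2 ^ p) ≤ N ∧ tau N ≤ C * tau m ^ γ)
    (hr : S_RHO) (hL : S_LCM) (hp : p.Prime) (hp3 : 3 ≤ p) {μ j n t W : ℕ} (hn : 1 ≤ n)
    (hb : ∀ g x, Adm p μ j n t g x → g ≤ UU p μ j n t) (hU : UU p μ j n t ≤ W ^ (2 ^ p)) :
    ((Ad p μ j n t).card : ℝ) ≤ (C : ℝ) ^ (p + 1) *
      ∑ m ∈ Icc 1 W, ∑ x ∈ (range m).filter (fun x : ℕ => (m : ℤ) ∣ (x : ℤ) ^ p - 1),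
        if m ∣ μ * t + j * ((x + n) ^ p - 1) then (tau m : ℝ) ^ (γ * (p + 1)) else 0 := by
  obtain ⟨N, x, hx, hdiv⟩ := exN hL hb
  have hN : 1 ≤ N := hx.1
  obtain ⟨m, hmN, hmp, ht⟩ := hTau N (by omega)
  have h1 := card_Ad hr hp hp3 hN hb hdiv
  have h2 : tau N ^ (p + 1) ≤ (C * tau m ^ γ) ^ (p + 1) := Nat.pow_le_pow_left ht _
  have h3 : (C * tau m ^ γ) ^ (p + 1) = C ^ (p + 1) * tau m ^ (γ * (p + 1)) := by
    rw [mul_pow, ← pow_mul]
  have h4 : ((Ad p μ j n t).card : ℝ) ≤ (C : ℝ) ^ (p + 1) * (tau m : ℝ) ^ (γ * (p + 1)) := by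
    have h5 : (Ad p μ j n t).card ≤ C ^ (p + 1) * tau m ^ (γ * (p + 1)) := by
      rw [← h3]
      exact h1.trans h2
    exact_mod_cast h5
  refine h4.trans (mul_le_mul_of_nonneg_left ?_ (by positivity))
  have hm1 : 1 ≤ m := Nat.pos_of_dvd_of_pos hmN hN
  have hmW : m ≤ W := by
    have h5 : m ^ (2 ^ p) ≤ W ^ (2 ^ p) := (hmp.trans (hb N x hx)).trans hU
    exact (Nat.pow_le_pow_iff_left (by positivity)).1 h5
  have hadm := adm_dvd hx hmN
  have hcast : ((μ * t + j * ((x % m + n) ^ p - 1) : ℕ) : ℤ) =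
      (μ : ℤ) * t + j * ((((x % m : ℕ) : ℤ) + n) ^ p - 1) := by
    have h5 : 1 ≤ (x % m + n) ^ p := Nat.one_le_pow _ _ (by omega)
    push_cast [Nat.cast_sub h5]
    ring
  have hd : m ∣ μ * t + j * ((x % m + n) ^ p - 1) := by
    have h5 := hadm.2.2.2
    rw [← hcast] at h5
    exact_mod_cast h5
  have h5 : (tau m : ℝ) ^ (γ * (p + 1)) ≤
      ∑ x ∈ (range m).filter (fun x : ℕ => (m : ℤ) ∣ (x : ℤ) ^ p - 1),
        if m ∣ μ * t + j * ((x + n) ^ p - 1) then (tau m : ℝ) ^ (γ * (p + 1)) else 0 := by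
    have h6 := Finset.single_le_sum
      (f := fun x => if m ∣ μ * t + j * ((x + n) ^ p - 1) then (tau m : ℝ) ^ (γ * (p + 1)) else 0)
      (s := (range m).filter (fun x : ℕ => (m : ℤ) ∣ (x : ℤ) ^ p - 1))
      (fun i _ => by split_ifs <;> positivity)
      (mem_filter.2 ⟨mem_range.2 hadm.2.1, hadm.2.2.1⟩)
    simpa only [hd, if_true] using h6
  refine h5.trans ?_
  exact Finset.single_le_sum
    (f := fun m => ∑ x ∈ (range m).filter (fun x : ℕ => (m : ℤ) ∣ (x : ℤ) ^ p - 1),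
        if m ∣ μ * t + j * ((x + n) ^ p - 1) then (tau m : ℝ) ^ (γ * (p + 1)) else 0)
    (s := Icc 1 W) (fun i _ => Finset.sum_nonneg fun x _ => by split_ifs <;> positivity)
    (mem_Icc.2 ⟨hm1, hmW⟩)

end AB

theorem t_AB (hR : S_RES) (hr : S_RHO) (ht : S_TAUI) (hL : S_LCM) : S_AB := by
  intro p hp hp3
  obtain ⟨C, γ, hC, hTau⟩ := ht p
  refine ⟨4 * C ^ (p + 1), 2 ^ (γ * (p + 1) + p), Nat.mul_pos (by norm_num) (Nat.pow_pos hC), ?_⟩
  intro G μ j n Ts t' W hn hnG hj hjμ hμ hTs ht' ht'Ts hW hW2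
  have hG : 1 ≤ G := by omega
  have hTs1 : 1 ≤ Ts := (Nat.one_le_pow _ _ (by omega)).trans hTs
  have hpt : ∀ t ∈ Ico t' (t' + W), ((Ad p μ j n t).card : ℝ) ≤ (C : ℝ) ^ (p + 1) *
      ∑ m ∈ Icc 1 W, ∑ x ∈ (range m).filter (fun x : ℕ => (m : ℤ) ∣ (x : ℤ) ^ p - 1),
        if m ∣ μ * t + j * ((x + n) ^ p - 1) then (tau m : ℝ) ^ (γ * (p + 1)) else 0 := by
    intro t ht
    rw [mem_Ico] at ht
    refine AB.pointwise hTau hr hL hp hp3 (by omega) (fun g x h => AB.adm_le hR hp hp3 hn hj hjμ (by omega) h)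
      (AB.UU_le hp3 hn hnG hjμ hμ hTs (by omega) hW2)
  have h1 := Finset.sum_le_sum hpt
  have h2 : ∑ t ∈ Ico t' (t' + W), (C : ℝ) ^ (p + 1) *
      ∑ m ∈ Icc 1 W, ∑ x ∈ (range m).filter (fun x : ℕ => (m : ℤ) ∣ (x : ℤ) ^ p - 1),
        (if m ∣ μ * t + j * ((x + n) ^ p - 1) then (tau m : ℝ) ^ (γ * (p + 1)) else 0) =
      (C : ℝ) ^ (p + 1) * ∑ m ∈ Icc 1 W, ∑ x ∈ (range m).filter (fun x : ℕ => (m : ℤ) ∣ (x : ℤ) ^ p - 1),
        ((Ico t' (t' + W)).filter (fun t => m ∣ μ * t + j * ((x + n) ^ p - 1))).card *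
          (tau m : ℝ) ^ (γ * (p + 1)) := by
    rw [← Finset.mul_sum, Finset.sum_comm]
    congr 1
    refine Finset.sum_congr rfl fun m _ => ?_
    rw [Finset.sum_comm]
    refine Finset.sum_congr rfl fun x _ => ?_
    rw [← Finset.sum_filter, Finset.sum_const, nsmul_eq_mul]
  have h3 : ∀ m ∈ Icc 1 W, ∑ x ∈ (range m).filter (fun x : ℕ => (m : ℤ) ∣ (x : ℤ) ^ p - 1),
        (((Ico t' (t' + W)).filter (fun t => m ∣ μ * t + j * ((x + n) ^ p - 1))).card : ℝ) *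
          (tau m : ℝ) ^ (γ * (p + 1)) ≤ 4 * G * W * ((tau m : ℝ) ^ (γ * (p + 1) + p) / m) := by
    intro m hm
    rw [mem_Icc] at hm
    have hm0 : (0 : ℝ) < m := by exact_mod_cast hm.1
    have h4 : ∀ x ∈ (range m).filter (fun x : ℕ => (m : ℤ) ∣ (x : ℤ) ^ p - 1),
        (((Ico t' (t' + W)).filter (fun t => m ∣ μ * t + j * ((x + n) ^ p - 1))).card : ℝ) *
          (tau m : ℝ) ^ (γ * (p + 1)) ≤ 4 * G * W / m * (tau m : ℝ) ^ (γ * (p + 1)) := by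
      intro x _
      refine mul_le_mul_of_nonneg_right ?_ (by positivity)
      refine (AB.count μ W m t' _ (by omega) hm.1 hm.2).trans ?_
      refine div_le_div_of_nonneg_right ?_ hm0.le
      have h5 : 2 * (μ * W) ≤ 4 * G * W := by
        calc 2 * (μ * W) ≤ 2 * (2 * G * W) := Nat.mul_le_mul_left _ (Nat.mul_le_mul_right _ hμ)
          _ = 4 * G * W := by ring
      exact_mod_cast h5
    refine (Finset.sum_le_sum h4).trans ?_
    rw [Finset.sum_const, nsmul_eq_mul]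
    have h5 : (((range m).filter (fun x : ℕ => (m : ℤ) ∣ (x : ℤ) ^ p - 1)).card : ℝ) ≤ (tau m : ℝ) ^ p := by
      exact_mod_cast hr p hp hp3 m hm.1
    have h6 := mul_le_mul_of_nonneg_right h5
      (by positivity : (0 : ℝ) ≤ 4 * G * W / m * (tau m : ℝ) ^ (γ * (p + 1)))
    refine h6.trans (le_of_eq ?_)
    rw [pow_add]
    ring
  have h4 : ∑ m ∈ Icc 1 W, 4 * (G : ℝ) * W * ((tau m : ℝ) ^ (γ * (p + 1) + p) / m) =
      4 * G * W * H359R2.tsm (γ * (p + 1) + p) W := by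
    unfold H359R2.tsm
    rw [Finset.mul_sum]
    rfl
  have h5 := H359R2.tsm_le (γ * (p + 1) + p) W
  have hW1 : 1 ≤ W := by
    rcases Nat.eq_zero_or_pos W with h | h
    · subst h
      have h7 : 1 ≤ G * Ts := Nat.mul_pos hG hTs1
      have h8 : 8 * G * Ts = 8 * (G * Ts) := by ring
      simp at hW2
      omega
    · exact h
  have hW0 : (0 : ℝ) < W := by exact_mod_cast hW1
  have h6 : Real.log W ≤ Real.log (8 * G * Ts) := by
    refine Real.log_le_log hW0 ?_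
    have h7 : W ≤ 8 * G * Ts := by
      have h8 : Ts ≤ G * Ts := Nat.le_mul_of_pos_left Ts hG
      have h9 : 8 * G * Ts = 8 * (G * Ts) := by ring
      omega
    exact_mod_cast h7
  have h7 : 0 ≤ Real.log W := Real.log_natCast_nonneg W
  have h8 : (1 + Real.log W) ^ (2 ^ (γ * (p + 1) + p)) ≤
      (1 + Real.log (8 * G * Ts)) ^ (2 ^ (γ * (p + 1) + p)) :=
    pow_le_pow_left₀ (by linarith) (by linarith) _
  have h9 : ∑ t ∈ Ico t' (t' + W), ((Ad p μ j n t).card : ℝ) ≤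
      (C : ℝ) ^ (p + 1) * (4 * G * W * (1 + Real.log (8 * G * Ts)) ^ (2 ^ (γ * (p + 1) + p))) := by
    refine h1.trans ?_
    rw [h2]
    refine mul_le_mul_of_nonneg_left ?_ (by positivity)
    refine (Finset.sum_le_sum h3).trans ?_
    rw [h4]
    exact mul_le_mul_of_nonneg_left (h5.trans h8) (by positivity)
  refine h9.trans (le_of_eq ?_)
  push_cast
  ring

end Pool.Agent.K93.SO
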