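import Pool.Agent.K93.SO.Stm
import Pool.Agent.H359R2.Tau

/-! AB, second half: the sum over `t` of the powers of the numbers of divisors of the small admissible numbers -/

set_option autoImplicit false

namespace Pool.Agent.K93.SO

open Finset
open Pool.Agent.K93.SD (tau)

namespace AB2

theorem cnt (μ W t' m : ℕ) (c : ℤ) (hμ : 1 ≤ μ) (hm : 1 ≤ m) :
    (((Ico t' (t' + W)).filter (fun t : ℕ => (m : ℤ) ∣ (μ : ℤ) * t + c)).card : ℝ) ≤
      (μ * W : ℝ) / m + 1 := by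
  have hinj : Function.Injective (fun t : ℕ => (μ : ℤ) * t + c) := by
    intro a b hab
    have h1 : (μ : ℤ) * a = μ * b := by
      have : (μ : ℤ) * a + c = μ * b + c := hab
      linarith
    have h2 : (μ : ℤ) ≠ 0 := by positivity
    exact_mod_cast mul_left_cancel₀ h2 h1
  have hsub : ((Ico t' (t' + W)).filter (fun t : ℕ => (m : ℤ) ∣ (μ : ℤ) * t + c)).image
      (fun t : ℕ => (μ : ℤ) * t + c) ⊆
      (Ico ((μ : ℤ) * t' + c) ((μ : ℤ) * t' + c + μ * W)).filter (fun x => (m : ℤ) ∣ x) := by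
    intro x hx
    rw [mem_image] at hx
    obtain ⟨t, ht, rfl⟩ := hx
    rw [mem_filter, mem_Ico] at ht
    rw [mem_filter, mem_Ico]
    have h1 : (t' : ℤ) ≤ t := by exact_mod_cast ht.1.1
    have h2 : (t : ℤ) < t' + W := by exact_mod_cast ht.1.2
    have hμ' : (0 : ℤ) < μ := by positivity
    refine ⟨⟨by nlinarith, by nlinarith⟩, ht.2⟩
  have h1 := Finset.card_le_card hsub
  rw [Finset.card_image_of_injective _ hinj] at h1
  have hm' : (0 : ℤ) < m := by positivity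
  have h2 := Int.Ico_filter_dvd_card ((μ : ℤ) * t' + c) ((μ : ℤ) * t' + c + μ * W) hm'
  set N := ((Ico ((μ : ℤ) * t' + c) ((μ : ℤ) * t' + c + μ * W)).filter (fun x => (m : ℤ) ∣ x)).card
  have h3 : (N : ℚ) ≤ (μ * W : ℚ) / m + 1 := by
    have h4 : ((N : ℤ) : ℚ) ≤ (μ * W : ℚ) / m + 1 := by
      rw [h2]
      push_cast
      apply max_le
      · have h5 := Int.ceil_lt_add_one (((((μ : ℤ) * t' + c + μ * W : ℤ) : ℚ)) / ((m : ℤ) : ℚ))
        have h6 := Int.le_ceil (((((μ : ℤ) * t' + c : ℤ) : ℚ)) / ((m : ℤ) : ℚ))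
        push_cast at h5 h6
        have h7 : ((μ : ℚ) * t' + c + μ * W) / m = (μ * t' + c) / m + (μ * W) / m := by ring
        rw [h7] at h5
        rw [h7]
        linarith
      · positivity
    exact_mod_cast h4
  have h4 : (N : ℝ) ≤ (μ * W : ℝ) / m + 1 := by
    have h5 : ((N : ℚ) : ℝ) ≤ (((μ * W : ℚ) / m + 1 : ℚ) : ℝ) := by exact_mod_cast h3
    push_cast at h5
    exact h5
  have h5 : (((Ico t' (t' + W)).filter (fun t : ℕ => (m : ℤ) ∣ (μ : ℤ) * t + c)).card : ℝ) ≤ N := by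
    exact_mod_cast h1
  linarith

end AB2

open Classical in
/-- the second half of AB -/
theorem t_AB2 (hr : S_RHO) : ∀ p : ℕ, p.Prime → 3 ≤ p → ∀ κ : ℕ, ∃ K β : ℕ, 1 ≤ K ∧
    ∀ G μ j n Ts t' W : ℕ, 2 ≤ n → n ≤ G → 1 ≤ j →
    j < μ → μ ≤ 2 * G → (4 * G) ^ p ≤ Ts → 1 ≤ t' → t' ≤ Ts → W ≤ 2 * Ts → 8 * G * Ts ≤ W ^ 2 →
    ∑ t ∈ Ico t' (t' + W), ∑ m ∈ (Icc 1 W).filter (fun m => ∃ x, Adm p μ j n t m x), (tau m : ℝ) ^ κ ≤
      K * G * W * (1 + Real.log (8 * G * Ts)) ^ β := by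
  intro p hp hp3 κ
  refine ⟨4, 2 ^ (κ + p), by norm_num, ?_⟩
  intro G μ j n Ts t' W hn hnG hj hμ hμG hTs ht' ht'Ts hW hW2
  have hG : 1 ≤ G := by omega
  have hTs1 : 1 ≤ Ts := le_trans (Nat.one_le_pow _ _ (by omega)) hTs
  have hGTs : 1 ≤ G * Ts := Nat.one_le_iff_ne_zero.mpr (by positivity)
  have hW1 : 1 ≤ W := by
    rcases Nat.eq_zero_or_pos W with h | h
    · subst h
      have : 8 * G * Ts = 8 * (G * Ts) := by ring
      omega
    · exact h
  -- exchange the sums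
  have e1 : ∑ t ∈ Ico t' (t' + W), ∑ m ∈ (Icc 1 W).filter (fun m => ∃ x, Adm p μ j n t m x),
      (tau m : ℝ) ^ κ = ∑ m ∈ Icc 1 W, (tau m : ℝ) ^ κ *
        (((Ico t' (t' + W)).filter (fun t => ∃ x, Adm p μ j n t m x)).card : ℝ) := by
    have e2 : ∀ t ∈ Ico t' (t' + W), ∑ m ∈ (Icc 1 W).filter (fun m => ∃ x, Adm p μ j n t m x),
        (tau m : ℝ) ^ κ = ∑ m ∈ Icc 1 W, if (∃ x, Adm p μ j n t m x) then (tau m : ℝ) ^ κ else 0 :=
      fun t _ => Finset.sum_filter _ _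
    rw [Finset.sum_congr rfl e2, Finset.sum_comm]
    refine Finset.sum_congr rfl fun m _ => ?_
    rw [← Finset.sum_filter, Finset.sum_const, nsmul_eq_mul, mul_comm]
  rw [e1]
  -- one m
  have key : ∀ m ∈ Icc 1 W, (tau m : ℝ) ^ κ *
      (((Ico t' (t' + W)).filter (fun t => ∃ x, Adm p μ j n t m x)).card : ℝ) ≤
      4 * G * W * ((tau m : ℝ) ^ (κ + p) / m) := by
    intro m hm
    rw [mem_Icc] at hm
    have hm0 : (0 : ℝ) < m := by exact_mod_cast hm.1
    set Rt := (range m).filter (fun x : ℕ => (m : ℤ) ∣ (x : ℤ) ^ p - 1) with hRt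
    have hsub : (Ico t' (t' + W)).filter (fun t => ∃ x, Adm p μ j n t m x) ⊆
        Rt.biUnion (fun x => (Ico t' (t' + W)).filter
          (fun t : ℕ => (m : ℤ) ∣ (μ : ℤ) * t + j * (((x : ℤ) + n) ^ p - 1))) := by
      intro t ht
      rw [mem_filter] at ht
      obtain ⟨ht1, x, hx1, hx2, hx3, hx4⟩ := ht
      rw [mem_biUnion]
      refine ⟨x, ?_, ?_⟩
      · rw [hRt, mem_filter, mem_range]
        exact ⟨hx2, hx3⟩
      · rw [mem_filter]
        exact ⟨ht1, hx4⟩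
    have h1 : (((Ico t' (t' + W)).filter (fun t => ∃ x, Adm p μ j n t m x)).card : ℝ) ≤
        ∑ x ∈ Rt, (((Ico t' (t' + W)).filter
          (fun t : ℕ => (m : ℤ) ∣ (μ : ℤ) * t + j * (((x : ℤ) + n) ^ p - 1))).card : ℝ) := by
      have h2 := (Finset.card_le_card hsub).trans Finset.card_biUnion_le
      exact_mod_cast h2
    have h2 : ∑ x ∈ Rt, (((Ico t' (t' + W)).filter
          (fun t : ℕ => (m : ℤ) ∣ (μ : ℤ) * t + j * (((x : ℤ) + n) ^ p - 1))).card : ℝ) ≤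
        ∑ x ∈ Rt, (4 * G * W / m : ℝ) := by
      refine Finset.sum_le_sum fun x _ => ?_
      refine (AB2.cnt μ W t' m _ (by omega) hm.1).trans ?_
      rw [div_add_one hm0.ne']
      apply div_le_div_of_nonneg_right _ hm0.le
      have a1 : (μ : ℝ) ≤ 2 * G := by exact_mod_cast hμG
      have a2 : (m : ℝ) ≤ W := by exact_mod_cast hm.2
      have a3 : (1 : ℝ) ≤ G := by exact_mod_cast hG
      have a4 : (0 : ℝ) ≤ W := by positivity
      nlinarith
    rw [Finset.sum_const, nsmul_eq_mul] at h2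
    have h3 : (Rt.card : ℝ) ≤ (tau m : ℝ) ^ p := by exact_mod_cast hr p hp hp3 m hm.1
    have h4 : (0 : ℝ) ≤ 4 * G * W / m := by positivity
    have h5 : (Rt.card : ℝ) * (4 * G * W / m) ≤ (tau m : ℝ) ^ p * (4 * G * W / m) :=
      mul_le_mul_of_nonneg_right h3 h4
    calc (tau m : ℝ) ^ κ * (((Ico t' (t' + W)).filter (fun t => ∃ x, Adm p μ j n t m x)).card : ℝ)
        ≤ (tau m : ℝ) ^ κ * ((tau m : ℝ) ^ p * (4 * G * W / m)) :=
          mul_le_mul_of_nonneg_left ((h1.trans h2).trans h5) (by positivity)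
      _ = 4 * G * W * ((tau m : ℝ) ^ (κ + p) / m) := by rw [pow_add]; ring
  refine (Finset.sum_le_sum key).trans ?_
  rw [← Finset.mul_sum]
  have h1 : ∑ m ∈ Icc 1 W, (tau m : ℝ) ^ (κ + p) / m ≤ (1 + Real.log W) ^ (2 ^ (κ + p)) :=
    H359R2.tsm_le (κ + p) W
  have h2 : Real.log W ≤ Real.log (8 * G * Ts) := by
    apply Real.log_le_log
    · exact_mod_cast hW1
    · have : W ≤ 8 * G * Ts := by
        have h3 : Ts ≤ G * Ts := Nat.le_mul_of_pos_left _ hG
        have : 8 * G * Ts = 8 * (G * Ts) := by ring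
        omega
      exact_mod_cast this
  have h3 : (1 + Real.log W) ^ (2 ^ (κ + p)) ≤ (1 + Real.log (8 * G * Ts)) ^ (2 ^ (κ + p)) := by
    apply pow_le_pow_left₀
    · have := Real.log_natCast_nonneg W
      linarith
    · linarith
  have h4 := mul_le_mul_of_nonneg_left (h1.trans h3) (show (0 : ℝ) ≤ 4 * G * W by positivity)
  push_cast
  exact h4

end Pool.Agent.K93.SO
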