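import Pool.Agent.K93.SO.Stm

/-!
# Project SO, part ALL (helper46, adapted from `SD/T_ALL.lean`)
-/

set_option autoImplicit false

namespace Pool.Agent.K93.SO.ALL

open Finset Pool.Agent.K93.SO
open Pool.Agent.K93.SD (em)

lemma pows (p h X : ℕ) (hp : 3 ≤ p) (hph : p ≤ h) (hX : 2 ^ xx p h ≤ X) :
    (16 ^ p * (2 ^ h) ^ 4 + Ts p h) * 2 ^ h ≤ X := by
  refine le_trans ?_ hX
  have h1 : 1 ≤ h := by omega
  have hA : h ≤ p ^ 6 * h ^ 4 := by
    calc h = 1 * h ^ 1 := by ring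
      _ ≤ p ^ 6 * h ^ 4 := Nat.mul_le_mul (Nat.one_le_pow _ _ (by omega))
        (Nat.pow_le_pow_right h1 (by norm_num))
  have e1 : 16 ^ p * (2 ^ h) ^ 4 = 2 ^ (4 * p + 4 * h) := by
    rw [pow_add, pow_mul 2 4 p, mul_comm 4 h, pow_mul 2 h 4]
    norm_num
  have e2 : Ts p h ≤ 2 ^ (8000000 * (p ^ 6 * h ^ 4)) := by
    unfold Ts uu
    refine Nat.pow_le_pow_right (by norm_num) ?_
    have h6 : em h ≤ 10 * h := by unfold Pool.Agent.K93.SD.em; omega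
    calc 8 * em h * (100000 * p ^ 4 * h ^ 2) ≤ 8 * (10 * h) * (100000 * p ^ 4 * h ^ 2) := by gcongr
      _ = 8000000 * (p ^ 4 * h ^ 3) := by ring
      _ ≤ 8000000 * (p ^ 6 * h ^ 4) := by
        refine Nat.mul_le_mul_left _ (Nat.mul_le_mul (Nat.pow_le_pow_right (by omega) (by norm_num))
          (Nat.pow_le_pow_right h1 (by norm_num)))
  have e3 : 2 ^ (4 * p + 4 * h) ≤ 2 ^ (8000014 * (p ^ 6 * h ^ 4)) :=
    Nat.pow_le_pow_right (by norm_num) (by omega)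
  have e4 : 2 ^ (8000000 * (p ^ 6 * h ^ 4)) ≤ 2 ^ (8000014 * (p ^ 6 * h ^ 4)) :=
    Nat.pow_le_pow_right (by norm_num) (by omega)
  calc (16 ^ p * (2 ^ h) ^ 4 + Ts p h) * 2 ^ h ≤
        (2 ^ (8000014 * (p ^ 6 * h ^ 4)) + 2 ^ (8000014 * (p ^ 6 * h ^ 4))) * 2 ^ h := by
        refine Nat.mul_le_mul_right _ ?_
        omega
    _ = 2 ^ (8000014 * (p ^ 6 * h ^ 4) + 1 + h) := by
        rw [pow_add, pow_add]; ring
    _ ≤ 2 ^ xx p h := by
        refine Nat.pow_le_pow_right (by norm_num) ?_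
        have h8 : xx p h = 100000000000 * (p ^ 6 * h ^ 4) := by
          unfold xx
          ring
        rw [h8]
        omega

/-- the exceptional time belonging to a start with a short descent -/
lemma short (hR : S_REC) {p h X : ℕ} (hp : p.Prime) (hp3 : 3 ≤ p) {E : Finset ℕ} (hG : 2 ^ h ≤ X)
    (hE : ∀ k, 1 ≤ k → k ≤ 2 * X → k ∉ E → ∀ (μ j R : ℕ) (T g : ℕ → ℕ), 1 ≤ j → j < μ → μ ≤ 2 * 2 ^ h →
      R ≤ 2 ^ h → Walk p k μ j R T g → T (R + 1) ≤ Ts p h)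
    (a : ℕ → ℤ) (n n' : ℕ) (hfrom : IsFrom p a n) (hnX : n ≤ X) (h1 : 16 ^ p * (2 ^ h) ^ 4 ≤ n)
    (h2 : Ts p h < n)
    (ha : a n = 0) (hn : n < n') (hn' : n' ≤ n + 2 ^ h) (ha' : a n' = 0)
    (hmin : ∀ k, n < k → k < n' → a k ≠ 0) :
    ∃ k ∈ E, n < k ∧ k ≤ n' := by
  obtain ⟨k, μ, j, R, T, g, g1, g2, g3, g4, g5, g6, g7, g8⟩ :=
    hR p hp hp3 a n n' (2 ^ h) hfrom (Nat.one_le_two_pow) h1 hn ha ha' hmin hn'
  refine ⟨k, ?_, by omega, g2⟩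
  by_contra hk
  have := hE k (by omega) (by omega) hk μ j R T g g3 g4 g5 g6 g7
  omega

theorem all (hR : S_REC) (hE : S_EXC) : S_ALL := by
  intro p hpp hp3
  obtain ⟨h₀, hh₀, hE⟩ := hE p hpp hp3
  refine ⟨max h₀ p, hh₀.trans (le_max_left _ _), fun h X hh hX => ?_⟩
  have hh0 : h₀ ≤ h := (le_max_left _ _).trans hh
  have hph : p ≤ h := (le_max_right _ _).trans hh
  obtain ⟨E, hEc, hE⟩ := hE h (2 * X) hh0 (by omega)
  have h1 : 1 ≤ h := hh₀.trans hh0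
  have hp := pows p h X hp3 hph hX
  have hGpos : 1 ≤ 2 ^ h := Nat.one_le_two_pow
  obtain ⟨N0, hN0⟩ : ∃ N0, N0 = 16 ^ p * (2 ^ h) ^ 4 + Ts p h := ⟨_, rfl⟩
  rw [← hN0] at hp
  have hGX : 2 ^ h ≤ X := by
    have : 1 ≤ N0 := by
      rw [hN0]
      have : 0 < 16 ^ p * (2 ^ h) ^ 4 := by positivity
      omega
    nlinarith
  set S : Set ℕ := {n : ℕ | 1 ≤ n ∧ n ≤ X ∧ ∃ (a : ℕ → ℤ) (n' : ℕ), IsFrom p a n ∧ a n = 0 ∧ n < n' ∧
    n' ≤ n + 2 ^ h ∧ a n' = 0} with hS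
  have hsub : S ⊆ ((Icc 1 N0 ∪ E.biUnion (fun k => Icc (k - 2 ^ h) k) : Finset ℕ) : Set ℕ) := by
    rintro n ⟨hn1, hnX, a, n', hfrom, ha, hn, hn', ha'⟩
    simp only [coe_union, Set.mem_union, mem_coe, mem_Icc, mem_biUnion]
    by_cases hc : n ≤ N0
    · exact Or.inl ⟨hn1, hc⟩
    · right
      push Not at hc
      classical
      have hex : ∃ i, n < i ∧ a i = 0 := ⟨n', hn, ha'⟩
      have hsp := Nat.find_spec hex
      have hle : Nat.find hex ≤ n' := Nat.find_min' hex ⟨hn, ha'⟩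
      obtain ⟨k, hk1, hk2, hk3⟩ := short hR hpp hp3 hGX hE a n (Nat.find hex) hfrom hnX (by omega)
        (by omega) ha hsp.1
        (by omega) hsp.2 (fun i h3 h4 h5 => Nat.find_min hex h4 ⟨h3, h5⟩)
      exact ⟨k, hk1, by omega, by omega⟩
  have hcard : S.ncard ≤ N0 + E.card * (2 ^ h + 1) := by
    refine (Set.ncard_le_ncard hsub (Finset.finite_toSet _)).trans ?_
    rw [Set.ncard_coe_finset]
    refine (card_union_le _ _).trans ?_
    rw [Nat.card_Icc, Nat.add_sub_cancel]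
    refine Nat.add_le_add_left ?_ _
    refine card_biUnion_le_card_mul _ _ _ (fun k _ => ?_)
    rw [Nat.card_Icc]
    omega
  have hcR : (S.ncard : ℝ) ≤ N0 + E.card * ((2 : ℝ) ^ h + 1) := by exact_mod_cast hcard
  have hpR : (N0 : ℝ) * 2 ^ h ≤ X := by exact_mod_cast hp
  have hG1 : (1 : ℝ) ≤ 2 ^ h := one_le_pow₀ (by norm_num)
  have hG0 : (0 : ℝ) < 2 ^ h := by positivity
  have hX0 : (0 : ℝ) ≤ X := Nat.cast_nonneg X
  have h5 : (N0 : ℝ) ≤ X / 2 ^ h := by rwa [le_div_iff₀ hG0]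
  have h6 : (E.card : ℝ) * ((2 : ℝ) ^ h + 1) ≤ 4 * X / 2 ^ h := by
    push_cast at hEc
    calc (E.card : ℝ) * ((2 : ℝ) ^ h + 1) ≤ (2 * X / 2 ^ (3 * h)) * (2 * 2 ^ h) := by
          refine mul_le_mul hEc (by linarith) (by positivity) (by positivity)
      _ = 4 * X / (2 ^ h * 2 ^ h) := by
          rw [show (2 : ℝ) ^ (3 * h) = 2 ^ h * 2 ^ h * 2 ^ h by rw [← pow_add, ← pow_add]; congr 1; ring]
          field_simp
          ring
      _ ≤ 4 * X / 2 ^ h := by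
          refine div_le_div_of_nonneg_left (by positivity) hG0 ?_
          nlinarith
  calc (S.ncard : ℝ) ≤ X / 2 ^ h + 4 * X / 2 ^ h := by linarith
    _ = 5 * (X / 2 ^ h) := by ring
    _ ≤ 8 * (X / 2 ^ h) := by
        have : 0 ≤ (X : ℝ) / 2 ^ h := by positivity
        linarith
    _ = 8 * X / 2 ^ h := by ring

end Pool.Agent.K93.SO.ALL

namespace Pool.Agent.K93.SO

theorem t_ALL (hR : S_REC) (hE : S_EXC) : S_ALL := ALL.all hR hE

end Pool.Agent.K93.SO
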