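import Pool.Agent.K93.SO.Stm

/-!
# Project SO, part BIG
-/

set_option autoImplicit false

namespace Pool.Agent.K93.SO.BIG

open Finset Pool.Agent.K93.SO

section

variable {p k μ j G R T0 D Λ M : ℕ} {T g : ℕ → ℕ}

lemma inc (h : Walk p k μ j R T g) {n : ℕ} (h1 : 1 ≤ n) (hn : n ≤ R) : T n + 1 ≤ T (n + 1) := by
  have h2 := h.step n h1 hn
  have h3 := h.gpos n h1 hn
  omega

lemma mono (h : Walk p k μ j R T g) {m : ℕ} (hm : 1 ≤ m) : ∀ n, m ≤ n → n ≤ R + 1 → T m ≤ T n := by
  intro n hn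
  induction n, hn using Nat.le_induction with
  | base => intro _; exact le_rfl
  | succ n hn ih =>
    intro hG
    have := ih (by omega)
    have := inc h (hm.trans hn) (by omega : n ≤ R)
    omega

/-- the first time at which `T` is at least `B` -/
lemma first (h : Walk p k μ j R T g) {B : ℕ} (hB0 : 1 ≤ B) (hB : B ≤ T (R + 1)) :
    ∃ q, 1 ≤ q ∧ q ≤ R ∧ B ≤ T (q + 1) ∧ ∀ n, 1 ≤ n → n ≤ q → T n < B := by
  classical
  have hex : ∃ m, 1 ≤ m ∧ B ≤ T m := ⟨R + 1, by omega, hB⟩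
  obtain ⟨m, hm⟩ : ∃ m, m = Nat.find hex := ⟨_, rfl⟩
  have hsp : 1 ≤ m ∧ B ≤ T m := hm ▸ Nat.find_spec hex
  have hmin : ∀ n, 1 ≤ n → n < m → T n < B := by
    intro n h2 hn
    have := Nat.find_min hex (hm ▸ hn)
    by_contra hc
    exact this ⟨h2, not_lt.1 hc⟩
  have hmG : m ≤ R + 1 := by
    by_contra hc
    exact absurd (hmin (R + 1) (by omega) (by omega)) (not_lt.2 hB)
  have hm2 : 2 ≤ m := by
    by_contra hc
    have e1 : m = 1 := by omega
    have h4 := hsp.2
    rw [e1, h.start] at h4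
    omega
  refine ⟨m - 1, by omega, by omega, ?_, fun n h1 h2 => hmin n h1 (by omega)⟩
  rw [Nat.sub_add_cancel (by omega)]
  exact hsp.2

/-- small jumps -/
lemma small (h : Walk p k μ j R T g) {m : ℕ} (hm : 1 ≤ m) : ∀ i, m + i ≤ R + 1 →
    (∀ n, m ≤ n → n < m + i → g n < D) → T (m + i) ≤ T m + D * i := by
  intro i
  induction i with
  | zero => intro _ _; simp
  | succ i ih =>
    intro hk hD
    have h1 := ih (by omega) (fun n h2 h3 => hD n h2 (by omega))
    have h2 := hD (m + i) (by omega) (by omega)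
    have h3 := h.step (m + i) (by omega) (by omega)
    have h4 : D * (i + 1) = D * i + D := by ring
    rw [show m + (i + 1) = m + i + 1 by ring, h4]
    omega

lemma one (h : Walk p k μ j R T g) (hR : R ≤ G) (hΛ : 1 ≤ Λ) (hj : (j * (2 ^ p + 1)) ^ p < T0) (hD : 2 * G * D ≤ T0)
    (m : ℕ) (hL : ∀ n, 2 ≤ n → n ≤ R → 1 ≤ T n → T n < (4 * Λ) ^ m * T0 → g n < Λ * ((4 * Λ) ^ m * T0))
    (hi : (4 * Λ) ^ (m + 1) * T0 ≤ T (R + 1)) :
    ∃ n ∈ J R T0 D T g, (4 * Λ) ^ m * T0 ≤ T n ∧ T n < (4 * Λ) ^ (m + 1) * T0 := by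
  obtain ⟨B, hB⟩ : ∃ B, B = (4 * Λ) ^ m * T0 := ⟨_, rfl⟩
  have e4 : (4 * Λ) ^ (m + 1) * T0 = 4 * (Λ * B) := by rw [hB]; ring
  have hpow : 1 ≤ (4 * Λ) ^ m := Nat.one_le_pow _ _ (by omega)
  have hT0B : T0 ≤ B := by rw [hB]; exact Nat.le_mul_of_pos_left _ hpow
  have hΛB : B ≤ Λ * B := Nat.le_mul_of_pos_left _ hΛ
  rw [← hB] at hL ⊢
  rw [e4] at hi ⊢
  have hR1 : 1 ≤ R := by
    by_contra hc
    have e0 : R = 0 := by omega
    subst e0
    rw [zero_add, h.start] at hi
    omega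
  obtain ⟨P, hp1, hpR, hp, hpmin⟩ := first h (B := B) (by omega) (by omega)
  obtain ⟨q, hq1, hqR, hq, hqmin⟩ := first h (B := 4 * (Λ * B)) (by omega) hi
  have hp2 : 2 ≤ P := by
    by_contra hc
    have e1 : P = 1 := by omega
    subst e1
    have h5 := h.first hR1
    norm_num at hp
    omega
  have hTp : 1 ≤ T P := by
    have h5 := inc h (le_refl 1) hR1
    have h6 := mono h (by omega : 1 ≤ 1 + 1) P (by omega) (by omega)
    omega
  have hjump := hL P hp2 hpR hTp (hpmin P hp1 le_rfl)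
  have hstep := h.step P hp1 hpR
  have hpB := hpmin P hp1 le_rfl
  have hpq : P < q := by
    by_contra hc
    have h5 := hpmin (q + 1)
    rcases Nat.lt_or_ge q P with h6 | h6
    · have := h5 (by omega) (by omega)
      omega
    · have e1 : q = P := by omega
      rw [e1] at hq
      omega
  by_contra hcon
  have hall : ∀ n, P + 1 ≤ n → n < P + 1 + (q - P) → g n < D := by
    intro n hn1 hn2
    by_contra hc
    refine hcon ⟨n, ?_, ?_, ?_⟩
    · unfold J
      refine mem_filter.2 ⟨mem_Icc.2 ⟨by omega, by omega⟩, ?_, not_lt.1 hc⟩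
      exact hT0B.trans (hp.trans (mono h (by omega) n hn1 (by omega)))
    · exact hp.trans (mono h (by omega) n hn1 (by omega))
    · exact hqmin n (by omega) (by omega)
  have h5 := small h (by omega : 1 ≤ P + 1) (q - P) (by omega) hall
  rw [show P + 1 + (q - P) = q + 1 by omega] at h5
  have h6 : D * (q - P) ≤ D * G := Nat.mul_le_mul_left _ (by omega)
  have h7 : 2 * G * D = 2 * (D * G) := by ring
  omega

end

theorem big : S_BIG := by
  intro p k μ j G R T0 D Λ M T g h hR hΛ hj hD hL hM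
  classical
  have hex : ∀ i ∈ range M, ∃ n ∈ J R T0 D T g, (4 * Λ) ^ i * T0 ≤ T n ∧ T n < (4 * Λ) ^ (i + 1) * T0 := by
    intro i hi
    refine one h hR hΛ hj hD i (fun n h1 h2 h3 h4 => hL i n (mem_range.1 hi) h1 h2 h3 h4) ?_
    refine le_trans ?_ hM.le
    exact Nat.mul_le_mul_right _ (Nat.pow_le_pow_right (by omega) (mem_range.1 hi))
  choose! f hg1 hg2 hg3 using hex
  have hcard := card_le_card_of_injOn (s := range M) (t := J R T0 D T g) f
    (fun i hi => hg1 i hi) ?_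
  · rwa [card_range] at hcard
  · have key : ∀ i ∈ range M, ∀ l ∈ range M, i < l → f i ≠ f l := by
      intro i hi l hl hil e1
      have h4 := hg3 i hi
      have h5 := hg2 l hl
      rw [← e1] at h5
      have h6 : (4 * Λ) ^ (i + 1) * T0 ≤ (4 * Λ) ^ l * T0 :=
        Nat.mul_le_mul_right _ (Nat.pow_le_pow_right (by omega) hil)
      omega
    intro i hi l hl e1
    rcases lt_trichotomy i l with h4 | h4 | h4
    · exact absurd e1 (key i hi l hl h4)
    · exact h4
    · exact absurd e1.symm (key l hl i hi h4)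

end Pool.Agent.K93.SO.BIG

namespace Pool.Agent.K93.SO

theorem t_BIG : S_BIG := BIG.big

end Pool.Agent.K93.SO
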