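import Pool.Agent.K93.SO.Stm

/-!
# The union bound for bad runs (project SO), adapted from `K93/SD/T_CNT.lean`
-/

set_option autoImplicit false

namespace Pool.Agent.K93.SO

namespace CNT

open Finset
open Pool.Agent.K93.SD (S_CRT)

/-- the type of a step: `⟨(n, t), (g, x)⟩` -/
abbrev Stp : Type := Σ (_ : ℕ × ℕ), ℕ × ℕ

/-- the weight bound with the constants `K`, `β` -/
def W0 (p K β : ℕ) : Prop := ∀ G μ j n P Q D Ts t' : ℕ, 2 ≤ n → n ≤ G → 1 ≤ j →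
  j < μ → μ ≤ 2 * G → (4 * G) ^ p ≤ Ts → 1 ≤ P → 1 ≤ Q → 1 ≤ D → 1 ≤ t' → Q * D ≤ P * Ts →
  8 * G * Ts * P ^ 2 ≤ Q ^ 2 * D ^ 2 →
  ∑ t ∈ Icc t' Ts, ∑ y ∈ Pr p μ j n P Q D t' t, (1 / (y.1 : ℝ)) ≤
    K * G * ((Q : ℝ) / P) * (1 + Real.log (8 * G * Ts)) ^ β

/-- the possible steps -/
noncomputable def Nn (p μ j G Ts D P Q t' : ℕ) : Finset Stp :=
  ((Icc 2 G) ×ˢ (Icc t' Ts)).sigma fun y => Pr p μ j y.1 P Q D t' y.2

/-- the possible next steps -/
noncomputable def Nx (p μ j G Y Ts D : ℕ) (x : Prop) [Decidable x] (t' : ℕ) : Finset Stp :=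
  if x then Nn p μ j G Ts D Y 1 t' else Nn p μ j G Ts D 1 G t'

/-- the congruence of a step -/
def one (y : Stp) (c : List (ℤ × ℕ)) : List (ℤ × ℕ) := ((y.1.1 : ℤ) + y.2.2, y.2.1) :: c

/-- there is a continuation of length `k` with the pattern `S` -/
def Cont (p μ j G H Y Ts D : ℕ) (S : Finset ℕ) (N : ℕ) : ℕ → List (ℤ × ℕ) → ℕ → Prop
  | 0, c, _ => c.Pairwise (fun p q => Nat.gcd p.2 q.2 ≤ H) ∧
      ∀ p ∈ c, (p.2 : ℤ) ∣ (N : ℤ) - p.1
  | k + 1, c, t' => ∃ y ∈ Nx p μ j G Y Ts D (k ∈ S) t',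
      Cont p μ j G H Y Ts D S N k (one y c) (y.1.2 + y.2.1)

lemma mem_Nn {p μ j G Ts D P Q t' : ℕ} {y : Stp} : y ∈ Nn p μ j G Ts D P Q t' ↔
    (2 ≤ y.1.1 ∧ y.1.1 ≤ G) ∧ (t' ≤ y.1.2 ∧ y.1.2 ≤ Ts) ∧
    y.2 ∈ Pr p μ j y.1.1 P Q D t' y.1.2 := by
  unfold Nn
  rw [Finset.mem_sigma, Finset.mem_product, Finset.mem_Icc, Finset.mem_Icc, and_assoc]

open Classical in
lemma mem_Pr {p μ j n P Q D t' t : ℕ} {x : ℕ × ℕ} : x ∈ Pr p μ j n P Q D t' t ↔
    (((1 ≤ x.1 ∧ x.1 ≤ UU p μ j n t) ∧ x.2 < UU p μ j n t) ∧ Adm p μ j n t x.1 x.2) ∧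
    D ≤ x.1 ∧ P * (t - t') ≤ Q * x.1 := by
  unfold Pr Ad
  rw [Finset.mem_filter, Finset.mem_filter, Finset.mem_product, Finset.mem_Icc, Finset.mem_range]

lemma Pr_pos {p μ j n P Q D t' t : ℕ} {x : ℕ × ℕ} (h : x ∈ Pr p μ j n P Q D t' t) : 0 < x.1 := by
  rw [mem_Pr] at h
  exact h.1.1.1.1

lemma UU_le {p μ j n t G Ts : ℕ} (hG : 1 ≤ G) (hn : n ≤ G) (hj : j < μ)
    (hμ : μ ≤ 2 * G) (hTs : (4 * G) ^ p ≤ Ts) (ht : t ≤ Ts) : UU p μ j n t ≤ (8 * G * Ts) ^ p := by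
  unfold UU
  apply Nat.pow_le_pow_left
  have h1 : (n + 1) ^ p ≤ Ts := (Nat.pow_le_pow_left (by omega) p).trans hTs
  have h2 : μ * t ≤ 2 * G * Ts := Nat.mul_le_mul hμ ht
  have h3 : j * (n + 1) ^ p ≤ 2 * G * Ts := Nat.mul_le_mul (by omega) h1
  have h4 : 1 ≤ Ts := le_trans (Nat.one_le_pow _ _ (by omega)) hTs
  have h5 : 2 * G ≤ 2 * G * Ts := Nat.le_mul_of_pos_right _ h4
  have h6 : 8 * G * Ts = 4 * (2 * G * Ts) := by ring
  omega

open Classical in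
lemma Pr_card {p μ j n P Q D t' t G Ts : ℕ} (hG : 1 ≤ G) (hn : n ≤ G) (hj : j < μ)
    (hμ : μ ≤ 2 * G) (hTs : (4 * G) ^ p ≤ Ts) (ht : t ≤ Ts) :
    (Pr p μ j n P Q D t' t).card ≤ ((8 * G * Ts) ^ p) ^ 2 := by
  unfold Pr Ad
  refine (Finset.card_filter_le _ _).trans ((Finset.card_filter_le _ _).trans ?_)
  rw [Finset.card_product, Nat.card_Icc, Nat.add_sub_cancel, Finset.card_range, sq]
  exact Nat.mul_le_mul (UU_le hG hn hj hμ hTs ht) (UU_le hG hn hj hμ hTs ht)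

lemma Nn_card {p μ j P Q D t' G Ts : ℕ} (hG : 1 ≤ G) (hj : j < μ)
    (hμ : μ ≤ 2 * G) (hTs : (4 * G) ^ p ≤ Ts) (ht : 1 ≤ t') :
    (Nn p μ j G Ts D P Q t').card ≤ G * Ts * ((8 * G * Ts) ^ p) ^ 2 := by
  unfold Nn
  rw [Finset.card_sigma]
  calc ∑ y ∈ (Icc 2 G) ×ˢ (Icc t' Ts), (Pr p μ j y.1 P Q D t' y.2).card
      ≤ ∑ _y ∈ (Icc 2 G) ×ˢ (Icc t' Ts), ((8 * G * Ts) ^ p) ^ 2 := by
        refine Finset.sum_le_sum fun y hy => ?_
        rw [Finset.mem_product, Finset.mem_Icc, Finset.mem_Icc] at hy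
        exact Pr_card hG hy.1.2 hj hμ hTs hy.2.2
    _ = ((Icc 2 G).card * (Icc t' Ts).card) * ((8 * G * Ts) ^ p) ^ 2 := by
        rw [Finset.sum_const, Finset.card_product, smul_eq_mul]
    _ ≤ _ := by
        refine Nat.mul_le_mul_right _ (Nat.mul_le_mul ?_ ?_)
        · rw [Nat.card_Icc]
          omega
        · rw [Nat.card_Icc]
          omega

lemma Nx_card {p μ j Y D t' G Ts : ℕ} {x : Prop} [Decidable x] (hG : 1 ≤ G) (hj : j < μ)
    (hμ : μ ≤ 2 * G) (hTs : (4 * G) ^ p ≤ Ts) (ht : 1 ≤ t') :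
    (Nx p μ j G Y Ts D x t').card ≤ G * Ts * ((8 * G * Ts) ^ p) ^ 2 := by
  unfold Nx
  split_ifs
  · exact Nn_card hG hj hμ hTs ht
  · exact Nn_card hG hj hμ hTs ht

lemma Nx_pos {p μ j Y D t' G Ts : ℕ} {x : Prop} [Decidable x] {y : Stp}
    (h : y ∈ Nx p μ j G Y Ts D x t') : 0 < y.2.1 := by
  unfold Nx at h
  split_ifs at h
  · exact Pr_pos (mem_Nn.1 h).2.2
  · exact Pr_pos (mem_Nn.1 h).2.2

/-- the weight of the possible steps -/
lemma Nn_weight {p K β : ℕ} (hW : W0 p K β) {μ j P Q D t' G Ts : ℕ} (hj1 : 1 ≤ j) (hj : j < μ)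
    (hμ : μ ≤ 2 * G) (hTs : (4 * G) ^ p ≤ Ts) (ht : 1 ≤ t') (hP : 1 ≤ P) (hQ : 1 ≤ Q) (hD : 1 ≤ D)
    (h1 : Q * D ≤ P * Ts) (h2 : 8 * G * Ts * P ^ 2 ≤ Q ^ 2 * D ^ 2)
    (h0 : 0 ≤ Real.log (8 * (G : ℝ) * Ts)) :
    ∑ y ∈ Nn p μ j G Ts D P Q t', (1 / (y.2.1 : ℝ)) ≤
      G * (K * G * ((Q : ℝ) / P) * (1 + Real.log (8 * G * Ts)) ^ β) := by
  unfold Nn
  rw [Finset.sum_sigma, Finset.sum_product]
  have hc : ((Icc 2 G).card : ℝ) ≤ G := by
    have : (Icc 2 G).card ≤ G := by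
      rw [Nat.card_Icc]
      omega
    exact_mod_cast this
  have h00 : (0 : ℝ) ≤ K * G * ((Q : ℝ) / P) * (1 + Real.log (8 * G * Ts)) ^ β := by
    have : (0 : ℝ) ≤ 1 + Real.log (8 * G * Ts) := by linarith
    positivity
  calc ∑ n ∈ Icc 2 G, ∑ t ∈ Icc t' Ts, ∑ x ∈ Pr p μ j n P Q D t' t, (1 / (x.1 : ℝ))
      ≤ ∑ _n ∈ Icc 2 G, (K * G * ((Q : ℝ) / P) * (1 + Real.log (8 * G * Ts)) ^ β) := by
        refine Finset.sum_le_sum fun n hn => ?_
        rw [Finset.mem_Icc] at hn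
        exact hW G μ j n P Q D Ts t' hn.1 hn.2 hj1 hj hμ hTs hP hQ hD ht h1 h2
    _ = ((Icc 2 G).card : ℝ) * (K * G * ((Q : ℝ) / P) * (1 + Real.log (8 * G * Ts)) ^ β) := by
        rw [Finset.sum_const, nsmul_eq_mul]
    _ ≤ _ := mul_le_mul_of_nonneg_right hc h00

/-- the weight of a step -/
noncomputable def QA (K β G Ts : ℕ) : ℝ := K * (G : ℝ) ^ 3 * (1 + Real.log (8 * G * Ts)) ^ β

/-- the number of the steps -/
noncomputable def Bc (p G Ts : ℕ) : ℝ := (G : ℝ) * Ts * ((8 * G * Ts) ^ p) ^ 2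

lemma log_nn {p G Ts : ℕ} (hG : 1 ≤ G) (hTs : (4 * G) ^ p ≤ Ts) :
    0 ≤ Real.log (8 * (G : ℝ) * Ts) := by
  apply Real.log_nonneg
  have h1 : (1 : ℝ) ≤ G := by exact_mod_cast hG
  have h2 : (1 : ℝ) ≤ Ts := by
    have : 1 ≤ Ts := le_trans (Nat.one_le_pow _ _ (by omega)) hTs
    exact_mod_cast this
  nlinarith [mul_le_mul h1 h2 zero_le_one (by linarith)]

lemma QA_one {p K β G Ts : ℕ} (hK : 1 ≤ K) (hG : 1 ≤ G) (hTs : (4 * G) ^ p ≤ Ts) : 1 ≤ QA K β G Ts := by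
  unfold QA
  have h0 : (1 : ℝ) ≤ K := by exact_mod_cast hK
  have h1 : (1 : ℝ) ≤ G := by exact_mod_cast hG
  have h2 : (1 : ℝ) ≤ (G : ℝ) ^ 3 := one_le_pow₀ h1
  have h3 : (1 : ℝ) ≤ (1 + Real.log (8 * (G : ℝ) * Ts)) ^ β :=
    one_le_pow₀ (by linarith [log_nn hG hTs])
  exact one_le_mul_of_one_le_of_one_le (one_le_mul_of_one_le_of_one_le h0 h2) h3

lemma Nx_weight {p K β : ℕ} (hW : W0 p K β) {μ j Y D t' G Ts : ℕ} {x : Prop} [Decidable x] (hG : 1 ≤ G)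
    (hj1 : 1 ≤ j) (hj : j < μ) (hμ : μ ≤ 2 * G) (hY : 2 ≤ Y) (hTs : (4 * G) ^ p ≤ Ts) (ht : 1 ≤ t') (hD : 1 ≤ D)
    (hGD : G * D ≤ Ts) (hTY : 8 * G * Ts * Y ^ 2 ≤ D ^ 2) :
    ∑ y ∈ Nx p μ j G Y Ts D x t', (1 / (y.2.1 : ℝ)) ≤
      if x then QA K β G Ts / Y else QA K β G Ts := by
  have hG' : (1 : ℝ) ≤ G := by exact_mod_cast hG
  have hY' : (2 : ℝ) ≤ Y := by exact_mod_cast hY
  have hl0 := log_nn hG hTs
  have hL : 0 ≤ (1 + Real.log (8 * (G : ℝ) * Ts)) ^ β :=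
    pow_nonneg (by linarith) _
  unfold Nx
  by_cases hx : x
  · simp only [hx, if_true]
    refine (Nn_weight hW hj1 hj hμ hTs ht (by omega) le_rfl hD ?_ ?_ hl0).trans ?_
    · have h1 : D ≤ G * D := Nat.le_mul_of_pos_left D hG
      have h2 : Ts ≤ Y * Ts := Nat.le_mul_of_pos_left Ts (by omega)
      omega
    · rw [one_pow, one_mul]
      exact hTY
    · unfold QA
      have h3 : (G : ℝ) * (K * G * (((1 : ℕ) : ℝ) / Y) * (1 + Real.log (8 * G * Ts)) ^ β) =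
          (G : ℝ) ^ 2 * (K * (1 + Real.log (8 * G * Ts)) ^ β / Y) := by
        push_cast
        ring
      have h4 : K * (G : ℝ) ^ 3 * (1 + Real.log (8 * G * Ts)) ^ β / Y =
          (G : ℝ) ^ 3 * (K * (1 + Real.log (8 * G * Ts)) ^ β / Y) := by ring
      rw [h3, h4]
      exact mul_le_mul_of_nonneg_right (pow_le_pow_right₀ hG' (by norm_num)) (by positivity)
  · simp only [hx, if_false]
    refine (Nn_weight hW hj1 hj hμ hTs ht le_rfl hG hD ?_ ?_ hl0).trans ?_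
    · omega
    · rw [one_pow, mul_one]
      have h1 : 8 * G * Ts ≤ 8 * G * Ts * Y ^ 2 := Nat.le_mul_of_pos_right _ (by positivity)
      have h2 : D ^ 2 ≤ G ^ 2 * D ^ 2 := Nat.le_mul_of_pos_left _ (by positivity)
      omega
    · unfold QA
      refine le_of_eq ?_
      push_cast
      ring

open Classical in
theorem claim (hC : S_CRT) {p K β : ℕ} (hK : 1 ≤ K) (hW : W0 p K β) (μ j G H Y Ts D b X : ℕ) (S : Finset ℕ)
    (hG : 1 ≤ G) (hH : 1 ≤ H) (hj1 : 1 ≤ j)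
    (hj : j < μ) (hμ : μ ≤ 2 * G) (hY : 2 ≤ Y) (hTs : (4 * G) ^ p ≤ Ts) (hD : 1 ≤ D)
    (hGD : G * D ≤ Ts) (hTY : 8 * G * Ts * Y ^ 2 ≤ D ^ 2) :
    ∀ (k : ℕ) (c : List (ℤ × ℕ)) (t' : ℕ), (∀ p ∈ c, 0 < p.2) → c.length + k ≤ 2 * b →
    1 ≤ t' →
    (((Icc 1 X).filter (fun N : ℕ => Cont p μ j G H Y Ts D S N k c t')).card : ℝ) ≤
      (X : ℝ) * (H : ℝ) ^ ((2 * b) ^ 2) / ((c.map Prod.snd).prod : ℕ) *
        (∏ i ∈ range k, (if i ∈ S then QA K β G Ts / Y else QA K β G Ts)) + (Bc p G Ts) ^ k := by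
  have hG' : (1 : ℝ) ≤ G := by exact_mod_cast hG
  have hH' : (1 : ℝ) ≤ H := by exact_mod_cast hH
  have hY' : (2 : ℝ) ≤ Y := by exact_mod_cast hY
  have hQ0 : 0 < QA K β G Ts := by linarith [QA_one (β := β) hK hG hTs]
  have hBc0 : 0 ≤ Bc p G Ts := by unfold Bc; positivity
  intro k
  induction k with
  | zero =>
    intro c t' h2 h3 _
    by_cases hp : c.Pairwise (fun p q => Nat.gcd p.2 q.2 ≤ H)
    · have h4 := hC H X c hH hp h2
      have h5 : (Icc 1 X).filter (fun N : ℕ => Cont p μ j G H Y Ts D S N 0 c t') =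
          (Icc 1 X).filter (fun N : ℕ => ∀ p ∈ c, (p.2 : ℤ) ∣ (N : ℤ) - p.1) := by
        ext N
        rw [Finset.mem_filter, Finset.mem_filter]
        refine and_congr_right fun _ => ?_
        exact ⟨fun h => h.2, fun h => ⟨hp, h⟩⟩
      have h6 : ((((Icc 1 X).filter (fun N : ℕ => Cont p μ j G H Y Ts D S N 0 c t')).card : ℕ) : ℝ) ≤
          (X : ℝ) * (H : ℝ) ^ (c.length ^ 2) / ((c.map Prod.snd).prod : ℕ) + 1 := by
        rw [h5]
        convert h4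
      refine h6.trans ?_
      rw [Finset.prod_range_zero, mul_one, pow_zero]
      have h7 : (H : ℝ) ^ (c.length ^ 2) ≤ (H : ℝ) ^ ((2 * b) ^ 2) :=
        pow_le_pow_right₀ hH' (Nat.pow_le_pow_left (by omega) 2)
      gcongr
    · have h5 : (Icc 1 X).filter (fun N : ℕ => Cont p μ j G H Y Ts D S N 0 c t') = ∅ := by
        ext N
        simp only [Finset.mem_filter, Finset.notMem_empty, iff_false, not_and]
        intro _ h
        exact hp h.1
      rw [h5, Finset.card_empty, Finset.prod_range_zero, pow_zero, Nat.cast_zero]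
      positivity
  | succ k ih =>
    intro c t' h2 h3 h4
    set W : ℝ := ∏ i ∈ range k, (if i ∈ S then QA K β G Ts / Y else QA K β G Ts) with hWd
    have hW0 : 0 ≤ W := Finset.prod_nonneg fun i _ => by split_ifs <;> positivity
    set Pc : ℝ := (((c.map Prod.snd).prod : ℕ) : ℝ) with hPc
    have hPc0 : 0 < Pc := by
      rw [hPc]
      have : 0 < (c.map Prod.snd).prod := by
        apply List.prod_pos
        intro a ha
        obtain ⟨p, hp, rfl⟩ := List.mem_map.1 ha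
        exact h2 p hp
      exact_mod_cast this
    set A : ℝ := (X : ℝ) * (H : ℝ) ^ ((2 * b) ^ 2) / Pc * W with hAd
    have hA0 : 0 ≤ A := by positivity
    set B : ℝ := (Bc p G Ts) ^ k with hBd
    have hB0 : 0 ≤ B := by positivity
    -- the union
    have hsub : (Icc 1 X).filter (fun N : ℕ => Cont p μ j G H Y Ts D S N (k + 1) c t') ⊆
        (Nx p μ j G Y Ts D (k ∈ S) t').biUnion fun y => (Icc 1 X).filter
          (fun N : ℕ => Cont p μ j G H Y Ts D S N k (one y c) (y.1.2 + y.2.1)) := by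
      intro N hN
      obtain ⟨hN1, y, hy, hb⟩ := Finset.mem_filter.1 hN
      rw [Finset.mem_biUnion]
      exact ⟨y, hy, Finset.mem_filter.2 ⟨hN1, hb⟩⟩
    have hone : ∀ y ∈ Nx p μ j G Y Ts D (k ∈ S) t',
        ((((Icc 1 X).filter (fun N : ℕ => Cont p μ j G H Y Ts D S N k (one y c)
          (y.1.2 + y.2.1))).card : ℕ) : ℝ) ≤ A * (1 / (y.2.1 : ℝ)) + B := by
      intro y hy
      have he := Nx_pos hy
      have h5 := ih (one y c) (y.1.2 + y.2.1)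
        (by
          intro p hp
          unfold one at hp
          rcases List.mem_cons.1 hp with rfl | hp
          · exact he
          · exact h2 p hp)
        (by
          unfold one
          simp only [List.length_cons]
          omega) (by omega)
      refine h5.trans (le_of_eq ?_)
      unfold one
      rw [List.map_cons, List.prod_cons, hAd, hPc]
      push_cast
      have he1 : (0 : ℝ) < (y.2.1 : ℝ) := by exact_mod_cast he
      field_simp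
    have hcard : ((((Icc 1 X).filter (fun N : ℕ => Cont p μ j G H Y Ts D S N (k + 1) c t')).card : ℕ) : ℝ)
        ≤ ∑ y ∈ Nx p μ j G Y Ts D (k ∈ S) t', (A * (1 / (y.2.1 : ℝ)) + B) := by
      calc ((((Icc 1 X).filter (fun N : ℕ => Cont p μ j G H Y Ts D S N (k + 1) c t')).card : ℕ) : ℝ)
          ≤ (((Nx p μ j G Y Ts D (k ∈ S) t').biUnion fun y => (Icc 1 X).filter
            (fun N : ℕ => Cont p μ j G H Y Ts D S N k (one y c) (y.1.2 + y.2.1))).card : ℝ) := by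
            exact_mod_cast Finset.card_le_card hsub
        _ ≤ ∑ y ∈ Nx p μ j G Y Ts D (k ∈ S) t', ((((Icc 1 X).filter (fun N : ℕ =>
            Cont p μ j G H Y Ts D S N k (one y c) (y.1.2 + y.2.1))).card : ℕ) : ℝ) := by
            exact_mod_cast Finset.card_biUnion_le
        _ ≤ _ := Finset.sum_le_sum fun y hy => hone y hy
    refine hcard.trans ?_
    rw [Finset.sum_add_distrib, ← Finset.mul_sum, Finset.sum_const, nsmul_eq_mul]
    have hwt := Nx_weight (x := (k ∈ S)) hW hG hj1 hj hμ hY hTs h4 hD hGD hTY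
    have hnc : ((Nx p μ j G Y Ts D (k ∈ S) t').card : ℝ) ≤ Bc p G Ts := by
      have := Nx_card (Y := Y) (D := D) (x := (k ∈ S)) hG hj hμ hTs h4
      unfold Bc
      exact_mod_cast this
    have e1 := mul_le_mul_of_nonneg_left hwt hA0
    have e2 := mul_le_mul_of_nonneg_right hnc hB0
    rw [Finset.prod_range_succ, pow_succ]
    calc A * ∑ y ∈ Nx p μ j G Y Ts D (k ∈ S) t', (1 / (y.2.1 : ℝ)) +
          ((Nx p μ j G Y Ts D (k ∈ S) t').card : ℝ) * B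
        ≤ A * (if k ∈ S then QA K β G Ts / Y else QA K β G Ts) + Bc p G Ts * B := by linarith
      _ = _ := by
          rw [hAd, hBd]
          ring

/-- the residue -/
lemma ex_res {p μ j n t g k : ℕ} (hR : S_RES) (hp : p.Prime) (h3 : 3 ≤ p) (hj1 : 1 ≤ j) (hj : j < μ) (hn : 2 ≤ n)
    (ht : 1 ≤ t) (hg : 1 ≤ g) (h1 : (g : ℤ) ∣ ((k : ℤ) - n) ^ p - 1)
    (h2 : (g : ℤ) ∣ (μ : ℤ) * t + j * ((k : ℤ) ^ p - 1)) :
    ∃ x : ℕ, (((1 ≤ g ∧ g ≤ UU p μ j n t) ∧ x < UU p μ j n t) ∧ Adm p μ j n t g x) ∧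
      (g : ℤ) ∣ (k : ℤ) - ((n : ℤ) + x) := by
  have hg0 : (0 : ℤ) < g := by exact_mod_cast hg
  obtain ⟨x, hx⟩ : ∃ x : ℕ, (x : ℤ) = ((k : ℤ) - n) % g :=
    ⟨(((k : ℤ) - n) % g).toNat, Int.toNat_of_nonneg (Int.emod_nonneg _ hg0.ne')⟩
  have hxg : x < g := by
    have := Int.emod_lt_of_pos ((k : ℤ) - n) hg0
    rw [← hx] at this
    exact_mod_cast this
  have hd : (g : ℤ) ∣ (k : ℤ) - ((n : ℤ) + x) := by
    have h := Int.dvd_self_sub_emod (x := (k : ℤ) - n) (m := (g : ℤ))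
    rw [← hx] at h
    have e : (k : ℤ) - ((n : ℤ) + x) = (k : ℤ) - n - x := by ring
    rw [e]
    exact h
  have hd' : (g : ℤ) ∣ ((k : ℤ) - n) - x := by
    have e : (k : ℤ) - n - x = (k : ℤ) - ((n : ℤ) + x) := by ring
    rw [e]
    exact hd
  have a1 : (g : ℤ) ∣ (x : ℤ) ^ p - 1 := by
    have e : (x : ℤ) ^ p - 1 = (((k : ℤ) - n) ^ p - 1) - (((k : ℤ) - n) ^ p - (x : ℤ) ^ p) := by ring
    rw [e]
    exact dvd_sub h1 (hd'.trans (sub_dvd_pow_sub_pow _ _ p))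
  have a2 : (g : ℤ) ∣ (μ : ℤ) * t + j * (((x : ℤ) + n) ^ p - 1) := by
    have hd2 : (g : ℤ) ∣ (k : ℤ) - ((x : ℤ) + n) := by
      rw [add_comm (x : ℤ) n]
      exact hd
    have e : (μ : ℤ) * t + j * (((x : ℤ) + n) ^ p - 1) =
        ((μ : ℤ) * t + j * ((k : ℤ) ^ p - 1)) - j * ((k : ℤ) ^ p - ((x : ℤ) + n) ^ p) := by ring
    rw [e]
    exact dvd_sub h2 (Dvd.dvd.mul_left (hd2.trans (sub_dvd_pow_sub_pow _ _ p)) _)
  have hμt : (j : ℤ) + 1 ≤ (μ : ℤ) * t := by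
    have h4 : j + 1 ≤ μ * t := le_trans hj (Nat.le_mul_of_pos_right μ ht)
    exact_mod_cast h4
  have hj0 : (1 : ℤ) ≤ j := by exact_mod_cast hj1
  have hpw : (1 : ℤ) ≤ ((n : ℤ) + 1) ^ p := one_le_pow₀ (by omega)
  have hU : g ≤ UU p μ j n t := by
    have h5 := hR p hp h3 n j g ((μ : ℤ) * t - j) x (by omega) hj1 (by nlinarith) (by omega) a1 (by
      have e : (μ : ℤ) * t - j + j * ((x : ℤ) + n) ^ p = (μ : ℤ) * t + j * (((x : ℤ) + n) ^ p - 1) := by ring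
      rw [e]
      exact a2)
    rw [abs_of_nonneg (by linarith)] at h5
    have h6 : ((μ : ℤ) * t - j + j * ((n : ℤ) + 1) ^ p) ^ p ≤ ((UU p μ j n t : ℕ) : ℤ) := by
      unfold UU
      push_cast
      refine pow_le_pow_left₀ (by nlinarith) ?_ p
      linarith
    exact_mod_cast h5.trans h6
  exact ⟨x, ⟨⟨⟨hg, hU⟩, lt_of_lt_of_le hxg hU⟩, ⟨hg, hxg, a1, a2⟩⟩, hd⟩

/-- a bad run gives a continuation -/
theorem run_Cont {p μ j G H Y Ts D r N : ℕ} {S : Finset ℕ} {n t g x : ℕ → ℕ}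
    (h1 : ∀ i, i < r → 2 ≤ n i ∧ n i ≤ G ∧ t i ≤ Ts ∧ D ≤ g i ∧
      (((1 ≤ g i ∧ g i ≤ UU p μ j (n i) (t i)) ∧ x i < UU p μ j (n i) (t i)) ∧
        Adm p μ j (n i) (t i) (g i) (x i)) ∧ (g i : ℤ) ∣ (N : ℤ) - ((n i : ℤ) + x i))
    (hg : ∀ i i', i < i' → i' < r → Nat.gcd (g i) (g i') ≤ H)
    (h2 : ∀ i, i + 1 < r → n i < n (i + 1) ∧ t i + g i ≤ t (i + 1) ∧
      t (i + 1) ≤ t i + g i + G * g (i + 1))
    (hS : ∀ i k, i + k + 2 = r → k ∈ S → Y * (t (i + 1) - (t i + g i)) < g (i + 1)) :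
    ∀ (k i : ℕ) (c : List (ℤ × ℕ)), i + k + 1 = r →
      (∀ p ∈ c, ∃ i', i' ≤ i ∧ p.2 = g i') →
      c.Pairwise (fun p q => Nat.gcd p.2 q.2 ≤ H) →
      (∀ p ∈ c, (p.2 : ℤ) ∣ (N : ℤ) - p.1) →
      Cont p μ j G H Y Ts D S N k c (t i + g i) := by
  intro k
  induction k with
  | zero => intro i c _ _ h h'; exact ⟨h, h'⟩
  | succ k ih =>
    intro i c hi hc1 hc2 hc3
    obtain ⟨a1, a2, a4, a7, a8, a10⟩ := h1 (i + 1) (by omega)
    obtain ⟨b1, b2, b3⟩ := h2 i (by omega)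
    refine ⟨⟨(n (i + 1), t (i + 1)), (g (i + 1), x (i + 1))⟩, ?_, ?_⟩
    · unfold Nx
      split_ifs with hk
      · rw [mem_Nn, mem_Pr]
        refine ⟨⟨a1, a2⟩, ⟨b2, a4⟩, a8, a7, ?_⟩
        have := hS i k (by omega) hk
        show Y * (t (i + 1) - (t i + g i)) ≤ 1 * g (i + 1)
        omega
      · rw [mem_Nn, mem_Pr]
        refine ⟨⟨a1, a2⟩, ⟨b2, a4⟩, a8, a7, ?_⟩
        show 1 * (t (i + 1) - (t i + g i)) ≤ G * g (i + 1)
        omega
    · refine ih (i + 1) _ (by omega) ?_ ?_ ?_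
      · intro p hp
        unfold one at hp
        rcases List.mem_cons.1 hp with rfl | hp
        · exact ⟨i + 1, le_rfl, rfl⟩
        · obtain ⟨i', h, h'⟩ := hc1 p hp
          exact ⟨i', by omega, h'⟩
      · unfold one
        rw [List.pairwise_cons]
        refine ⟨?_, hc2⟩
        intro p hp
        obtain ⟨i', h, h'⟩ := hc1 p hp
        show Nat.gcd (g (i + 1)) p.2 ≤ H
        rw [h', Nat.gcd_comm]
        exact hg i' (i + 1) (by omega) (by omega)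
      · intro p hp
        unfold one at hp
        rcases List.mem_cons.1 hp with rfl | hp
        · exact a10
        · exact hc3 p hp

end CNT

open Finset CNT
open Pool.Agent.K93.SD (S_CRT)

open Classical in
theorem t_CNT (hR : S_RES) (hC : S_CRT) (hW : S_WT) : S_CNT := by
  intro p hp h3p
  obtain ⟨K, β, hK, hW⟩ := hW p hp h3p
  refine ⟨K, β, hK, ?_⟩
  intro μ j G Y T0 Ts D b X hG hj1 hj hμ hY hT0 hTs hD hb hGD hTY
  have hW : W0 p K β := hW
  have hG' : (1 : ℝ) ≤ G := by exact_mod_cast hG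
  have hY' : (2 : ℝ) ≤ Y := by exact_mod_cast hY
  have hQ1 : 1 ≤ QA K β G Ts := QA_one hK hG hTs
  have hQ0 : 0 < QA K β G Ts := by linarith
  have hBc0 : 0 ≤ Bc p G Ts := by unfold Bc; positivity
  obtain ⟨H, hHd⟩ : ∃ H : ℕ, H = (4 * G) ^ (p ^ 2) := ⟨_, rfl⟩
  have hH : 1 ≤ H := by
    rw [hHd]
    exact Nat.one_le_pow _ _ (by omega)
  have hH' : (1 : ℝ) ≤ H := by exact_mod_cast hH
  rw [← hHd]
  have hHr : ((4 * G : ℝ) ^ (p ^ 2)) = (H : ℝ) := by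
    rw [hHd]
    push_cast
    rfl
  rw [hHr]
  set PP : Finset (Finset ℕ) := ((range (2 * b - 1)).powerset).filter (fun S => b ≤ S.card) with hPP
  have hsub : (Icc 1 X).filter (fun N : ℕ => BadRun p μ j G H Y T0 Ts D (2 * b) N) ⊆
      PP.biUnion fun S => (Nn p μ j G Ts D 0 0 1).biUnion fun y => (Icc 1 X).filter
        (fun N : ℕ => Cont p μ j G H Y Ts D S N (2 * b - 1) (one y []) (y.1.2 + y.2.1)) := by
    intro N hN
    obtain ⟨hN1, n, t, g, h1, hg, h2, h3⟩ := Finset.mem_filter.1 hN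
    have hx : ∀ i, ∃ x : ℕ, i < 2 * b → ((((1 ≤ g i ∧ g i ≤ UU p μ j (n i) (t i)) ∧ x < UU p μ j (n i) (t i)) ∧
        Adm p μ j (n i) (t i) (g i) x) ∧ (g i : ℤ) ∣ (N : ℤ) - ((n i : ℤ) + x)) := by
      intro i
      by_cases hi : i < 2 * b
      · obtain ⟨a1, a2, a3, a4, a5, a6, a7, a8⟩ := h1 i hi
        obtain ⟨x, hx⟩ := ex_res hR hp h3p hj1 hj a1 (by omega) a5 a7 a8
        exact ⟨x, fun _ => hx⟩
      · exact ⟨0, fun h => absurd h hi⟩
    choose x hx using hx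
    set S : Finset ℕ := (range (2 * b - 1)).filter (fun k =>
      Y * (t (2 * b - 1 - 1 - k + 1) - (t (2 * b - 1 - 1 - k) + g (2 * b - 1 - 1 - k))) <
        g (2 * b - 1 - 1 - k + 1)) with hS
    have hSc : b ≤ S.card := by
      have e1 : S.card = ((range (2 * b - 1)).filter
          (fun i => Y * (t (i + 1) - (t i + g i)) < g (i + 1))).card := by
        rw [hS, Finset.card_filter, Finset.card_filter]
        exact Finset.sum_range_reflect (fun i => if Y * (t (i + 1) - (t i + g i)) <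
          g (i + 1) then 1 else 0) (2 * b - 1)
      have e2 : 2 * b ≤ 2 * ((range (2 * b - 1)).filter
          (fun i => Y * (t (i + 1) - (t i + g i)) < g (i + 1))).card := by
        convert h3
      omega
    rw [Finset.mem_biUnion]
    refine ⟨S, Finset.mem_filter.2 ⟨Finset.mem_powerset.2 (Finset.filter_subset _ _), hSc⟩, ?_⟩
    have h1' : ∀ i, i < 2 * b → 2 ≤ n i ∧ n i ≤ G ∧ t i ≤ Ts ∧ D ≤ g i ∧
      (((1 ≤ g i ∧ g i ≤ UU p μ j (n i) (t i)) ∧ x i < UU p μ j (n i) (t i)) ∧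
        Adm p μ j (n i) (t i) (g i) (x i)) ∧ (g i : ℤ) ∣ (N : ℤ) - ((n i : ℤ) + x i) := by
      intro i hi
      obtain ⟨a1, a2, a3, a4, a5, a6, a7, a8⟩ := h1 i hi
      exact ⟨a1, a2, a4, a6, (hx i hi).1, (hx i hi).2⟩
    obtain ⟨a1, a2, a4, a7, a8, a10⟩ := h1' 0 (by omega)
    have a3 := (h1 0 (by omega)).2.2.1
    rw [Finset.mem_biUnion]
    refine ⟨⟨(n 0, t 0), (g 0, x 0)⟩, ?_, Finset.mem_filter.2 ⟨hN1, ?_⟩⟩
    · rw [mem_Nn, mem_Pr]
      refine ⟨⟨a1, a2⟩, ⟨by show 1 ≤ t 0; omega, a4⟩, a8, a7, ?_⟩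
      rw [zero_mul, zero_mul]
    refine run_Cont h1' hg h2 ?_ (2 * b - 1) 0 _ (by omega) ?_ ?_ ?_
    · intro i k hik hk
      have := (Finset.mem_filter.1 hk).2
      have e : 2 * b - 1 - 1 - k = i := by omega
      rw [e] at this
      exact this
    · intro p hp
      unfold one at hp
      rw [List.mem_singleton] at hp
      subst hp
      exact ⟨0, le_rfl, rfl⟩
    · unfold one
      exact List.pairwise_singleton _ _
    · intro p hp
      unfold one at hp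
      rw [List.mem_singleton] at hp
      subst hp
      exact a10
  set Z : ℝ := (X : ℝ) * (H : ℝ) ^ ((2 * b) ^ 2) * (QA K β G Ts) ^ (2 * b) / (Y : ℝ) ^ b +
    (Bc p G Ts) ^ (2 * b - 1) with hZ
  have hZ0 : 0 ≤ Z := by positivity
  have hone : ∀ S ∈ PP, ∀ y ∈ Nn p μ j G Ts D 0 0 1,
      ((((Icc 1 X).filter (fun N : ℕ => Cont p μ j G H Y Ts D S N (2 * b - 1) (one y [])
        (y.1.2 + y.2.1))).card : ℕ) : ℝ) ≤ Z := by
    intro S hS y hy
    rw [hPP, Finset.mem_filter, Finset.mem_powerset] at hS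
    have he := Pr_pos (mem_Nn.1 hy).2.2
    have h1 := claim hC hK hW μ j G H Y Ts D b X S hG hH hj1 hj hμ hY hTs hD hGD hTY (2 * b - 1) (one y [])
      (y.1.2 + y.2.1) (by
        intro p hp
        unfold one at hp
        rw [List.mem_singleton] at hp
        subst hp
        exact he) (by
            unfold one
            simp only [List.length_cons, List.length_nil]
            omega) (by omega)
    refine h1.trans ?_
    rw [hZ]
    have h2 : ∏ i ∈ range (2 * b - 1), (if i ∈ S then QA K β G Ts / Y else QA K β G Ts) ≤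
        (QA K β G Ts) ^ (2 * b) / (Y : ℝ) ^ b := by
      have e1 : ∏ i ∈ range (2 * b - 1), (if i ∈ S then QA K β G Ts / Y else QA K β G Ts) =
          ∏ i ∈ range (2 * b - 1), (QA K β G Ts * (if i ∈ S then (1 / (Y : ℝ)) else 1)) := by
        refine Finset.prod_congr rfl fun i _ => ?_
        split_ifs
        · ring
        · ring
      have e2 : ∏ i ∈ range (2 * b - 1), (if i ∈ S then (1 / (Y : ℝ)) else 1) =
          (1 / (Y : ℝ)) ^ S.card := by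
        rw [Finset.prod_ite_mem, Finset.inter_eq_right.2 hS.1, Finset.prod_const]
      rw [e1, Finset.prod_mul_distrib, Finset.prod_const, Finset.card_range, e2]
      have e3 : (QA K β G Ts) ^ (2 * b - 1) ≤ (QA K β G Ts) ^ (2 * b) := pow_le_pow_right₀ hQ1 (by omega)
      have e4 : (1 / (Y : ℝ)) ^ S.card ≤ (1 / (Y : ℝ)) ^ b :=
        pow_le_pow_of_le_one (by positivity) (by rw [div_le_one (by linarith)]; linarith) hS.2
      calc (QA K β G Ts) ^ (2 * b - 1) * (1 / (Y : ℝ)) ^ S.card ≤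
          (QA K β G Ts) ^ (2 * b) * (1 / (Y : ℝ)) ^ b :=
            mul_le_mul e3 e4 (by positivity) (by positivity)
        _ = _ := by rw [one_div, inv_pow, div_eq_mul_inv]
    have h3 : (X : ℝ) * (H : ℝ) ^ ((2 * b) ^ 2) /
        (((one y []).map Prod.snd).prod : ℕ) ≤ (X : ℝ) * (H : ℝ) ^ ((2 * b) ^ 2) := by
      apply div_le_self (by positivity)
      unfold one
      simp only [List.map_cons, List.map_nil, List.prod_cons, List.prod_nil, mul_one]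
      exact_mod_cast he
    have h4 := mul_le_mul h3 h2 (Finset.prod_nonneg fun i _ => by split_ifs <;> positivity)
      (by positivity)
    have h5 : (X : ℝ) * (H : ℝ) ^ ((2 * b) ^ 2) * ((QA K β G Ts) ^ (2 * b) / (Y : ℝ) ^ b) =
        (X : ℝ) * (H : ℝ) ^ ((2 * b) ^ 2) * (QA K β G Ts) ^ (2 * b) / (Y : ℝ) ^ b := by ring
    linarith
  have hPPc : (PP.card : ℝ) ≤ 4 ^ b := by
    have h1 : PP.card ≤ 2 ^ (2 * b - 1) := by
      refine (Finset.card_filter_le _ _).trans ?_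
      rw [Finset.card_powerset, Finset.card_range]
    have h2 : 2 ^ (2 * b - 1) ≤ 4 ^ b := by
      calc 2 ^ (2 * b - 1) ≤ 2 ^ (2 * b) := Nat.pow_le_pow_right (by norm_num) (by omega)
        _ = 4 ^ b := by rw [pow_mul]; norm_num
    exact_mod_cast h1.trans h2
  have hnc : ((Nn p μ j G Ts D 0 0 1).card : ℝ) ≤ Bc p G Ts := by
    have := Nn_card (P := 0) (Q := 0) (D := D) (t' := 1) hG hj hμ hTs le_rfl
    unfold Bc
    exact_mod_cast this
  have hmain : ((((Icc 1 X).filter (fun N : ℕ => BadRun p μ j G H Y T0 Ts D (2 * b) N)).card : ℕ) : ℝ) ≤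
      4 ^ b * (Bc p G Ts * Z) := by
    calc ((((Icc 1 X).filter (fun N : ℕ => BadRun p μ j G H Y T0 Ts D (2 * b) N)).card : ℕ) : ℝ)
        ≤ ((PP.biUnion fun S => (Nn p μ j G Ts D 0 0 1).biUnion fun y => (Icc 1 X).filter
          (fun N : ℕ => Cont p μ j G H Y Ts D S N (2 * b - 1) (one y [])
            (y.1.2 + y.2.1))).card : ℝ) := by
          exact_mod_cast Finset.card_le_card hsub
      _ ≤ ∑ S ∈ PP, (((Nn p μ j G Ts D 0 0 1).biUnion fun y => (Icc 1 X).filter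
          (fun N : ℕ => Cont p μ j G H Y Ts D S N (2 * b - 1) (one y [])
            (y.1.2 + y.2.1))).card : ℝ) := by
          exact_mod_cast Finset.card_biUnion_le
      _ ≤ ∑ S ∈ PP, (Bc p G Ts * Z) := by
          refine Finset.sum_le_sum fun S hS => ?_
          calc (((Nn p μ j G Ts D 0 0 1).biUnion fun y => (Icc 1 X).filter
              (fun N : ℕ => Cont p μ j G H Y Ts D S N (2 * b - 1) (one y [])
                (y.1.2 + y.2.1))).card : ℝ)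
              ≤ ∑ y ∈ Nn p μ j G Ts D 0 0 1, ((((Icc 1 X).filter
              (fun N : ℕ => Cont p μ j G H Y Ts D S N (2 * b - 1) (one y [])
                (y.1.2 + y.2.1))).card : ℕ) : ℝ) := by
                exact_mod_cast Finset.card_biUnion_le
            _ ≤ ∑ _y ∈ Nn p μ j G Ts D 0 0 1, Z := Finset.sum_le_sum fun y hy => hone S hS y hy
            _ = ((Nn p μ j G Ts D 0 0 1).card : ℝ) * Z := by rw [Finset.sum_const, nsmul_eq_mul]
            _ ≤ Bc p G Ts * Z := mul_le_mul_of_nonneg_right hnc hZ0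
      _ = (PP.card : ℝ) * (Bc p G Ts * Z) := by
          rw [Finset.sum_const, nsmul_eq_mul]
      _ ≤ 4 ^ b * (Bc p G Ts * Z) :=
          mul_le_mul_of_nonneg_right hPPc (by positivity)
  refine hmain.trans (le_of_eq ?_)
  have hpw : (Bc p G Ts) ^ (2 * b) = (Bc p G Ts) ^ (2 * b - 1) * Bc p G Ts := by
    rw [← pow_succ]
    congr 1
    omega
  have e1 : ((G : ℝ) * Ts * ((8 * G * Ts) ^ p) ^ 2) = Bc p G Ts := rfl
  have e2 : (K * (G : ℝ) ^ 3 * (1 + Real.log (8 * G * Ts)) ^ β) = QA K β G Ts := rfl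
  rw [e1, e2, hpw, hZ]
  ring

end Pool.Agent.K93.SO
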