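import Pool.Agent.K93.SO.Stm

/-! (EXC) the exceptional set, odd `p` (helper5, after helper54's file `SD/T_EXC.lean`). -/

set_option autoImplicit false

namespace Pool.Agent.K93.SO

open Finset
open Pool.Agent.K93.SD (tau em La S_CRT)

namespace EXC

theorem p2 {a b : ℕ} (h : a ≤ b) : 2 ^ a ≤ 2 ^ b := Nat.pow_le_pow_right (by norm_num) h

theorem uu_ge (p h : ℕ) (hp : 3 ≤ p) (hh : 1 ≤ h) : 100000 * (p * p * h) ≤ uu p h := by
  unfold uu
  have h1 : p ^ 2 ≤ p ^ 4 := Nat.pow_le_pow_right (by omega) (by norm_num)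
  have h2 : h ≤ h ^ 2 := by nlinarith
  calc 100000 * (p * p * h) = 100000 * p ^ 2 * h := by ring
    _ ≤ 100000 * p ^ 4 * h ^ 2 := Nat.mul_le_mul (Nat.mul_le_mul_left _ h1) h2

theorem qs (p h : ℕ) (hp : 3 ≤ p) (hh : 1 ≤ h) :
    h ≤ p * p * h ∧ p ≤ p * p * h ∧ p * p ≤ p * p * h ∧ p * h ≤ p * p * h ∧ 1 ≤ p * p * h := by
  have hpp : 1 ≤ p * p := Nat.mul_pos (by omega) (by omega)
  have h1 : h ≤ p * p * h := Nat.le_mul_of_pos_left _ hpp
  have h2 : p * p ≤ p * p * h := Nat.le_mul_of_pos_right _ hh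
  have h3 : p ≤ p * p := Nat.le_mul_of_pos_left _ (by omega)
  have h4 : p * h ≤ p * p * h := Nat.mul_le_mul_right _ h3
  exact ⟨h1, h3.trans h2, h2, h4, hh.trans h1⟩

theorem walk_mono {p k μ j R R' : ℕ} {T g : ℕ → ℕ} (hR : R' ≤ R) (h : Walk p k μ j R T g) :
    Walk p k μ j R' T g where
  start := h.start
  first := fun h1 => h.first (h1.trans hR)
  gpos := fun n h1 h2 => h.gpos n h1 (h2.trans hR)
  step := fun n h1 h2 => h.step n h1 (h2.trans hR)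
  gV := fun n h1 h2 => h.gV n h1 (h2.trans hR)
  gT := fun n h1 h2 => h.gT n h1 (h2.trans hR)

/-- the levels are at most `Ts` -/
theorem lev (p h m : ℕ) (hp : 3 ≤ p) (hh : 1 ≤ h) (hm : m ≤ 64 * p * em h) :
    (4 * La h) ^ m * Tz p h ≤ Ts p h := by
  have hu := uu_ge p h hp hh
  obtain ⟨q1, q2, q3, q4, q5⟩ := qs p h hp hh
  have e1 : 4 * La h = 2 ^ (20 * h + 2) := by
    unfold La
    rw [pow_add]
    ring
  rw [e1, ← pow_mul]
  unfold Tz Ts
  rw [← pow_add]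
  apply p2
  have h1 : (20 * h + 2) * m ≤ (20 * h + 2) * (64 * p * em h) := Nat.mul_le_mul_left _ hm
  have h2 : (20 * h + 2) * (64 * p) ≤ 2 * uu p h := by
    have e : (20 * h + 2) * (64 * p) = 1280 * (p * h) + 128 * p := by ring
    rw [e]
    omega
  calc (20 * h + 2) * m + 6 * em h * uu p h ≤ (20 * h + 2) * (64 * p * em h) + 6 * em h * uu p h := by
        omega
    _ = ((20 * h + 2) * (64 * p)) * em h + 6 * em h * uu p h := by ring
    _ ≤ (2 * uu p h) * em h + 6 * em h * uu p h := by gcongr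
    _ = 8 * em h * uu p h := by ring

/-- small powers of two are less than `Tz` -/
theorem Tz_gt (p h a : ℕ) (hp : 3 ≤ p) (hh : 1 ≤ h) (ha : a < 100000 * (p * p * h)) : 2 ^ a < Tz p h := by
  have hu := uu_ge p h hp hh
  unfold Tz
  apply Nat.pow_lt_pow_right (by norm_num)
  have h1 : 1 ≤ 6 * em h := by unfold Pool.Agent.K93.SD.em; omega
  have h2 : uu p h ≤ 6 * em h * uu p h := Nat.le_mul_of_pos_left _ h1
  omega

theorem Tz_le_Ts (p h : ℕ) : Tz p h ≤ Ts p h := by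
  unfold Tz Ts
  apply p2
  gcongr
  norm_num

open Classical in
/-- the exceptional set -/
noncomputable def E (p h X : ℕ) : Finset ℕ :=
  (Icc 1 (2 * 2 ^ h) ×ˢ range (2 * 2 ^ h)).biUnion fun c => if 1 ≤ c.2 ∧ c.2 < c.1 then
    ((Icc 2 (2 ^ h) ×ˢ range (64 * p * em h)).biUnion fun q =>
      (Icc 1 X).filter fun k => Leap p c.1 c.2 q.1 ((4 * La h) ^ q.2 * Tz p h) (La h) k) ∪
    ((range (6 * h)).biUnion fun i =>
      (Icc 1 X).filter fun k => BadRun p c.1 c.2 (2 ^ h) ((4 * 2 ^ h) ^ (p ^ 2)) (Yy p h) (Tz p h) (Ts p h)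
        (Dk p h i) (2 * (32 * p * em h)) k) else ∅

/-- the bound of LEAP for the prime `p` -/
def LB (p K β : ℕ) : Prop := open Classical in ∀ G μ j n B Λ X : ℕ, 2 ≤ n → n ≤ G → 1 ≤ j →
  j < μ → μ ≤ 2 * G → (8 * G) ^ p ≤ B → 1 ≤ Λ →
  (((Icc 1 X).filter (fun k : ℕ => Leap p μ j n B Λ k)).card : ℝ) ≤
    K * G * ((X : ℝ) / Λ + B) * (1 + Real.log (8 * G * B)) ^ β

/-- the bound of CNT for the prime `p` -/
def CB (p K β : ℕ) : Prop := open Classical in ∀ (μ j G Y T0 Ts D b X : ℕ), 1 ≤ G → 1 ≤ j →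
  j < μ → μ ≤ 2 * G → 2 ≤ Y → 1 ≤ T0 → (4 * G) ^ p ≤ Ts → 1 ≤ D → 1 ≤ b → G * D ≤ Ts → 8 * G * Ts * Y ^ 2 ≤ D ^ 2 →
  (((Icc 1 X).filter (fun k : ℕ => BadRun p μ j G ((4 * G) ^ (p ^ 2)) Y T0 Ts D (2 * b) k)).card : ℝ) ≤
    4 ^ b * ((X : ℝ) * ((4 * G : ℝ) ^ (p ^ 2)) ^ ((2 * b) ^ 2) * (G * Ts * ((8 * G * Ts) ^ p) ^ 2) *
      (K * (G : ℝ) ^ 3 * (1 + Real.log (8 * G * Ts)) ^ β) ^ (2 * b) / (Y : ℝ) ^ b +
      (G * Ts * ((8 * G * Ts) ^ p) ^ 2) ^ (2 * b))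

theorem log_nn (p h : ℕ) : 0 ≤ Real.log (8 * 2 ^ h * (Ts p h : ℝ)) := by
  have hTs1 : (1 : ℝ) ≤ Ts p h := by exact_mod_cast (Nat.one_le_two_pow : 1 ≤ Ts p h)
  have h2h : (1 : ℝ) ≤ 2 ^ h := one_le_pow₀ (by norm_num)
  apply Real.log_nonneg
  nlinarith [mul_le_mul h2h hTs1 (by norm_num) (by positivity)]

open Classical in
theorem leap_card (p K β K' β' : ℕ) (hp : 3 ≤ p) (hL : LB p K β) (hK : K ≤ K') (hβ : β ≤ β')
    (h X μ j n m : ℕ) (hh : 1 ≤ h) (hn : 2 ≤ n) (hn2 : n ≤ 2 ^ h)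
    (hj1 : 1 ≤ j) (hj : j < μ) (hμ : μ ≤ 2 * 2 ^ h) (hm : m < 64 * p * em h) :
    (((Icc 1 X).filter fun k => Leap p μ j n ((4 * La h) ^ m * Tz p h) (La h) k).card : ℝ) ≤
      K' * 2 ^ h * ((X : ℝ) / La h + Ts p h) * (1 + Real.log (8 * 2 ^ h * Ts p h)) ^ β' := by
  have hB := lev p h m hp hh hm.le
  obtain ⟨q1, q2, q3, q4, q5⟩ := qs p h hp hh
  have hLa : 1 ≤ La h := Nat.one_le_two_pow
  have h4 : 1 ≤ (4 * La h) ^ m := Nat.one_le_pow _ _ (by omega)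
  have hBz : Tz p h ≤ (4 * La h) ^ m * Tz p h := Nat.le_mul_of_pos_left _ h4
  have h8 : (8 * 2 ^ h) ^ p ≤ (4 * La h) ^ m * Tz p h := by
    have e : (8 * 2 ^ h) ^ p = 2 ^ ((3 + h) * p) := by rw [pow_mul, pow_add]; norm_num
    rw [e]
    refine (Tz_gt p h ((3 + h) * p) hp hh ?_).le.trans hBz
    have e3 : (3 + h) * p = 3 * p + p * h := by ring
    rw [e3]
    omega
  have key := hL (2 ^ h) μ j n ((4 * La h) ^ m * Tz p h) (La h) X hn hn2 hj1 hj hμ h8 hLa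
  set B := (4 * La h) ^ m * Tz p h with hBd
  refine key.trans ?_
  have hB1 : 1 ≤ B := (Nat.one_le_two_pow : 1 ≤ Tz p h).trans hBz
  have hBR : (1 : ℝ) ≤ B := by exact_mod_cast hB1
  have hBT : (B : ℝ) ≤ Ts p h := by exact_mod_cast hB
  have h2h : (1 : ℝ) ≤ 2 ^ h := one_le_pow₀ (by norm_num)
  have hlog0 : 0 ≤ Real.log (8 * ((2 ^ h : ℕ) : ℝ) * (B : ℝ)) := by
    apply Real.log_nonneg
    push_cast
    nlinarith [mul_le_mul h2h hBR (by norm_num) (by positivity)]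
  have hlog1 : Real.log (8 * ((2 ^ h : ℕ) : ℝ) * (B : ℝ)) ≤ Real.log (8 * 2 ^ h * Ts p h) := by
    apply Real.log_le_log
    · positivity
    · push_cast
      gcongr
  have hLaR : (0 : ℝ) < La h := by exact_mod_cast hLa
  have hp1 : (1 + Real.log (8 * ((2 ^ h : ℕ) : ℝ) * (B : ℝ))) ^ β ≤
      (1 + Real.log (8 * 2 ^ h * Ts p h)) ^ β' := by
    have a1 : (1 + Real.log (8 * ((2 ^ h : ℕ) : ℝ) * (B : ℝ))) ^ β ≤
      (1 + Real.log (8 * 2 ^ h * Ts p h)) ^ β := by gcongr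
    exact a1.trans (pow_le_pow_right₀ (by linarith [log_nn p h]) hβ)
  have hp0 : 0 ≤ (1 + Real.log (8 * ((2 ^ h : ℕ) : ℝ) * (B : ℝ))) ^ β := by positivity
  have hKR : (K : ℝ) ≤ K' := by exact_mod_cast hK
  have hc : ((2 ^ h : ℕ) : ℝ) = 2 ^ h := by push_cast; rfl
  have hfirst : (K : ℝ) * ((2 ^ h : ℕ) : ℝ) * ((X : ℝ) / La h + B) ≤
      K' * 2 ^ h * ((X : ℝ) / La h + Ts p h) := by
    rw [hc]
    gcongr
  exact mul_le_mul hfirst hp1 hp0 (by positivity)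

theorem mono1 {X P Q Y R a b : ℝ} (n m : ℕ) (hX : 0 ≤ X) (hP : 0 ≤ P) (hQ : 0 ≤ Q) (hY : 0 ≤ Y)
    (ha : 0 ≤ a) (hab : a ≤ b) :
    4 ^ n * (X * P * Q * a ^ m / Y ^ n + R) ≤ 4 ^ n * (X * P * Q * b ^ m / Y ^ n + R) := by
  gcongr

open Classical in
theorem run_card (p K β K' β' : ℕ) (hp : 3 ≤ p) (hC : CB p K β) (hK : K ≤ K') (hβ : β ≤ β')
    (h X μ j i : ℕ) (hh : 1 ≤ h)
    (hj1 : 1 ≤ j) (hj : j < μ) (hμ : μ ≤ 2 * 2 ^ h) (hi : i < 6 * h) :
    (((Icc 1 X).filter fun k => BadRun p μ j (2 ^ h) ((4 * 2 ^ h) ^ (p ^ 2)) (Yy p h) (Tz p h) (Ts p h)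
        (Dk p h i) (2 * (32 * p * em h)) k).card : ℝ) ≤
      4 ^ (32 * p * em h) * ((X : ℝ) * ((4 * 2 ^ h : ℝ) ^ (p ^ 2)) ^ ((2 * (32 * p * em h)) ^ 2) *
      (2 ^ h * Ts p h * ((8 * 2 ^ h * Ts p h) ^ p) ^ 2) *
      (K' * ((2 : ℝ) ^ h) ^ 3 * (1 + Real.log (8 * 2 ^ h * Ts p h)) ^ β') ^ (2 * (32 * p * em h)) /
        (Yy p h : ℝ) ^ (32 * p * em h) +
      (2 ^ h * Ts p h * ((8 * 2 ^ h * Ts p h) ^ p) ^ 2) ^ (2 * (32 * p * em h))) := by
  have hu := uu_ge p h hp hh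
  obtain ⟨q1, q2, q3, q4, q5⟩ := qs p h hp hh
  have he : em h = 6 * h + 4 := rfl
  have hb1 : 1 ≤ 32 * p * em h := Nat.mul_pos (by omega) (by omega)
  have key := hC μ j (2 ^ h) (Yy p h) (Tz p h) (Ts p h) (Dk p h i) (32 * p * em h) X Nat.one_le_two_pow hj1 hj hμ
    ?_ Nat.one_le_two_pow ?_ Nat.one_le_two_pow hb1 ?_ ?_
  · refine key.trans ?_
    have hc : ((2 ^ h : ℕ) : ℝ) = 2 ^ h := by push_cast; rfl
    rw [hc]
    have hKR : (K : ℝ) ≤ K' := by exact_mod_cast hK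
    have hlog := log_nn p h
    refine mono1 _ _ (Nat.cast_nonneg _) (by positivity) (by positivity) (Nat.cast_nonneg _) (by positivity) ?_
    exact mul_le_mul (mul_le_mul_of_nonneg_right hKR (by positivity))
      (pow_le_pow_right₀ (by linarith) hβ) (by positivity) (by positivity)
  · -- `2 ≤ Yy`
    calc 2 = 2 ^ 1 := by norm_num
      _ ≤ Yy p h := p2 (by omega)
  · -- `(4 G) ^ p ≤ Ts`
    have e : (4 * 2 ^ h) ^ p = 2 ^ ((2 + h) * p) := by rw [pow_mul, pow_add]; norm_num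
    rw [e]
    refine (Tz_gt p h ((2 + h) * p) hp hh ?_).le.trans (Tz_le_Ts p h)
    have e3 : (2 + h) * p = 2 * p + p * h := by ring
    rw [e3]
    omega
  · -- `G D ≤ Ts`
    unfold Dk Ts
    rw [← pow_add]
    apply p2
    have h1 : (6 * em h - 2 - i) * uu p h ≤ (6 * em h) * uu p h := Nat.mul_le_mul_right _ (by omega)
    have h2 : h ≤ 2 * em h * uu p h := by
      have : uu p h ≤ 2 * em h * uu p h := Nat.le_mul_of_pos_left _ (by omega)
      omega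
    calc h + (6 * em h - 2 - i) * uu p h ≤ 2 * em h * uu p h + 6 * em h * uu p h := by omega
      _ = 8 * em h * uu p h := by ring
  · -- `8 G Ts Y² ≤ D²`
    unfold Dk Ts Yy
    have e : 8 * 2 ^ h * 2 ^ (8 * em h * uu p h) * (2 ^ (uu p h - h - 2)) ^ 2 =
        2 ^ (3 + h + 8 * em h * uu p h + (uu p h - h - 2) * 2) := by
      rw [pow_add, pow_add, pow_add, pow_mul _ (uu p h - h - 2) 2]
      norm_num
    rw [e, ← pow_mul]
    apply p2
    have h1 : (30 * h + 23) * uu p h ≤ (6 * em h - 2 - i) * uu p h :=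
      Nat.mul_le_mul_right _ (by omega)
    have h2 : 8 * em h * uu p h = (48 * h + 32) * uu p h := by rw [he]; ring
    have h3 : (48 * h + 32) * uu p h + 2 * uu p h = (48 * h + 34) * uu p h := by ring
    have h4 : (48 * h + 34) * uu p h ≤ (30 * h + 23) * uu p h * 2 := by nlinarith
    omega

theorem nnB (X T Y L : ℝ) (hX : 0 ≤ X) (hT : 0 ≤ T) (hY : 0 ≤ Y) (hL : 0 ≤ L) (p h q r K β : ℕ) :
    0 ≤ 4 ^ q * (X * ((4 * 2 ^ h : ℝ) ^ (p ^ 2)) ^ r * (2 ^ h * T * ((8 * 2 ^ h * T) ^ p) ^ 2) *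
      (K * ((2 : ℝ) ^ h) ^ 3 * (1 + L) ^ β) ^ (2 * q) / Y ^ q +
      (2 ^ h * T * ((8 * 2 ^ h * T) ^ p) ^ 2) ^ (2 * q)) := by
  positivity

theorem nnC (h p m : ℕ) (A B : ℝ) (hA : 0 ≤ A) (hB : 0 ≤ B) :
    0 ≤ 2 ^ h * (64 * (p : ℝ) * (m : ℝ)) * A + (6 * (h : ℝ)) * B := by
  positivity

open Classical in
theorem E_card (p K β K' β' K'' β'' : ℕ) (hp : 3 ≤ p) (hL : LB p K β) (hC : CB p K' β') (hK : K ≤ K'')
    (hK' : K' ≤ K'') (hβ : β ≤ β'') (hβ' : β' ≤ β'') (h X : ℕ) (hh : 1 ≤ h) :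
    ((E p h X).card : ℝ) ≤ (2 * 2 ^ h : ℝ) ^ 2 * (2 ^ h * (64 * p * em h) *
      (K'' * 2 ^ h * ((X : ℝ) / La h + Ts p h) * (1 + Real.log (8 * 2 ^ h * Ts p h)) ^ β'') +
    (6 * h) * (4 ^ (32 * p * em h) * ((X : ℝ) * ((4 * 2 ^ h : ℝ) ^ (p ^ 2)) ^ ((2 * (32 * p * em h)) ^ 2) *
      (2 ^ h * Ts p h * ((8 * 2 ^ h * Ts p h) ^ p) ^ 2) *
      (K'' * ((2 : ℝ) ^ h) ^ 3 * (1 + Real.log (8 * 2 ^ h * Ts p h)) ^ β'') ^ (2 * (32 * p * em h)) /
        (Yy p h : ℝ) ^ (32 * p * em h) +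
      (2 ^ h * Ts p h * ((8 * 2 ^ h * Ts p h) ^ p) ^ 2) ^ (2 * (32 * p * em h))))) := by
  set A : ℝ := K'' * 2 ^ h * ((X : ℝ) / La h + Ts p h) * (1 + Real.log (8 * 2 ^ h * Ts p h)) ^ β'' with hA
  set B : ℝ := 4 ^ (32 * p * em h) * ((X : ℝ) * ((4 * 2 ^ h : ℝ) ^ (p ^ 2)) ^ ((2 * (32 * p * em h)) ^ 2) *
      (2 ^ h * Ts p h * ((8 * 2 ^ h * Ts p h) ^ p) ^ 2) *
      (K'' * ((2 : ℝ) ^ h) ^ 3 * (1 + Real.log (8 * 2 ^ h * Ts p h)) ^ β'') ^ (2 * (32 * p * em h)) /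
        (Yy p h : ℝ) ^ (32 * p * em h) +
      (2 ^ h * Ts p h * ((8 * 2 ^ h * Ts p h) ^ p) ^ 2) ^ (2 * (32 * p * em h))) with hB
  have hlog0 := log_nn p h
  have hA0 : 0 ≤ A := by rw [hA]; positivity
  have hB0 : 0 ≤ B := nnB X (Ts p h) (Yy p h) (Real.log (8 * 2 ^ h * (Ts p h : ℝ))) (Nat.cast_nonneg _)
    (Nat.cast_nonneg _) (Nat.cast_nonneg _) hlog0 p h (32 * p * em h) ((2 * (32 * p * em h)) ^ 2) K'' β''
  have hE : ((E p h X).card : ℝ) ≤ ∑ c ∈ (Icc 1 (2 * 2 ^ h) ×ˢ range (2 * 2 ^ h)),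
      (2 ^ h * (64 * p * em h) * A + (6 * h) * B : ℝ) := by
    unfold E
    refine (Nat.cast_le.2 Finset.card_biUnion_le).trans ?_
    rw [Nat.cast_sum]
    refine Finset.sum_le_sum fun c hc => ?_
    rw [mem_product, mem_Icc, mem_range] at hc
    split_ifs with hlt
    · refine (Nat.cast_le.2 (Finset.card_union_le _ _)).trans ?_
      rw [Nat.cast_add]
      refine add_le_add ?_ ?_
      · refine (Nat.cast_le.2 Finset.card_biUnion_le).trans ?_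
        rw [Nat.cast_sum]
        calc _ ≤ ∑ q ∈ (Icc 2 (2 ^ h) ×ˢ range (64 * p * em h)), A := by
              refine Finset.sum_le_sum fun q hq => ?_
              rw [mem_product, mem_Icc, mem_range] at hq
              exact leap_card p K β K'' β'' hp hL hK hβ h X c.1 c.2 q.1 q.2 hh hq.1.1 hq.1.2 hlt.1 hlt.2
                hc.1.2 hq.2
          _ ≤ ∑ q ∈ (Icc 1 (2 ^ h) ×ˢ range (64 * p * em h)), A :=
              Finset.sum_le_sum_of_subset_of_nonneg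
                (Finset.product_subset_product_left (Finset.Icc_subset_Icc_left (by norm_num)))
                fun _ _ _ => hA0
          _ = 2 ^ h * (64 * p * em h) * A := by
              rw [Finset.sum_const, Finset.card_product, Nat.card_Icc, card_range, nsmul_eq_mul,
                Nat.add_sub_cancel]
              push_cast
              ring
      · refine (Nat.cast_le.2 Finset.card_biUnion_le).trans ?_
        rw [Nat.cast_sum]
        calc _ ≤ ∑ i ∈ range (6 * h), B := by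
              refine Finset.sum_le_sum fun i hi => ?_
              exact run_card p K' β' K'' β'' hp hC hK' hβ' h X c.1 c.2 i hh hlt.1 hlt.2 hc.1.2 (mem_range.1 hi)
          _ = (6 * h) * B := by
              rw [Finset.sum_const, card_range, nsmul_eq_mul]
              push_cast
              ring
    · rw [card_empty, Nat.cast_zero]
      exact nnC h p (em h) A B hA0 hB0
  refine hE.trans (le_of_eq ?_)
  rw [Finset.sum_const, Finset.card_product, Nat.card_Icc, card_range, nsmul_eq_mul,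
    Nat.add_sub_cancel]
  push_cast
  ring

end EXC

theorem t_EXC (hL : S_LEAP) (hC : S_CNT) (hB : S_BIG) (hR : S_RUN) (hP : S_PAR) : S_EXC := by
  classical
  intro p hpp hp3
  obtain ⟨K1, β1, hK1, hL⟩ := hL p hpp hp3
  obtain ⟨K2, β2, hK2, hC⟩ := hC p hpp hp3
  obtain ⟨h₀, hh₀, hP⟩ := hP p (K1 + K2) (β1 + β2) hp3
  refine ⟨h₀, hh₀, fun h X hh hX => ⟨EXC.E p h X, (EXC.E_card p K1 β1 K2 β2 (K1 + K2) (β1 + β2) hp3 hL hC
    (Nat.le_add_right _ _) (Nat.le_add_left _ _) (Nat.le_add_right _ _) (Nat.le_add_left _ _) h X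
    (hh₀.trans hh)).trans (hP h X hh hX), ?_⟩⟩
  have hh1 : 1 ≤ h := hh₀.trans hh
  have hu := EXC.uu_ge p h hp3 hh1
  obtain ⟨q1, q2, q3, q4, q5⟩ := EXC.qs p h hp3 hh1
  have he : em h = 6 * h + 4 := rfl
  intro k hk1 hkX hkE μ j R T g hj1 hjμ hμ hRG hW
  -- no leaps
  have hnl : ∀ n m, 2 ≤ n → n ≤ 2 ^ h → m < 64 * p * em h →
      ¬ Leap p μ j n ((4 * La h) ^ m * Tz p h) (La h) k := by
    intro n m h1 h2 h3 hcon
    apply hkE
    unfold EXC.E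
    rw [mem_biUnion]
    refine ⟨(μ, j), ?_, ?_⟩
    · rw [mem_product, mem_Icc, mem_range]
      exact ⟨⟨by simp only; omega, hμ⟩, by simp only; omega⟩
    · simp only
      rw [if_pos ⟨hj1, hjμ⟩, mem_union]
      left
      rw [mem_biUnion]
      refine ⟨(n, m), ?_, ?_⟩
      · rw [mem_product, mem_Icc, mem_range]
        exact ⟨⟨h1, h2⟩, h3⟩
      · rw [mem_filter, mem_Icc]
        exact ⟨⟨hk1, hkX⟩, hcon⟩
  -- no bad runs
  have hnb : ∀ i, i < 6 * h → ¬ BadRun p μ j (2 ^ h) ((4 * 2 ^ h) ^ (p ^ 2)) (Yy p h) (Tz p h) (Ts p h)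
      (Dk p h i) (2 * (32 * p * em h)) k := by
    intro i hi hcon
    apply hkE
    unfold EXC.E
    rw [mem_biUnion]
    refine ⟨(μ, j), ?_, ?_⟩
    · rw [mem_product, mem_Icc, mem_range]
      exact ⟨⟨by simp only; omega, hμ⟩, by simp only; omega⟩
    · simp only
      rw [if_pos ⟨hj1, hjμ⟩, mem_union]
      right
      rw [mem_biUnion]
      refine ⟨i, mem_range.2 hi, ?_⟩
      rw [mem_filter, mem_Icc]
      exact ⟨⟨hk1, hkX⟩, hcon⟩
  by_contra hcon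
  push Not at hcon
  have hex : ∃ r, Ts p h < T (r + 1) := ⟨R, hcon⟩
  set R' := Nat.find hex with hR'
  have hRT : Ts p h < T (R' + 1) := Nat.find_spec hex
  have hR'R : R' ≤ R := Nat.find_min' hex hcon
  have hmin : ∀ n, 1 ≤ n → n ≤ R' → T n ≤ Ts p h := by
    intro n h1 h2
    have := Nat.find_min hex (m := n - 1) (by omega)
    rw [Nat.sub_add_cancel h1] at this
    exact not_lt.1 this
  have hW' := EXC.walk_mono hR'R hW
  have hr1 : 1 ≤ p * em h := Nat.mul_pos (by omega) (by omega)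
  have hr2 : 2 * (32 * p * em h) = 64 * p * em h := by ring
  have hr3 : 64 * p * em h = 64 * (p * em h) := by ring
  have hbig : 64 * p * em h ≤ (J R' (Tz p h) (Dk p h 0) T g).card := by
    refine hB p k μ j (2 ^ h) R' (Tz p h) (Dk p h 0) (La h) (64 * p * em h) T g hW' (hR'R.trans hRG)
      Nat.one_le_two_pow ?_ ?_ ?_ ?_
    · have h1 : j ≤ 2 * 2 ^ h := by omega
      have h2 : 2 ^ p + 1 ≤ 2 * 2 ^ p := by
        have : 1 ≤ 2 ^ p := Nat.one_le_two_pow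
        omega
      have h3 : (j * (2 ^ p + 1)) ^ p ≤ 2 ^ ((h + p + 2) * p) := by
        rw [pow_mul]
        apply Nat.pow_le_pow_left
        calc j * (2 ^ p + 1) ≤ (2 * 2 ^ h) * (2 * 2 ^ p) := Nat.mul_le_mul h1 h2
          _ = 2 ^ (h + p + 2) := by rw [pow_add, pow_add]; ring
      refine lt_of_le_of_lt h3 (EXC.Tz_gt p h _ hp3 hh1 ?_)
      have e3 : (h + p + 2) * p = p * h + p * p + 2 * p := by ring
      rw [e3]
      omega
    · unfold Dk Tz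
      rw [show 2 * 2 ^ h * 2 ^ ((6 * em h - 2 - 0) * uu p h) =
        2 ^ (1 + h + (6 * em h - 2 - 0) * uu p h) by rw [pow_add, pow_add, pow_one]]
      apply EXC.p2
      obtain ⟨q, hq⟩ : ∃ q, 6 * em h = q + 2 := ⟨6 * em h - 2, by omega⟩
      rw [hq, Nat.add_sub_cancel, Nat.sub_zero]
      have : (q + 2) * uu p h = q * uu p h + 2 * uu p h := by ring
      omega
    · intro m n hm h1 h2 h3 h4
      by_contra hc
      push Not at hc
      exact hnl n m h1 (h2.trans (hR'R.trans hRG)) hm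
        ⟨T n, g n, h3, h4, hW'.gpos n (by omega) h2, hc, hW'.gV n (by omega) h2,
          hW'.gT n (by omega) h2⟩
    · exact lt_of_le_of_lt (EXC.lev p h (64 * p * em h) hp3 hh1 le_rfl) hRT
  have hrun := hR p hpp hp3 k μ j (2 ^ h) R' (Yy p h) (Tz p h) (Ts p h) (2 * (32 * p * em h)) (6 * h) T g
    (Dk p h) hW' (hR'R.trans hRG) (by omega) hμ Nat.one_le_two_pow hmin (by omega) Nat.one_le_two_pow
    Nat.one_le_two_pow
    (by
      intro i hi
      unfold Dk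
      apply Nat.pow_lt_pow_right (by norm_num)
      have h1 : 1 * uu p h ≤ (6 * em h - 2 - i) * uu p h := Nat.mul_le_mul_right _ (by omega)
      omega)
    (by
      intro i hi
      unfold Dk Yy
      rw [show 2 * 2 ^ h * 2 ^ (uu p h - h - 2) * 2 ^ ((6 * em h - 2 - (i + 1)) * uu p h) =
        2 ^ (1 + h + (uu p h - h - 2) + (6 * em h - 2 - (i + 1)) * uu p h) by
          rw [pow_add, pow_add, pow_add, pow_one]]
      apply EXC.p2
      obtain ⟨q, hq⟩ : ∃ q, 6 * em h - 2 - i = q + 1 := ⟨6 * em h - 2 - i - 1, by omega⟩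
      have hq2 : 6 * em h - 2 - (i + 1) = q := by omega
      rw [hq, hq2]
      have : (q + 1) * uu p h = q * uu p h + uu p h := by ring
      omega)
    hnb (by rw [hr2]; exact hbig)
  -- the contradiction
  have hc : 1 ≤ (J R' (Tz p h) (Dk p h 0) T g).card := by omega
  have h1 : 9 ^ (6 * h) ≤ 8 ^ (6 * h) * 2 ^ h :=
    (Nat.le_mul_of_pos_right _ hc).trans hrun
  rw [pow_mul, pow_mul, ← mul_pow] at h1
  have h2 : (8 ^ 6 * 2) ^ h < (9 ^ 6) ^ h := Nat.pow_lt_pow_left (by norm_num) (by omega)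
  omega

end Pool.Agent.K93.SO
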