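import Pool.Agent.K93.SO.Stm

set_option autoImplicit false

namespace Pool.Agent.K93.SO

/-- the two divisibilities only depend on `x` modulo `g` -/
theorem lcm_aux {p μ j n t g x y : ℕ} (h : x ≡ y [MOD g]) (h1 : (g : ℤ) ∣ (y : ℤ) ^ p - 1)
    (h2 : (g : ℤ) ∣ (μ : ℤ) * t + j * (((y : ℤ) + n) ^ p - 1)) :
    (g : ℤ) ∣ (x : ℤ) ^ p - 1 ∧ (g : ℤ) ∣ (μ : ℤ) * t + j * (((x : ℤ) + n) ^ p - 1) := by
  have h' : (x : ℤ) ≡ y [ZMOD g] := (Int.natCast_modEq_iff).2 h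
  have e1 : (x : ℤ) ^ p - 1 ≡ (y : ℤ) ^ p - 1 [ZMOD g] := (h'.pow p).sub_right 1
  have e2 : (μ : ℤ) * t + j * (((x : ℤ) + n) ^ p - 1) ≡ (μ : ℤ) * t + j * (((y : ℤ) + n) ^ p - 1) [ZMOD g] :=
    ((((h'.add_right (n : ℤ)).pow p).sub_right 1).mul_left (j : ℤ)).add_left _
  exact ⟨Int.modEq_zero_iff_dvd.1 (e1.trans (Int.modEq_zero_iff_dvd.2 h1)),
    Int.modEq_zero_iff_dvd.1 (e2.trans (Int.modEq_zero_iff_dvd.2 h2))⟩

theorem t_LCM : S_LCM := by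
  intro p μ j n t g₁ x₁ g₂ x₂ h1 h2
  obtain ⟨a1, a2, a3, a4⟩ := h1
  obtain ⟨b1, b2, b3, b4⟩ := h2
  have hg1 : g₁ ≠ 0 := by omega
  have hg2 : g₂ ≠ 0 := by omega
  obtain ⟨u, hu⟩ : ∃ u, u = Nat.factorizationLCMLeft g₁ g₂ := ⟨_, rfl⟩
  obtain ⟨v, hv⟩ : ∃ v, v = Nat.factorizationLCMRight g₁ g₂ := ⟨_, rfl⟩
  have hco : Nat.Coprime u v := by
    rw [hu, hv]
    exact Nat.coprime_factorizationLCMLeft_factorizationLCMRight g₁ g₂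
  have hmul : u * v = Nat.lcm g₁ g₂ := by
    rw [hu, hv]
    exact Nat.factorizationLCMLeft_mul_factorizationLCMRight hg1 hg2
  have hud : u ∣ g₁ := by
    rw [hu]
    exact Nat.factorizationLCMLeft_dvd_left g₁ g₂
  have hvd : v ∣ g₂ := by
    rw [hv]
    exact Nat.factorizationLCMRight_dvd_right g₁ g₂
  have hu0 : u ≠ 0 := fun h => hg1 (Nat.eq_zero_of_zero_dvd (h ▸ hud))
  have hv0 : v ≠ 0 := fun h => hg2 (Nat.eq_zero_of_zero_dvd (h ▸ hvd))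
  obtain ⟨x, hx1, hx2⟩ := Nat.chineseRemainder hco x₁ x₂
  obtain ⟨y, hy⟩ : ∃ y, y = x % (u * v) := ⟨_, rfl⟩
  have huv : 0 < u * v := Nat.mul_pos (Nat.pos_of_ne_zero hu0) (Nat.pos_of_ne_zero hv0)
  have hyx : y ≡ x [MOD u * v] := by
    rw [hy]
    exact Nat.mod_modEq _ _
  have hy1 : y ≡ x₁ [MOD u] := (hyx.of_mul_right v).trans hx1
  have hy2 : y ≡ x₂ [MOD v] := (hyx.of_mul_left u).trans hx2
  have hud' : (u : ℤ) ∣ g₁ := Int.natCast_dvd_natCast.2 hud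
  have hvd' : (v : ℤ) ∣ g₂ := Int.natCast_dvd_natCast.2 hvd
  obtain ⟨c1, c2⟩ := lcm_aux (p := p) (μ := μ) (j := j) (n := n) (t := t) hy1 (hud'.trans a3) (hud'.trans a4)
  obtain ⟨d1, d2⟩ := lcm_aux (p := p) (μ := μ) (j := j) (n := n) (t := t) hy2 (hvd'.trans b3) (hvd'.trans b4)
  have hcoz : IsCoprime (u : ℤ) (v : ℤ) := Nat.isCoprime_iff_coprime.2 hco
  refine ⟨y, ?_, ?_, ?_, ?_⟩
  · rw [← hmul]
    exact huv
  · rw [← hmul, hy]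
    exact Nat.mod_lt _ huv
  · rw [← hmul, Nat.cast_mul]
    exact hcoz.mul_dvd c1 d1
  · rw [← hmul, Nat.cast_mul]
    exact hcoz.mul_dvd c2 d2

end Pool.Agent.K93.SO
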