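import Pool.Agent.K93.SO.Stm

/-!
# LEAP (helper7): leaps are rare, `p` odd
-/

set_option autoImplicit false

namespace Pool.Agent.K93.SO

open Finset
open Pool.Agent.K93.SD (tau em La S_CRT)

namespace LEAP

open Classical in
theorem cell (hC : S_CRT) (n x g X : ℕ) (hg : 1 ≤ g) :
    (((Icc 1 X).filter (fun k : ℕ => (g : ℤ) ∣ (k : ℤ) - ((n : ℤ) + x))).card : ℝ) ≤
      X / (g : ℝ) + 1 := by
  have h := hC 1 X [((n : ℤ) + x, g)] (by norm_num) (by simp) (by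
    intro p hp
    simp only [List.mem_cons, List.not_mem_nil, or_false] at hp
    rw [hp]
    exact hg)
  have e1 : (Icc 1 X).filter (fun k : ℕ => (g : ℤ) ∣ (k : ℤ) - ((n : ℤ) + x)) =
      (Icc 1 X).filter (fun k : ℕ => ∀ p ∈ [((n : ℤ) + x, g)], (p.2 : ℤ) ∣ (k : ℤ) - p.1) := by
    refine Finset.filter_congr fun k _ => ?_
    simp only [List.mem_cons, List.not_mem_nil, or_false, forall_eq]
  rw [e1]
  refine h.trans (le_of_eq ?_)
  have e2 : (([((n : ℤ) + x, g)] : List (ℤ × ℕ)).map Prod.snd).prod = g := by simp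
  rw [e2]
  simp

/-- the members of a leap give an admissible pair -/
theorem mem (hR : S_RES) {p : ℕ} (hp : p.Prime) (hp3 : 3 ≤ p) {μ j n t g k : ℕ} (hn : 2 ≤ n) (hj1 : 1 ≤ j)
    (hj : j < μ) (ht : 1 ≤ t) (hg : 1 ≤ g) (h1 : (g : ℤ) ∣ ((k : ℤ) - n) ^ p - 1)
    (h2 : (g : ℤ) ∣ (μ : ℤ) * t + j * ((k : ℤ) ^ p - 1)) :
    ∃ x : ℕ, (g, x) ∈ Ad p μ j n t ∧ (g : ℤ) ∣ (k : ℤ) - ((n : ℤ) + x) := by
  classical
  have hg0 : (0 : ℤ) < g := by exact_mod_cast hg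
  obtain ⟨x, hx⟩ : ∃ x : ℕ, (x : ℤ) = ((k : ℤ) - n) % g :=
    ⟨(((k : ℤ) - n) % g).toNat, Int.toNat_of_nonneg (Int.emod_nonneg _ hg0.ne')⟩
  have hxg : x < g := by
    have := Int.emod_lt_of_pos ((k : ℤ) - n) hg0
    rw [← hx] at this
    exact_mod_cast this
  have hd : (g : ℤ) ∣ (k : ℤ) - n - x := by
    rw [hx]
    exact Int.dvd_self_sub_emod
  have hd2 : (g : ℤ) ∣ (k : ℤ) - ((n : ℤ) + x) := by
    have : (k : ℤ) - ((n : ℤ) + x) = (k : ℤ) - n - x := by ring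
    rw [this]
    exact hd
  have a1 : (g : ℤ) ∣ (x : ℤ) ^ p - 1 := by
    have h3 : (g : ℤ) ∣ ((k : ℤ) - n) ^ p - (x : ℤ) ^ p := hd.trans (sub_dvd_pow_sub_pow _ _ p)
    have h4 := dvd_sub h1 h3
    have e : ((k : ℤ) - n) ^ p - 1 - (((k : ℤ) - n) ^ p - (x : ℤ) ^ p) = (x : ℤ) ^ p - 1 := by ring
    rwa [e] at h4
  have a2 : (g : ℤ) ∣ (μ : ℤ) * t + j * (((x : ℤ) + n) ^ p - 1) := by
    have h3 : (g : ℤ) ∣ (k : ℤ) ^ p - ((x : ℤ) + n) ^ p := by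
      refine dvd_trans ?_ (sub_dvd_pow_sub_pow _ _ p)
      rwa [add_comm (n : ℤ) x] at hd2
    have h4 := dvd_sub h2 (h3.mul_left (j : ℤ))
    have e : (μ : ℤ) * t + j * ((k : ℤ) ^ p - 1) - (j : ℤ) * ((k : ℤ) ^ p - ((x : ℤ) + n) ^ p) =
        (μ : ℤ) * t + j * (((x : ℤ) + n) ^ p - 1) := by ring
    rwa [e] at h4
  have hAdm : Adm p μ j n t g x := ⟨hg, hxg, a1, a2⟩
  have hμt : (j : ℤ) < (μ : ℤ) * t := by
    have : j < μ * t := lt_of_lt_of_le hj (Nat.le_mul_of_pos_right _ ht)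
    exact_mod_cast this
  have hjn : (0 : ℤ) ≤ (j : ℤ) * ((n : ℤ) + 1) ^ p := by positivity
  have hU : g ≤ UU p μ j n t := by
    have h3 := hR p hp hp3 n j g ((μ : ℤ) * t - j) (x : ℤ) (by omega) hj1 (by
        have : 0 < (μ : ℤ) * t - j + j * ((n : ℤ) + 1) ^ p := by linarith
        exact this.ne') (fun h => by omega) a1 (by
        have e : (μ : ℤ) * t - j + j * ((x : ℤ) + n) ^ p = (μ : ℤ) * t + j * (((x : ℤ) + n) ^ p - 1) := by ring
        rwa [e])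
    have h4 : (|(μ : ℤ) * t - j| + j * ((n : ℤ) + 1) ^ p) ^ p ≤ ((UU p μ j n t : ℕ) : ℤ) := by
      unfold UU
      push_cast
      rw [abs_of_nonneg (by linarith)]
      have hj0 : (0 : ℤ) ≤ j := Int.natCast_nonneg j
      exact pow_le_pow_left₀ (by linarith) (by linarith) p
    exact_mod_cast h3.trans h4
  refine ⟨x, ?_, hd2⟩
  unfold Ad
  rw [Finset.mem_filter, Finset.mem_product, Finset.mem_Icc, Finset.mem_range]
  exact ⟨⟨⟨hg, hU⟩, lt_of_lt_of_le hxg hU⟩, hAdm⟩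

end LEAP

open LEAP

/-- **LEAP** -/
theorem t_LEAP (hR : S_RES) (hA : S_AB) (hC : S_CRT) : S_LEAP := by
  classical
  intro p hp hp3
  obtain ⟨K, β, hK1, hAB⟩ := hA p hp hp3
  refine ⟨K, β, hK1, ?_⟩
  intro G μ j n B Λ X hn hnG hj1 hj hμ hB hΛ
  have hG : 1 ≤ G := by omega
  have h8 : 8 * G ≤ B := (Nat.le_self_pow (by omega) (8 * G)).trans hB
  have hB1 : 1 ≤ B := by omega
  have hsum := hAB G μ j n B 1 B hn hnG hj1 hj hμ
    ((Nat.pow_le_pow_left (by omega) p).trans hB) le_rfl hB1 (by omega) (by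
    rw [sq B]
    exact Nat.mul_le_mul_right B h8)
  set L : ℝ := 1 + Real.log (8 * G * B) with hL
  have hBR : (0 : ℝ) < B := by exact_mod_cast hB1
  have hΛR : (0 : ℝ) < Λ := by exact_mod_cast hΛ
  have hsub : (Icc 1 X).filter (fun k : ℕ => Leap p μ j n B Λ k) ⊆
      (Ico 1 B).biUnion (fun t => ((Ad p μ j n t).filter (fun y => Λ * B ≤ y.1)).biUnion (fun y =>
        (Icc 1 X).filter (fun k : ℕ => (y.1 : ℤ) ∣ (k : ℤ) - ((n : ℤ) + y.2)))) := by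
    intro k hk
    obtain ⟨hk1, t, g, ht1, htB, hg, hΛg, h1, h2⟩ := Finset.mem_filter.1 hk
    obtain ⟨x, hx1, hx2⟩ := mem hR hp hp3 hn hj1 hj ht1 hg h1 h2
    refine Finset.mem_biUnion.2 ⟨t, Finset.mem_Ico.2 ⟨ht1, htB⟩, Finset.mem_biUnion.2 ⟨(g, x), ?_, ?_⟩⟩
    · exact Finset.mem_filter.2 ⟨hx1, hΛg⟩
    · exact Finset.mem_filter.2 ⟨hk1, hx2⟩
  have hcell : ∀ t, ∀ y ∈ (Ad p μ j n t).filter (fun y => Λ * B ≤ y.1),
      (((Icc 1 X).filter (fun k : ℕ => (y.1 : ℤ) ∣ (k : ℤ) - ((n : ℤ) + y.2))).card : ℝ) ≤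
        X / (Λ * B) + 1 := by
    intro t y hy
    obtain ⟨_, hy2⟩ := Finset.mem_filter.1 hy
    have p1 : 1 ≤ y.1 := le_trans (Nat.mul_pos hΛ hB1) hy2
    refine (cell hC n y.2 y.1 X p1).trans ?_
    have h1 : (Λ : ℝ) * B ≤ (y.1 : ℝ) := by exact_mod_cast hy2
    have h2 : (X : ℝ) / (y.1 : ℝ) ≤ X / (Λ * B) :=
      div_le_div_of_nonneg_left (by positivity) (by positivity) h1
    linarith
  have hK : (0 : ℝ) ≤ X / (Λ * B) + 1 := by positivity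
  have hcard : (((Icc 1 X).filter (fun k : ℕ => Leap p μ j n B Λ k)).card : ℝ) ≤
      ∑ t ∈ Ico 1 B, ((Ad p μ j n t).card : ℝ) * (X / (Λ * B) + 1) := by
    have c1 : (((Icc 1 X).filter (fun k : ℕ => Leap p μ j n B Λ k)).card : ℝ) ≤
        ∑ t ∈ Ico 1 B, ∑ y ∈ (Ad p μ j n t).filter (fun y => Λ * B ≤ y.1), (((Icc 1 X).filter (fun k : ℕ =>
          (y.1 : ℤ) ∣ (k : ℤ) - ((n : ℤ) + y.2))).card : ℝ) := by
      have c2 := (Finset.card_le_card hsub).trans (Finset.card_biUnion_le.trans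
        (Finset.sum_le_sum fun t _ => Finset.card_biUnion_le))
      exact_mod_cast c2
    refine c1.trans (Finset.sum_le_sum fun t _ => ?_)
    refine (Finset.sum_le_sum (hcell t)).trans ?_
    rw [Finset.sum_const, nsmul_eq_mul]
    refine mul_le_mul_of_nonneg_right ?_ hK
    exact_mod_cast Finset.card_filter_le _ _
  have hle : ∑ t ∈ Ico 1 B, ((Ad p μ j n t).card : ℝ) ≤ K * G * B * L ^ β := by
    refine le_trans (Finset.sum_le_sum_of_subset_of_nonneg ?_ fun t _ _ => by positivity) hsum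
    exact Finset.Ico_subset_Ico_right (by omega)
  rw [← Finset.sum_mul] at hcard
  refine hcard.trans ((mul_le_mul_of_nonneg_right hle hK).trans (le_of_eq ?_))
  field_simp

end Pool.Agent.K93.SO
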