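import Pool.Agent.K93.SO.Stm

/-!
# Project SO: the inequality between the parameters (`t_PAR : S_PAR`)
-/

set_option autoImplicit false

namespace Pool.Agent.K93.SO.PAR

open Finset
open Pool.Agent.K93.SD (em La)

theorem em_le (h : ℕ) (hh : 1 ≤ h) : em h ≤ 10 * h := by
  unfold Pool.Agent.K93.SD.em
  omega

theorem em_pos (h : ℕ) : 1 ≤ em h := by
  unfold Pool.Agent.K93.SD.em
  omega

/-! ### exponents -/

theorem exp3 (p h m : ℕ) (hp : 1 ≤ p) (hh : 2 ≤ h) (hm : 1 ≤ m) (hm' : m ≤ 10 * h) :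
    (2 + 2 * h + h + 64 * p * m + (h + 2) * p ^ 2 * (2 * (32 * p * m)) ^ 2 +
      (h + 8 * m * (100000 * p ^ 4 * h ^ 2) + 2 * p * (3 + h + 8 * m * (100000 * p ^ 4 * h ^ 2))) +
      4 * h * (2 * (32 * p * m))) + (3 * h + 2) ≤
      (100000 * p ^ 4 * h ^ 2 - h - 2) * (32 * p * m) := by
  have hu : h + 2 ≤ 100000 * p ^ 4 * h ^ 2 := by
    have h1 : 1 ≤ p ^ 4 := Nat.one_le_pow _ _ hp
    have h2 : h ≤ h ^ 2 := Nat.le_self_pow (by norm_num) h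
    calc h + 2 ≤ 2 * h := by omega
      _ ≤ 100000 * 1 * h := by omega
      _ ≤ 100000 * p ^ 4 * h ^ 2 := by gcongr
  obtain ⟨v, hv⟩ := Nat.exists_eq_add_of_le hu
  have h4 : 100000 * p ^ 4 * h ^ 2 - h - 2 = v := by omega
  rw [h4]
  obtain ⟨s, hs⟩ : ∃ s, s = p ^ 4 * h ^ 2 * m := ⟨_, rfl⟩
  obtain ⟨t, ht⟩ : ∃ t, t = p * m * h := ⟨_, rfl⟩
  have ht0 : t ≤ s := by
    rw [ht, hs]
    calc p * m * h = p ^ 1 * h ^ 1 * m := by ring
      _ ≤ p ^ 4 * h ^ 2 * m := by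
        apply Nat.mul_le_mul_right
        exact Nat.mul_le_mul (Nat.pow_le_pow_right hp (by norm_num))
          (Nat.pow_le_pow_right (by omega) (by norm_num))
  have hpm : 1 ≤ p * m := Nat.mul_pos hp hm
  have t1 : h ≤ t := by
    rw [ht]
    exact Nat.le_mul_of_pos_left _ hpm
  have t2 : p * m ≤ t := by
    rw [ht]
    exact Nat.le_mul_of_pos_right _ (by omega)
  have t3 : p ≤ p * m := Nat.le_mul_of_pos_right _ hm
  have t4 : p * h ≤ t := by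
    rw [ht]
    exact Nat.mul_le_mul_right _ t3
  have a1 : (h + 2) * p ^ 2 * (2 * (32 * p * m)) ^ 2 ≤ 81920 * s := by
    calc (h + 2) * p ^ 2 * (2 * (32 * p * m)) ^ 2 = 4096 * ((h + 2) * m * (p ^ 4 * m)) := by ring
      _ ≤ 4096 * ((2 * h) * (10 * h) * (p ^ 4 * m)) := by
        gcongr
        omega
      _ = 81920 * s := by
        rw [hs]
        ring
  have a2 : m * (100000 * p ^ 4 * h ^ 2) = 100000 * s := by
    rw [hs]
    ring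
  have a3 : s ≤ p * s := Nat.le_mul_of_pos_left _ hp
  have a4 : 100000 * (p * s) = p * m * h + 2 * (p * m) + v * (p * m) := by
    calc 100000 * (p * s) = (100000 * p ^ 4 * h ^ 2) * (p * m) := by
          rw [hs]
          ring
      _ = (h + 2 + v) * (p * m) := by rw [hv]
      _ = p * m * h + 2 * (p * m) + v * (p * m) := by ring
  have e1 : (2 + 2 * h + h + 64 * p * m + (h + 2) * p ^ 2 * (2 * (32 * p * m)) ^ 2 +
      (h + 8 * m * (100000 * p ^ 4 * h ^ 2) + 2 * p * (3 + h + 8 * m * (100000 * p ^ 4 * h ^ 2))) +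
      4 * h * (2 * (32 * p * m))) + (3 * h + 2) =
      4 + 7 * h + 64 * (p * m) + (h + 2) * p ^ 2 * (2 * (32 * p * m)) ^ 2 +
      8 * (m * (100000 * p ^ 4 * h ^ 2)) + 6 * p + 2 * (p * h) +
      16 * (p * (m * (100000 * p ^ 4 * h ^ 2))) + 256 * (p * m * h) := by ring
  have e2 : v * (32 * p * m) = 32 * (v * (p * m)) := by ring
  have e3 : p * (100000 * s) = 100000 * (p * s) := by ring
  rw [e1, e2, a2, e3, ← ht]
  rw [← ht] at a4
  omega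

theorem exp4 (p h m : ℕ) (hp : 1 ≤ p) (hh : 1 ≤ h) (hm' : m ≤ 10 * h) :
    (2 + 2 * h + h + 64 * p * m +
      (h + 8 * m * (100000 * p ^ 4 * h ^ 2) + 2 * p * (3 + h + 8 * m * (100000 * p ^ 4 * h ^ 2))) *
      (2 * (32 * p * m))) + (2 + 3 * h) ≤ 100000000000 * p ^ 6 * h ^ 4 := by
  have h2 : (2 + 2 * h + h + 64 * p * m +
      (h + 8 * m * (100000 * p ^ 4 * h ^ 2) + 2 * p * (3 + h + 8 * m * (100000 * p ^ 4 * h ^ 2))) *
      (2 * (32 * p * m))) + (2 + 3 * h) ≤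
      (2 + 2 * h + h + 64 * p * (10 * h) +
      (h + 8 * (10 * h) * (100000 * p ^ 4 * h ^ 2) +
        2 * p * (3 + h + 8 * (10 * h) * (100000 * p ^ 4 * h ^ 2))) *
      (2 * (32 * p * (10 * h)))) + (2 + 3 * h) := by gcongr
  refine h2.trans ?_
  have e1 : (2 + 2 * h + h + 64 * p * (10 * h) +
      (h + 8 * (10 * h) * (100000 * p ^ 4 * h ^ 2) +
        2 * p * (3 + h + 8 * (10 * h) * (100000 * p ^ 4 * h ^ 2))) *
      (2 * (32 * p * (10 * h)))) + (2 + 3 * h) = 4 * (p ^ 0 * h ^ 0) + 6 * (p ^ 0 * h ^ 1) +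
      640 * (p ^ 1 * h ^ 1) + 640 * (p ^ 1 * h ^ 2) + 3840 * (p ^ 2 * h ^ 1) +
      1280 * (p ^ 2 * h ^ 2) + 5120000000 * (p ^ 5 * h ^ 4) + 10240000000 * (p ^ 6 * h ^ 4) := by
    ring
  rw [e1]
  have key : ∀ i j, i ≤ 6 → j ≤ 4 → p ^ i * h ^ j ≤ p ^ 6 * h ^ 4 := fun i j hi hj =>
    Nat.mul_le_mul (Nat.pow_le_pow_right hp hi) (Nat.pow_le_pow_right hh hj)
  have k1 := key 0 0 (by norm_num) (by norm_num)
  have k2 := key 0 1 (by norm_num) (by norm_num)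
  have k3 := key 1 1 (by norm_num) (by norm_num)
  have k4 := key 1 2 (by norm_num) (by norm_num)
  have k5 := key 2 1 (by norm_num) (by norm_num)
  have k6 := key 2 2 (by norm_num) (by norm_num)
  have k7 := key 5 4 (by norm_num) (by norm_num)
  have e2 : 100000000000 * p ^ 6 * h ^ 4 = 100000000000 * (p ^ 6 * h ^ 4) := by ring
  rw [e2]
  omega

theorem exp2 (p h m : ℕ) (hp : 1 ≤ p) (hh : 1 ≤ h) (hm' : m ≤ 10 * h) :
    h * 10 + 8 * m * (100000 * p ^ 4 * h ^ 2) ≤ 100000000000 * p ^ 6 * h ^ 4 := by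
  have h2 : h * 10 + 8 * m * (100000 * p ^ 4 * h ^ 2) ≤
      h * 10 + 8 * (10 * h) * (100000 * p ^ 4 * h ^ 2) := by gcongr
  refine h2.trans ?_
  have e1 : h * 10 + 8 * (10 * h) * (100000 * p ^ 4 * h ^ 2) =
      10 * (p ^ 0 * h ^ 1) + 8000000 * (p ^ 4 * h ^ 3) := by ring
  rw [e1]
  have key : ∀ i j, i ≤ 6 → j ≤ 4 → p ^ i * h ^ j ≤ p ^ 6 * h ^ 4 := fun i j hi hj =>
    Nat.mul_le_mul (Nat.pow_le_pow_right hp hi) (Nat.pow_le_pow_right hh hj)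
  have k1 := key 0 1 (by norm_num) (by norm_num)
  have k2 := key 4 3 (by norm_num) (by norm_num)
  have e2 : 100000000000 * p ^ 6 * h ^ 4 = 100000000000 * (p ^ 6 * h ^ 4) := by ring
  rw [e2]
  omega

/-! ### the choice of `h₀` -/

theorem ev (p K β : ℕ) : ∃ h₀ : ℕ, 1024 ≤ h₀ ∧ p ≤ h₀ ∧ ∀ h : ℕ, h₀ ≤ h →
    (K : ℝ) * (10 ^ 7 * (p : ℝ) ^ 4 * (h : ℝ) ^ 3) ^ β ≤ 2 ^ h := by
  have h1 := tendsto_pow_const_div_const_pow_of_one_lt (3 * β) (r := (2 : ℝ)) (by norm_num)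
  have hc : (0 : ℝ) < K * (10 ^ 7 * (p : ℝ) ^ 4) ^ β + 1 := by positivity
  have h2 := h1.eventually (gt_mem_nhds (show (0 : ℝ) < 1 / (K * (10 ^ 7 * (p : ℝ) ^ 4) ^ β + 1) by
    positivity))
  obtain ⟨N, hN⟩ := Filter.eventually_atTop.1 h2
  refine ⟨max (max 1024 p) N, le_trans (le_max_left _ _) (le_max_left _ _),
    le_trans (le_max_right _ _) (le_max_left _ _), ?_⟩
  intro h hh
  have h3 := hN h (le_trans (le_max_right _ _) hh)
  rw [div_lt_div_iff₀ (by positivity) hc, one_mul] at h3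
  have h4 : (10 ^ 7 * (p : ℝ) ^ 4 * (h : ℝ) ^ 3) ^ β =
      (10 ^ 7 * (p : ℝ) ^ 4) ^ β * (h : ℝ) ^ (3 * β) := by
    rw [mul_pow _ ((h : ℝ) ^ 3), ← pow_mul]
  rw [h4]
  have h5 : (0 : ℝ) ≤ (h : ℝ) ^ (3 * β) := by positivity
  nlinarith

/-! ### the logarithm -/

/-- the logarithm -/
noncomputable def LL (p h : ℕ) : ℝ := 1 + Real.log (8 * 2 ^ h * Ts p h)

theorem arg_eq (p h : ℕ) : (8 * 2 ^ h * Ts p h : ℝ) = 2 ^ (3 + h + 8 * em h * uu p h) := by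
  unfold Ts
  push_cast
  rw [show (8 : ℝ) = 2 ^ 3 by norm_num, ← pow_add, ← pow_add]

theorem LL_ge (p h : ℕ) : 1 ≤ LL p h := by
  unfold LL
  have : 0 ≤ Real.log (8 * 2 ^ h * Ts p h) := by
    rw [arg_eq]
    exact Real.log_nonneg (one_le_pow₀ (by norm_num))
  linarith

theorem LL_le (p h : ℕ) (hp : 1 ≤ p) (hh : 1 ≤ h) :
    LL p h ≤ 10 ^ 7 * (p : ℝ) ^ 4 * (h : ℝ) ^ 3 := by
  unfold LL
  rw [arg_eq, Real.log_pow]
  have h1 : Real.log 2 ≤ 1 := by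
    have := Real.log_two_lt_d9
    linarith
  have h2 : ((3 + h + 8 * em h * uu p h : ℕ) : ℝ) * Real.log 2 ≤
      ((3 + h + 8 * em h * uu p h : ℕ) : ℝ) := by
    have : (0 : ℝ) ≤ ((3 + h + 8 * em h * uu p h : ℕ) : ℝ) := Nat.cast_nonneg _
    nlinarith
  have h3 : 1 + (3 + h + 8 * em h * uu p h) ≤ 10 ^ 7 * p ^ 4 * h ^ 3 := by
    have h4 := em_le h hh
    have h5 : 8 * em h * uu p h ≤ 8 * (10 * h) * (100000 * p ^ 4 * h ^ 2) := by
      unfold uu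
      gcongr
    have h6 : 8 * (10 * h) * (100000 * p ^ 4 * h ^ 2) = 8000000 * (p ^ 4 * h ^ 3) := by ring
    have h7 : p ^ 0 * h ^ 1 ≤ p ^ 4 * h ^ 3 :=
      Nat.mul_le_mul (Nat.pow_le_pow_right hp (by norm_num))
        (Nat.pow_le_pow_right hh (by norm_num))
    rw [h6] at h5
    rw [pow_one, pow_zero, one_mul] at h7
    have h8 : 10 ^ 7 * p ^ 4 * h ^ 3 = 10000000 * (p ^ 4 * h ^ 3) := by ring
    rw [h8]
    omega
  have h4 : (1 : ℝ) + ((3 + h + 8 * em h * uu p h : ℕ) : ℝ) ≤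
      10 ^ 7 * (p : ℝ) ^ 4 * (h : ℝ) ^ 3 := by
    exact_mod_cast h3
  linarith

theorem LLb (p K β h : ℕ) (hp : 1 ≤ p) (hh : 1 ≤ h)
    (H : (K : ℝ) * (10 ^ 7 * (p : ℝ) ^ 4 * (h : ℝ) ^ 3) ^ β ≤ 2 ^ h) :
    (K : ℝ) * LL p h ^ β ≤ 2 ^ h := by
  have h0 := LL_ge p h
  have h1 := LL_le p h hp hh
  have h3 : LL p h ^ β ≤ (10 ^ 7 * (p : ℝ) ^ 4 * (h : ℝ) ^ 3) ^ β :=
    pow_le_pow_left₀ (by linarith) h1 β
  have h4 : (K : ℝ) * LL p h ^ β ≤ K * (10 ^ 7 * (p : ℝ) ^ 4 * (h : ℝ) ^ 3) ^ β :=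
    mul_le_mul_of_nonneg_left h3 (Nat.cast_nonneg _)
  linarith

theorem cube (h : ℕ) : (2 : ℝ) ^ (3 * h) = (2 ^ h) ^ 3 := by
  rw [← pow_mul]
  congr 1
  ring

/-- `10 h^2 ≤ 2^h` -/
theorem sq_le (h : ℕ) (hh : 1024 ≤ h) : 10 * h ^ 2 ≤ 2 ^ h := by
  induction h, hh using Nat.le_induction with
  | base =>
    calc 10 * 1024 ^ 2 ≤ 2 ^ 24 := by norm_num
      _ ≤ 2 ^ 1024 := Nat.pow_le_pow_right (by norm_num) (by norm_num)
  | succ n hn ih =>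
    have h1 : 10 * (n + 1) ^ 2 ≤ 2 * (10 * n ^ 2) := by nlinarith
    calc 10 * (n + 1) ^ 2 ≤ 2 * (10 * n ^ 2) := h1
      _ ≤ 2 * 2 ^ n := Nat.mul_le_mul_left _ ih
      _ = 2 ^ (n + 1) := by ring

theorem pm_le (p h : ℕ) (hh : 1024 ≤ h) (hph : p ≤ h) : ((p : ℝ) * em h) ≤ 2 ^ h := by
  have h1 : p * em h ≤ 2 ^ h := by
    calc p * em h ≤ h * (10 * h) := Nat.mul_le_mul hph (em_le h (by omega))
      _ = 10 * h ^ 2 := by ring
      _ ≤ 2 ^ h := sq_le h hh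
  exact_mod_cast h1

theorem six_le (h : ℕ) (hh : 1024 ≤ h) : (6 * h : ℝ) ≤ 2 ^ h := by
  have h1 : 6 * h ≤ 2 ^ h := by
    refine le_trans ?_ (sq_le h hh)
    nlinarith
  exact_mod_cast h1

theorem term1 (p K β h : ℕ) (hh : 1024 ≤ h) (hph : p ≤ h)
    (H : (K : ℝ) * LL p h ^ β ≤ 2 ^ h) (X : ℝ) (hX : 0 ≤ X) :
    (2 * 2 ^ h : ℝ) ^ 2 * (2 ^ h * (64 * p * em h) * (K * 2 ^ h * (X / La h) * LL p h ^ β)) ≤
      X / (4 * 2 ^ (3 * h)) := by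
  have h2 := pm_le p h hh hph
  have h3 : (2 : ℝ) ^ 18 ≤ 2 ^ h := pow_le_pow_right₀ (by norm_num) (by omega)
  have h4 : (La h : ℝ) = (2 ^ h) ^ 20 := by
    unfold Pool.Agent.K93.SD.La
    push_cast
    rw [← pow_mul]
    congr 1
    ring
  have h5 : 0 ≤ LL p h := by linarith [LL_ge p h]
  rw [h4, cube]
  have hKL : (0 : ℝ) ≤ (K : ℝ) * LL p h ^ β := by positivity
  have hpm : (0 : ℝ) ≤ (p : ℝ) * em h := by positivity
  have hg : (0 : ℝ) < 2 ^ h := by positivity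
  have e0 : (2 * 2 ^ h : ℝ) ^ 2 * (2 ^ h * (64 * p * em h) *
      (K * 2 ^ h * (X / (2 ^ h) ^ 20) * LL p h ^ β)) =
      (2 * 2 ^ h : ℝ) ^ 2 * (2 ^ h * (64 * (p * em h)) *
      ((K * LL p h ^ β) * 2 ^ h * (X / (2 ^ h) ^ 20))) := by ring
  rw [e0]
  generalize (K : ℝ) * LL p h ^ β = L at H hKL
  generalize (p : ℝ) * em h = q at h2 hpm
  generalize (2 : ℝ) ^ h = g at H h2 h3 hg
  have e1 : (2 * g) ^ 2 * (g * (64 * q) * (L * g * (X / g ^ 20))) ≤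
      (2 * g) ^ 2 * (g * (64 * g) * (g * g * (X / g ^ 20))) := by
    gcongr
  refine e1.trans ?_
  have e2 : (2 * g) ^ 2 * (g * (64 * g) * (g * g * (X / g ^ 20))) = 256 * g ^ 6 * X / g ^ 20 := by
    ring
  rw [e2, div_le_div_iff₀ (by positivity) (by positivity)]
  have e3 : (1 : ℝ) ≤ g := le_trans (by norm_num) h3
  have e4 : 1024 * g ^ 9 ≤ g ^ 20 := by
    calc 1024 * g ^ 9 ≤ g * g ^ 9 := by
          apply mul_le_mul_of_nonneg_right _ (by positivity)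
          exact le_trans (by norm_num) h3
      _ = g ^ 10 := by ring
      _ ≤ g ^ 20 := pow_le_pow_right₀ e3 (by norm_num)
  calc 256 * g ^ 6 * X * (4 * g ^ 3) = X * (1024 * g ^ 9) := by ring
    _ ≤ X * g ^ 20 := mul_le_mul_of_nonneg_left e4 hX

theorem term2 (p K β h : ℕ) (hp : 1 ≤ p) (hh : 1024 ≤ h) (hph : p ≤ h)
    (H : (K : ℝ) * LL p h ^ β ≤ 2 ^ h) (X : ℝ) (hX : 2 ^ xx p h ≤ X) :
    (2 * 2 ^ h : ℝ) ^ 2 * (2 ^ h * (64 * p * em h) * (K * 2 ^ h * Ts p h * LL p h ^ β)) ≤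
      X / (4 * 2 ^ (3 * h)) := by
  have h2 := pm_le p h hh hph
  have h3 : (2 : ℝ) ^ 18 ≤ 2 ^ h := pow_le_pow_right₀ (by norm_num) (by omega)
  have h5 : 0 ≤ LL p h := by linarith [LL_ge p h]
  have h6 : (2 ^ h : ℝ) ^ 10 * Ts p h ≤ X := by
    refine le_trans ?_ hX
    unfold Ts
    push_cast
    rw [← pow_mul, ← pow_add]
    apply pow_le_pow_right₀ (by norm_num)
    exact exp2 p h (em h) hp (by omega) (em_le h (by omega))
  rw [cube]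
  have hKL : (0 : ℝ) ≤ (K : ℝ) * LL p h ^ β := by positivity
  have hpm : (0 : ℝ) ≤ (p : ℝ) * em h := by positivity
  have hg : (0 : ℝ) < 2 ^ h := by positivity
  have e0 : (2 * 2 ^ h : ℝ) ^ 2 * (2 ^ h * (64 * p * em h) *
      (K * 2 ^ h * Ts p h * LL p h ^ β)) =
      (2 * 2 ^ h : ℝ) ^ 2 * (2 ^ h * (64 * (p * em h)) *
      ((K * LL p h ^ β) * 2 ^ h * Ts p h)) := by ring
  rw [e0]
  generalize (K : ℝ) * LL p h ^ β = L at H hKL
  generalize (p : ℝ) * em h = q at h2 hpm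
  generalize (2 : ℝ) ^ h = g at H h2 h3 hg h6
  have hT : (0 : ℝ) ≤ Ts p h := Nat.cast_nonneg _
  generalize (Ts p h : ℝ) = T at h6 hT
  have e1 : (2 * g) ^ 2 * (g * (64 * q) * (L * g * T)) ≤
      (2 * g) ^ 2 * (g * (64 * g) * (g * g * T)) := by
    gcongr
  refine e1.trans ?_
  rw [le_div_iff₀ (by positivity)]
  refine le_trans ?_ h6
  calc (2 * g) ^ 2 * (g * (64 * g) * (g * g * T)) * (4 * g ^ 3) = 1024 * (g ^ 9 * T) := by ring
    _ ≤ g * (g ^ 9 * T) := by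
      apply mul_le_mul_of_nonneg_right _ (by positivity)
      exact le_trans (by norm_num) h3
    _ = g ^ 10 * T := by ring

theorem prod_eq (p h : ℕ) : (2 ^ h * Ts p h * ((8 * 2 ^ h * Ts p h) ^ p) ^ 2 : ℝ) =
    2 ^ (h + 8 * em h * uu p h + 2 * p * (3 + h + 8 * em h * uu p h)) := by
  rw [arg_eq]
  unfold Ts
  push_cast
  rw [← pow_mul, ← pow_mul, ← pow_add, ← pow_add]
  congr 1
  ring

theorem four_eq (a : ℕ) : (4 : ℝ) ^ a = 2 ^ (2 * a) := by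
  rw [pow_mul]
  norm_num

theorem term3 (p K β h : ℕ) (hp : 1 ≤ p) (hh : 1024 ≤ h)
    (H : (K : ℝ) * LL p h ^ β ≤ 2 ^ h) (X : ℝ) (hX : 0 ≤ X) :
    (2 * 2 ^ h : ℝ) ^ 2 * ((6 * h) * (4 ^ (32 * p * em h) *
      (X * ((4 * 2 ^ h : ℝ) ^ (p ^ 2)) ^ ((2 * (32 * p * em h)) ^ 2) *
      (2 ^ h * Ts p h * ((8 * 2 ^ h * Ts p h) ^ p) ^ 2) *
      (K * ((2 : ℝ) ^ h) ^ 3 * LL p h ^ β) ^ (2 * (32 * p * em h)) /
        (Yy p h : ℝ) ^ (32 * p * em h)))) ≤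
      X / (4 * 2 ^ (3 * h)) := by
  have h5 : 0 ≤ LL p h := by linarith [LL_ge p h]
  have h6 := six_le h hh
  have hY : (Yy p h : ℝ) = 2 ^ (uu p h - h - 2) := by
    unfold Yy
    push_cast
    rfl
  have h7 : (K : ℝ) * ((2 : ℝ) ^ h) ^ 3 * LL p h ^ β ≤ 2 ^ (4 * h) := by
    calc (K : ℝ) * ((2 : ℝ) ^ h) ^ 3 * LL p h ^ β = ((2 : ℝ) ^ h) ^ 3 * (K * LL p h ^ β) := by ring
      _ ≤ ((2 : ℝ) ^ h) ^ 3 * 2 ^ h := by gcongr
      _ = 2 ^ (4 * h) := by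
        rw [← pow_succ, ← pow_mul]
        congr 1
        ring
  have h8 : (4 * 2 ^ h : ℝ) = 2 ^ (h + 2) := by
    rw [pow_add]
    ring
  rw [hY, prod_eq, h8]
  have h9 : (0 : ℝ) ≤ (K : ℝ) * ((2 : ℝ) ^ h) ^ 3 * LL p h ^ β := by positivity
  generalize (K : ℝ) * ((2 : ℝ) ^ h) ^ 3 * LL p h ^ β = Z at h7 h9
  have e1 : (2 * 2 ^ h : ℝ) ^ 2 * ((6 * h) * (4 ^ (32 * p * em h) *
      (X * ((2 ^ (h + 2) : ℝ) ^ (p ^ 2)) ^ ((2 * (32 * p * em h)) ^ 2) *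
      2 ^ (h + 8 * em h * uu p h + 2 * p * (3 + h + 8 * em h * uu p h)) *
      Z ^ (2 * (32 * p * em h)) / (2 ^ (uu p h - h - 2)) ^ (32 * p * em h)))) ≤
      (2 * 2 ^ h : ℝ) ^ 2 * (2 ^ h * (4 ^ (32 * p * em h) *
      (X * ((2 ^ (h + 2) : ℝ) ^ (p ^ 2)) ^ ((2 * (32 * p * em h)) ^ 2) *
      2 ^ (h + 8 * em h * uu p h + 2 * p * (3 + h + 8 * em h * uu p h)) *
      (2 ^ (4 * h)) ^ (2 * (32 * p * em h)) / (2 ^ (uu p h - h - 2)) ^ (32 * p * em h)))) := by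
    gcongr
  refine e1.trans ?_
  have e2 : (2 * 2 ^ h : ℝ) ^ 2 * (2 ^ h * (4 ^ (32 * p * em h) *
      (X * ((2 ^ (h + 2) : ℝ) ^ (p ^ 2)) ^ ((2 * (32 * p * em h)) ^ 2) *
      2 ^ (h + 8 * em h * uu p h + 2 * p * (3 + h + 8 * em h * uu p h)) *
      (2 ^ (4 * h)) ^ (2 * (32 * p * em h)) / (2 ^ (uu p h - h - 2)) ^ (32 * p * em h)))) =
      X * 2 ^ (2 + 2 * h + h + 64 * p * em h + (h + 2) * p ^ 2 * (2 * (32 * p * em h)) ^ 2 +
        (h + 8 * em h * uu p h + 2 * p * (3 + h + 8 * em h * uu p h)) +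
        4 * h * (2 * (32 * p * em h))) / 2 ^ ((uu p h - h - 2) * (32 * p * em h)) := by
    rw [show (4 : ℝ) ^ (32 * p * em h) = 2 ^ (64 * p * em h) by
      rw [four_eq]
      congr 1
      ring]
    rw [← pow_mul, ← pow_mul, ← pow_mul, ← pow_mul]
    rw [show (2 * 2 ^ h : ℝ) ^ 2 = 2 ^ (2 + 2 * h) by
      rw [mul_pow, ← pow_mul, pow_add]
      congr 2
      ring]
    rw [mul_assoc (h + 2) (p ^ 2)]
    generalize (h + 2) * (p ^ 2 * (2 * (32 * p * em h)) ^ 2) = A1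
    generalize h + 8 * em h * uu p h + 2 * p * (3 + h + 8 * em h * uu p h) = A2
    generalize 4 * h * (2 * (32 * p * em h)) = A3
    generalize 64 * p * em h = A4
    simp only [pow_add]
    ring
  rw [e2, div_le_div_iff₀ (by positivity) (by positivity), mul_assoc]
  apply mul_le_mul_of_nonneg_left _ hX
  rw [show (4 * 2 ^ (3 * h) : ℝ) = 2 ^ (3 * h + 2) by
    rw [pow_add]
    ring]
  rw [← pow_add]
  exact pow_le_pow_right₀ (by norm_num)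
    (exp3 p h (em h) hp (by omega) (em_pos h) (em_le h (by omega)))

theorem term4 (p h : ℕ) (hp : 1 ≤ p) (hh : 1024 ≤ h) (X : ℝ) (hX : 2 ^ xx p h ≤ X) :
    (2 * 2 ^ h : ℝ) ^ 2 * ((6 * h) * (4 ^ (32 * p * em h) *
      (2 ^ h * Ts p h * ((8 * 2 ^ h * Ts p h) ^ p) ^ 2) ^ (2 * (32 * p * em h)))) ≤
      X / (4 * 2 ^ (3 * h)) := by
  have h6 := six_le h hh
  rw [prod_eq]
  have e1 : (2 * 2 ^ h : ℝ) ^ 2 * ((6 * h) * (4 ^ (32 * p * em h) *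
      (2 ^ (h + 8 * em h * uu p h + 2 * p * (3 + h + 8 * em h * uu p h))) ^
        (2 * (32 * p * em h)))) ≤
      (2 * 2 ^ h : ℝ) ^ 2 * (2 ^ h * (4 ^ (32 * p * em h) *
      (2 ^ (h + 8 * em h * uu p h + 2 * p * (3 + h + 8 * em h * uu p h))) ^
        (2 * (32 * p * em h)))) := by
    gcongr
  refine e1.trans ?_
  rw [le_div_iff₀ (by positivity)]
  refine le_trans ?_ hX
  have e2 : (2 * 2 ^ h : ℝ) ^ 2 * (2 ^ h * (4 ^ (32 * p * em h) *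
      (2 ^ (h + 8 * em h * uu p h + 2 * p * (3 + h + 8 * em h * uu p h))) ^
        (2 * (32 * p * em h)))) * (4 * 2 ^ (3 * h)) =
      2 ^ ((2 + 2 * h + h + 64 * p * em h +
        (h + 8 * em h * uu p h + 2 * p * (3 + h + 8 * em h * uu p h)) * (2 * (32 * p * em h))) +
        (2 + 3 * h)) := by
    rw [show (4 : ℝ) ^ (32 * p * em h) = 2 ^ (64 * p * em h) by
      rw [four_eq]
      congr 1
      ring]
    rw [show (4 * 2 ^ (3 * h) : ℝ) = 2 ^ (2 + 3 * h) by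
      rw [pow_add]
      ring]
    rw [← pow_mul]
    rw [show (2 * 2 ^ h : ℝ) ^ 2 = 2 ^ (2 + 2 * h) by
      rw [mul_pow, ← pow_mul, pow_add]
      congr 2
      ring]
    generalize (h + 8 * em h * uu p h + 2 * p * (3 + h + 8 * em h * uu p h)) *
      (2 * (32 * p * em h)) = A1
    generalize 64 * p * em h = A4
    simp only [pow_add]
    ring
  rw [e2]
  exact pow_le_pow_right₀ (by norm_num) (exp4 p h (em h) hp (by omega) (em_le h (by omega)))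

end Pool.Agent.K93.SO.PAR

namespace Pool.Agent.K93.SO

open PAR in
/-- **PAR** -/
theorem t_PAR : S_PAR := by
  intro p K β hp3
  obtain ⟨h₀, hh0, hp0, hev⟩ := ev p K β
  refine ⟨h₀, by omega, ?_⟩
  intro h X hh hX
  have hp : 1 ≤ p := by omega
  have hh' : 1024 ≤ h := by omega
  have hph : p ≤ h := by omega
  have H := LLb p K β h hp (by omega) (hev h hh)
  have hX' : (2 : ℝ) ^ xx p h ≤ (X : ℝ) := by exact_mod_cast hX
  have hX0 : (0 : ℝ) ≤ (X : ℝ) := Nat.cast_nonneg X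
  have t1 := term1 p K β h hh' hph H X hX0
  have t2 := term2 p K β h hp hh' hph H X hX'
  have t3 := term3 p K β h hp hh' H X hX0
  have t4 := term4 p h hp hh' X hX'
  unfold LL at t1 t2 t3
  have e : (X : ℝ) / 2 ^ (3 * h) = X / (4 * 2 ^ (3 * h)) + X / (4 * 2 ^ (3 * h)) +
      (X / (4 * 2 ^ (3 * h)) + X / (4 * 2 ^ (3 * h))) := by
    have : (2 : ℝ) ^ (3 * h) ≠ 0 := by positivity
    field_simp
    ring
  rw [e, mul_add]
  refine add_le_add ?_ ?_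
  · rw [mul_add ((K : ℝ) * 2 ^ h), add_mul, mul_add, mul_add]
    exact add_le_add t1 t2
  · rw [mul_add, mul_add, mul_add]
    exact add_le_add t3 t4

end Pool.Agent.K93.SO
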