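import Pool.Agent.K93.SO.Stm

/-!
# Zeros of the gcd recursion with `n^p - 1`: part REC

A short gap between two consecutive zeros gives a reversed walk.
-/

set_option autoImplicit false

namespace Pool.Agent.K93.SO

namespace REC

/-- the jump -/
def gg (p : ℕ) (a : ℕ → ℤ) (i : ℕ) : ℕ := Int.gcd (a (i - 1)) ((i : ℤ) ^ p - 1)

lemma step_abs {p : ℕ} {a : ℕ → ℤ} {n : ℕ} (ha : IsFrom p a n) (i : ℕ) (hi : n < i) :
    a i = |a (i - 1) - (gg p a i : ℤ)| := ha i hi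

lemma nonneg {p : ℕ} {a : ℕ → ℤ} {n : ℕ} (ha : IsFrom p a n) (i : ℕ) (hi : n < i) : 0 ≤ a i := by
  rw [step_abs ha i hi]
  exact abs_nonneg _

lemma gg_pos {p : ℕ} {a : ℕ → ℤ} (i : ℕ) (h : a (i - 1) ≠ 0) : 1 ≤ gg p a i :=
  Int.gcd_pos_of_ne_zero_left _ h

lemma gg_le {p : ℕ} {a : ℕ → ℤ} (i : ℕ) (h : 0 < a (i - 1)) : (gg p a i : ℤ) ≤ a (i - 1) :=
  Int.le_of_dvd h (Int.gcd_dvd_left _ _)

lemma step {p : ℕ} {a : ℕ → ℤ} {n : ℕ} (ha : IsFrom p a n) (i : ℕ) (hi : n < i)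
    (h : 0 < a (i - 1)) : a i = a (i - 1) - gg p a i := by
  rw [step_abs ha i hi, abs_of_nonneg]
  have := gg_le (p := p) i h
  linarith

lemma after_zero {p : ℕ} {a : ℕ → ℤ} (n : ℕ) (ha : IsFrom p a n) (h : a n = 0) :
    a (n + 1) = ((n : ℤ) + 1) ^ p - 1 := by
  have h0 : (0 : ℤ) ≤ ((n : ℤ) + 1) ^ p - 1 := by
    have : (1 : ℤ) ≤ ((n : ℤ) + 1) ^ p := one_le_pow₀ (by omega)
    linarith
  have h1 : (gg p a (n + 1) : ℤ) = ((n : ℤ) + 1) ^ p - 1 := by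
    unfold gg
    rw [Nat.add_sub_cancel, h, Int.gcd_zero_left, Int.natCast_natAbs]
    push_cast
    exact abs_of_nonneg h0
  rw [step_abs ha (n + 1) (by omega), Nat.add_sub_cancel, h, h1, zero_sub, abs_neg,
    abs_of_nonneg h0]

lemma diffpow (k m : ℤ) (hm : 0 ≤ m) (hk : m ≤ k) (q : ℕ) :
    k ^ (q + 1) - m ^ (q + 1) ≤ ((q : ℤ) + 1) * (k - m) * k ^ q := by
  induction q with
  | zero => simp
  | succ q ih =>
    have h1 : k * (k ^ (q + 1) - m ^ (q + 1)) ≤ k * (((q : ℤ) + 1) * (k - m) * k ^ q) :=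
      mul_le_mul_of_nonneg_left ih (hm.trans hk)
    have h2 : (k - m) * m ^ (q + 1) ≤ (k - m) * k ^ (q + 1) :=
      mul_le_mul_of_nonneg_left (pow_le_pow_left₀ hm hk _) (by linarith)
    have h3 : k ^ (q + 1 + 1) - m ^ (q + 1 + 1) =
        k * (k ^ (q + 1) - m ^ (q + 1)) + (k - m) * m ^ (q + 1) := by ring
    have h4 : (((q + 1 : ℕ) : ℤ) + 1) * (k - m) * k ^ (q + 1) =
        k * (((q : ℤ) + 1) * (k - m) * k ^ q) + (k - m) * k ^ (q + 1) := by
      push_cast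
      ring
    rw [h3, h4]
    linarith

/-- the size of `n` -/
lemma size (n G : ℤ) (q : ℕ) (hG : 1 ≤ G) (hn : 16 ^ (q + 1) * G ^ 4 ≤ n) :
    (16 + 15 * (q : ℤ)) * G ^ 2 ≤ n ∧ G ≤ G ^ 2 := by
  have h1 : G ≤ G ^ 2 := by nlinarith
  have h2 : G ^ 2 ≤ G ^ 4 := by
    have : G ^ 2 * 1 ≤ G ^ 2 * G ^ 2 := mul_le_mul_of_nonneg_left (by linarith) (by positivity)
    calc G ^ 2 = G ^ 2 * 1 := by ring
      _ ≤ G ^ 2 * G ^ 2 := this
      _ = G ^ 4 := by ring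
  have h3 : (16 + 15 * (q : ℤ)) ≤ 16 ^ (q + 1) := by
    have := one_add_mul_le_pow (show (-2 : ℤ) ≤ 15 by norm_num) (q + 1)
    push_cast at this
    linarith
  refine ⟨?_, h1⟩
  calc (16 + 15 * (q : ℤ)) * G ^ 2 ≤ 16 ^ (q + 1) * G ^ 4 :=
        mul_le_mul h3 h2 (by positivity) (by positivity)
    _ ≤ n := hn

/-- the difference of the two powers -/
lemma dif (n G k : ℤ) (q : ℕ) (hn0 : 0 ≤ n) (_ : 1 ≤ G) (hk : n + 2 ≤ k) (hk' : k ≤ n + G) :
    k ^ (q + 1) - (n + 1) ^ (q + 1) ≤ ((q : ℤ) + 1) * G * k ^ q := by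
  refine (diffpow k (n + 1) (by linarith) (by linarith) q).trans ?_
  have h1 : 0 ≤ k ^ q := pow_nonneg (by linarith) _
  refine mul_le_mul_of_nonneg_right ?_ h1
  refine mul_le_mul_of_nonneg_left (by linarith) (by positivity)

lemma arith1 (n G k : ℤ) (q : ℕ) (hn0 : 0 ≤ n) (hG : 1 ≤ G) (hn : 16 ^ (q + 1) * G ^ 4 ≤ n)
    (hk : n + 2 ≤ k) (hk' : k ≤ n + G) :
    k ^ (q + 1) - 1 ≤ 2 * ((n + 1) ^ (q + 1) - 1) := by
  obtain ⟨h1, h2⟩ := size n G q hG hn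
  have h3 := dif n G k q hn0 hG hk hk'
  have hkq : 1 ≤ k ^ q := one_le_pow₀ (by linarith)
  have h4 : 4 * (((q : ℤ) + 1) * G) ≤ k := by
    have h5 : (4 * ((q : ℤ) + 1)) * G ≤ (16 + 15 * (q : ℤ)) * G ^ 2 :=
      mul_le_mul (by linarith [Int.natCast_nonneg q]) h2 (by linarith) (by positivity)
    linarith
  have h5 : 4 * (((q : ℤ) + 1) * G) * k ^ q ≤ k * k ^ q := mul_le_mul_of_nonneg_right h4 (by linarith)
  have h6 : k * k ^ q = k ^ (q + 1) := by ring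
  have h7 : 2 ≤ k ^ (q + 1) := by
    rw [← h6]
    nlinarith
  rw [h6] at h5
  linarith

lemma arith2 (n G k μ : ℤ) (q : ℕ) (hq : 1 ≤ q) (hn0 : 0 ≤ n) (hG : 1 ≤ G)
    (hn : 16 ^ (q + 1) * G ^ 4 ≤ n) (hk : n + 2 ≤ k) (hk' : k ≤ n + G) (h0 : 1 ≤ μ)
    (h1 : μ ≤ 2 * G) :
    μ * n ≤ μ * ((n + 1) ^ (q + 1) - 1) - (μ - 1) * (k ^ (q + 1) - 1) := by
  obtain ⟨h2, h2'⟩ := size n G q hG hn
  have h3 := dif n G k q hn0 hG hk hk'
  have hkq : k ≤ k ^ q := by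
    calc k = k ^ 1 := (pow_one k).symm
      _ ≤ k ^ q := pow_le_pow_right₀ (by linarith) hq
  have hkq0 : 0 ≤ k ^ q := by linarith
  have h4 : μ * (k ^ (q + 1) - (n + 1) ^ (q + 1)) ≤ 2 * G * (((q : ℤ) + 1) * G * k ^ q) := by
    calc μ * (k ^ (q + 1) - (n + 1) ^ (q + 1)) ≤ μ * (((q : ℤ) + 1) * G * k ^ q) :=
          mul_le_mul_of_nonneg_left h3 (by linarith)
      _ ≤ 2 * G * (((q : ℤ) + 1) * G * k ^ q) := by
          refine mul_le_mul_of_nonneg_right h1 ?_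
          have : (0 : ℤ) ≤ ((q : ℤ) + 1) * G := by positivity
          exact mul_nonneg this hkq0
  have h5 : μ * n ≤ 2 * G * n := mul_le_mul_of_nonneg_right h1 hn0
  have h6 : 2 * G * n + 1 ≤ 2 * G * k ^ q := by nlinarith
  have h7 : (2 * G + 2 * ((q : ℤ) + 1) * G ^ 2) * k ^ q ≤ k * k ^ q := by
    refine mul_le_mul_of_nonneg_right ?_ hkq0
    have h8 : (2 + 2 * ((q : ℤ) + 1)) * G ^ 2 ≤ (16 + 15 * (q : ℤ)) * G ^ 2 :=
      mul_le_mul_of_nonneg_right (by linarith [Int.natCast_nonneg q]) (by positivity)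
    linarith
  have h8 : k * k ^ q = k ^ (q + 1) := by ring
  have h9 : 2 * G * (((q : ℤ) + 1) * G * k ^ q) = 2 * ((q : ℤ) + 1) * G ^ 2 * k ^ q := by ring
  have h10 : (2 * G + 2 * ((q : ℤ) + 1) * G ^ 2) * k ^ q =
      2 * G * k ^ q + 2 * ((q : ℤ) + 1) * G ^ 2 * k ^ q := by ring
  rw [h9] at h4
  rw [h8, h10] at h7
  have h11 : μ * ((n + 1) ^ (q + 1) - 1) - (μ - 1) * (k ^ (q + 1) - 1) =
      k ^ (q + 1) - 1 - μ * (k ^ (q + 1) - (n + 1) ^ (q + 1)) := by ring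
  rw [h11]
  linarith

end REC

open REC in
theorem t_REC (hR : S_RES) : S_REC := by
  intro p hp hp3 a n n' G ha hG hn hnn hz hz' hne hgap
  obtain ⟨q, rfl⟩ : ∃ q, p = q + 1 := ⟨p - 1, by omega⟩
  have hq : 1 ≤ q := by omega
  have hG0 : (1 : ℤ) ≤ G := by exact_mod_cast hG
  have hnG4 : 16 ^ (q + 1) * (G : ℤ) ^ 4 ≤ n := by exact_mod_cast hn
  have hn00 : (0 : ℤ) ≤ n := Int.natCast_nonneg n
  have hn1 : (1 : ℤ) ≤ n := by
    obtain ⟨h1, h2⟩ := size n G q hG0 hnG4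
    nlinarith [Int.natCast_nonneg q]
  have hpos : ∀ i, n + 1 ≤ i → i < n' → 0 < a i := fun i h1 h2 =>
    lt_of_le_of_ne (nonneg ha i (by omega)) (hne i (by omega) h2).symm
  have haz : a (n + 1) = ((n : ℤ) + 1) ^ (q + 1) - 1 := after_zero n ha hz
  have hazpos : 0 < a (n + 1) := by
    rw [haz]
    have : (1 : ℤ) < ((n : ℤ) + 1) ^ (q + 1) := one_lt_pow₀ (by linarith) (by omega)
    linarith
  have hn'2 : n + 2 ≤ n' := by
    by_contra h
    obtain rfl : n' = n + 1 := by omega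
    omega
  have hst : ∀ i, n + 2 ≤ i → i ≤ n' → a i = a (i - 1) - gg (q + 1) a i := fun i h1 h2 =>
    step ha i (by omega) (hpos (i - 1) (by omega) (by omega))
  have hgp : ∀ i, n + 2 ≤ i → i ≤ n' → 1 ≤ gg (q + 1) a i := fun i h1 h2 =>
    gg_pos i (hpos (i - 1) (by omega) (by omega)).ne'
  have hanti : ∀ i i', n + 1 ≤ i → i ≤ i' → i' ≤ n' → a i' ≤ a i := by
    intro i i' h1 h2
    induction i', h2 using Nat.le_induction with
    | base => intro _; exact le_refl _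
    | succ m hm ih =>
      intro hm'
      have h3 := ih (by omega)
      have h4 := hst (m + 1) (by omega) hm'
      rw [Nat.add_sub_cancel] at h4
      omega
  have hex : ∃ k, n + 2 ≤ k ∧ k ≤ n' ∧ a (n + 1) ≤ (G : ℤ) * gg (q + 1) a k := by
    by_contra hcon
    push Not at hcon
    have h1 : ∀ m, n + 1 + m ≤ n' → ((G : ℤ) - m) * a (n + 1) ≤ G * a (n + 1 + m) := by
      intro m
      induction m with
      | zero => intro _; simp
      | succ m ih =>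
        intro hm
        have h2 := ih (by omega)
        have h3 := hst (n + 1 + (m + 1)) (by omega) hm
        have h4 := hcon (n + 1 + (m + 1)) (by omega) hm
        have h5 : n + 1 + (m + 1) - 1 = n + 1 + m := by omega
        rw [h5] at h3
        rw [h3]
        push_cast
        nlinarith
    have h2 := h1 (n' - (n + 1)) (by omega)
    have h3 : n + 1 + (n' - (n + 1)) = n' := by omega
    rw [h3, hz', mul_zero] at h2
    have h4 : (1 : ℤ) ≤ (G : ℤ) - ((n' - (n + 1) : ℕ) : ℤ) := by omega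
    nlinarith
  obtain ⟨k, hk1, hk2, hk3⟩ := hex
  have hg1 : 1 ≤ gg (q + 1) a k := hgp k hk1 hk2
  have hkp : 0 < a (k - 1) := hpos (k - 1) (by omega) (by omega)
  have hkG : k ≤ n + G := by omega
  -- the two quotients
  have hkn : (n : ℤ) + 2 ≤ k := by exact_mod_cast hk1
  have hkG' : (k : ℤ) ≤ n + G := by exact_mod_cast hkG
  have hVk : (0 : ℤ) < (k : ℤ) ^ (q + 1) - 1 := by
    have : (1 : ℤ) < (k : ℤ) ^ (q + 1) := one_lt_pow₀ (by linarith) (by omega)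
    linarith
  have hg0 : (0 : ℤ) < gg (q + 1) a k := by exact_mod_cast hg1
  obtain ⟨μ', hμ'⟩ : (gg (q + 1) a k : ℤ) ∣ (k : ℤ) ^ (q + 1) - 1 := Int.gcd_dvd_right _ _
  obtain ⟨j', hj'⟩ : (gg (q + 1) a k : ℤ) ∣ a (k - 1) := Int.gcd_dvd_left _ _
  have hμ0 : 0 < μ' := by
    rw [hμ'] at hVk
    exact pos_of_mul_pos_right hVk hg0.le
  have hj0 : 0 < j' := by
    rw [hj'] at hkp
    exact pos_of_mul_pos_right hkp hg0.le
  obtain ⟨μ, rfl⟩ : ∃ μ : ℕ, μ' = μ := ⟨μ'.toNat, by omega⟩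
  obtain ⟨j, rfl⟩ : ∃ j : ℕ, j' = j := ⟨j'.toNat, by omega⟩
  have hle1 : a (k - 1) ≤ a (n + 1) := hanti (n + 1) (k - 1) (le_refl _) (by omega) (by omega)
  have hjμ : j < μ := by
    have h1 : (gg (q + 1) a k : ℤ) * j < gg (q + 1) a k * μ := by
      rw [← hj', ← hμ']
      refine lt_of_le_of_lt hle1 ?_
      rw [haz]
      have h2 : ((n : ℤ) + 1) ^ (q + 1) < (k : ℤ) ^ (q + 1) :=
        pow_lt_pow_left₀ (by linarith) (by linarith) (by omega)
      linarith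
    exact_mod_cast lt_of_mul_lt_mul_left h1 hg0.le
  have hμG : μ ≤ 2 * G := by
    by_contra hcon
    have hc : (2 * (G : ℤ) + 1) ≤ μ := by exact_mod_cast (by omega : 2 * G + 1 ≤ μ)
    have h1 : (μ : ℤ) * a (n + 1) ≤ G * ((k : ℤ) ^ (q + 1) - 1) := by
      rw [hμ']
      calc (μ : ℤ) * a (n + 1) ≤ μ * (G * gg (q + 1) a k) := mul_le_mul_of_nonneg_left hk3 hμ0.le
        _ = G * (gg (q + 1) a k * μ) := by ring
    have h2 : (2 * (G : ℤ) + 1) * a (n + 1) ≤ G * (2 * a (n + 1)) := by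
      have h3 : (2 * (G : ℤ) + 1) * a (n + 1) ≤ μ * a (n + 1) :=
        mul_le_mul_of_nonneg_right hc hazpos.le
      have h4 : (G : ℤ) * ((k : ℤ) ^ (q + 1) - 1) ≤ G * (2 * a (n + 1)) := by
        rw [haz]
        exact mul_le_mul_of_nonneg_left (arith1 n G k q hn00 hG0 hnG4 hkn hkG') (by omega)
      linarith
    have h5 : (2 * (G : ℤ) + 1) * a (n + 1) = G * (2 * a (n + 1)) + a (n + 1) := by ring
    linarith
  have hμA : (μ : ℤ) * a (k - 1) = j * ((k : ℤ) ^ (q + 1) - 1) := by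
    rw [hj', hμ']
    ring
  -- the reversed walk
  have hT : ∀ s, 1 ≤ s → s ≤ k - n - 1 →
      (((a (k - s) - a (k - 1)).toNat : ℕ) : ℤ) = a (k - s) - a (k - 1) := by
    intro s h1 h2
    apply Int.toNat_of_nonneg
    have := hanti (k - s) (k - 1) (by omega) (by omega) (by omega)
    omega
  have hgd : ∀ s, 1 ≤ s → s ≤ k - n - 2 → (gg (q + 1) a (k - s) : ℤ) ∣ a (k - s) := by
    intro s h1 h2
    rw [hst (k - s) (by omega) (by omega)]
    exact dvd_sub (Int.gcd_dvd_left _ _) (dvd_refl _)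
  have hT1 : (a (k - 1) - a (k - 1)).toNat = 0 := by simp
  have hstep : ∀ s, 1 ≤ s → s ≤ k - n - 2 → (a (k - (s + 1)) - a (k - 1)).toNat =
      (a (k - s) - a (k - 1)).toNat + gg (q + 1) a (k - s) := by
    intro s h1 h2
    have h3 := hT s h1 (by omega)
    have h4 := hT (s + 1) (by omega) (by omega)
    have h5 := hst (k - s) (by omega) (by omega)
    have h6 : k - s - 1 = k - (s + 1) := by omega
    rw [h6] at h5
    omega
  have hgV : ∀ s, 1 ≤ s → s ≤ k - n - 2 →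
      (gg (q + 1) a (k - s) : ℤ) ∣ ((k : ℤ) - s) ^ (q + 1) - 1 := by
    intro s h1 h2
    have h3 : ((k - s : ℕ) : ℤ) = (k : ℤ) - s := by omega
    rw [← h3]
    exact Int.gcd_dvd_right _ _
  have hgT : ∀ s, 1 ≤ s → s ≤ k - n - 2 → (gg (q + 1) a (k - s) : ℤ) ∣
      (μ : ℤ) * ((a (k - s) - a (k - 1)).toNat : ℕ) + j * ((k : ℤ) ^ (q + 1) - 1) := by
    intro s h1 h2
    rw [hT s h1 (by omega), ← hμA]
    have : (μ : ℤ) * (a (k - s) - a (k - 1)) + μ * a (k - 1) = μ * a (k - s) := by ring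
    rw [this]
    exact (hgd s h1 h2).mul_left _
  refine ⟨k, μ, j, k - n - 2, fun s => (a (k - s) - a (k - 1)).toNat,
    fun s => gg (q + 1) a (k - s),
    by omega, hk2, by exact_mod_cast hj0, hjμ, hμG, by omega, ⟨hT1, ?_, ?_, ?_, ?_, ?_⟩, ?_⟩
  · intro hR1
    have h1 := hstep 1 (le_refl _) hR1
    have h2 := hgV 1 (le_refl _) hR1
    have h3 := hgT 1 (le_refl _) hR1
    show (a (k - (1 + 1)) - a (k - 1)).toNat ≤ (j * (2 ^ (q + 1) + 1)) ^ (q + 1)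
    rw [h1, hT1, zero_add]
    rw [hT1] at h3
    have hj1 : 1 ≤ j := by exact_mod_cast hj0
    have hj1' : (1 : ℤ) ≤ j := by exact_mod_cast hj1
    have h2p : (1 : ℤ) < 2 ^ (q + 1) := one_lt_pow₀ (by norm_num) (by omega)
    have h4 := hR (q + 1) hp hp3 1 j (gg (q + 1) a (k - 1)) (-(j : ℤ)) ((k : ℤ) - 1) (le_refl _) hj1
      (by
        have h5 : -(j : ℤ) + j * (((1 : ℕ) : ℤ) + 1) ^ (q + 1) = j * (2 ^ (q + 1) - 1) := by
          norm_num
          ring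
        rw [h5]
        have : (0 : ℤ) < j * (2 ^ (q + 1) - 1) := mul_pos (by linarith) (by linarith)
        exact this.ne')
      (by
        rintro ⟨-, h⟩
        linarith)
      (by exact_mod_cast h2)
      (by
        have h5 : -(j : ℤ) + j * ((k : ℤ) - 1 + (1 : ℕ)) ^ (q + 1) =
            (μ : ℤ) * (0 : ℕ) + j * ((k : ℤ) ^ (q + 1) - 1) := by
          have h6 : ((k : ℤ) - 1 + (1 : ℕ)) = k := by push_cast; ring
          rw [h6]
          push_cast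
          ring
        rw [h5]
        exact h3)
    have h5 : (|(-(j : ℤ))| + j * (((1 : ℕ) : ℤ) + 1) ^ (q + 1)) ^ (q + 1) =
        (((j * (2 ^ (q + 1) + 1)) ^ (q + 1) : ℕ) : ℤ) := by
      rw [abs_neg, abs_of_nonneg (by linarith : (0 : ℤ) ≤ j)]
      push_cast
      norm_num
      ring
    rw [h5] at h4
    exact_mod_cast h4
  · intro s h1 h2
    exact hgp (k - s) (by omega) (by omega)
  · intro s h1 h2
    exact hstep s h1 h2
  · intro s h1 h2
    exact hgV s h1 h2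
  · intro s h1 h2
    exact hgT s h1 h2
  · have h1 : k - n - 2 + 1 = k - n - 1 := by omega
    have h2 := hT (k - n - 1) (by omega) (le_refl _)
    have h3 : k - (k - n - 1) = n + 1 := by omega
    show n ≤ (a (k - (k - n - 2 + 1)) - a (k - 1)).toNat
    rw [h1]
    rw [h3] at h2 ⊢
    have h4 : (n : ℤ) ≤ a (n + 1) - a (k - 1) := by
      have hμ1 : (1 : ℤ) ≤ μ := by omega
      have hμG' : (μ : ℤ) ≤ 2 * G := by exact_mod_cast hμG
      have hj1 : (j : ℤ) ≤ μ - 1 := by omega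
      have h5 : (μ : ℤ) * n ≤ μ * (a (n + 1) - a (k - 1)) := by
        rw [mul_sub, hμA]
        have h6 : (j : ℤ) * ((k : ℤ) ^ (q + 1) - 1) ≤ (μ - 1) * ((k : ℤ) ^ (q + 1) - 1) :=
          mul_le_mul_of_nonneg_right hj1 hVk.le
        have h9 := arith2 n G k μ q hq hn00 hG0 hnG4 hkn hkG' hμ1 hμG'
        rw [haz]
        linarith
      exact le_of_mul_le_mul_left h5 (by omega)
    omega

end Pool.Agent.K93.SO
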