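import Pool.Agent.K93.SO.Stm

/-!
# RES (project SO): the resultant of `X ^ p - 1` and `A + j (X + n) ^ p`
-/

set_option autoImplicit false

namespace Pool.Agent.K93.SO

namespace RES

open Polynomial

/-- the second polynomial -/
noncomputable def QQ (p n j : ℕ) (A : ℤ) : ℤ[X] := C A + C (j : ℤ) * (X + C (n : ℤ)) ^ p

theorem natDegree_QQ_le (p n j : ℕ) (A : ℤ) : (QQ p n j A).natDegree ≤ p := by
  unfold QQ
  refine (natDegree_add_le _ _).trans ?_
  have h1 : (C (j : ℤ) * (X + C (n : ℤ)) ^ p).natDegree ≤ p := by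
    refine (natDegree_C_mul_le _ _).trans ?_
    refine natDegree_pow_le.trans ?_
    rw [natDegree_X_add_C, mul_one]
  simpa using h1

theorem coeff_QQ (p n j : ℕ) (A : ℤ) (k : ℕ) (hk : k ≠ 0) :
    (QQ p n j A).coeff k = (j : ℤ) * ((n : ℤ) ^ (p - k) * (p.choose k : ℤ)) := by
  unfold QQ
  rw [coeff_add, coeff_C_mul, coeff_X_add_C_pow, coeff_C, if_neg hk, zero_add]

theorem coeff_QQ_zero (p n j : ℕ) (A : ℤ) :
    (QQ p n j A).coeff 0 = A + (j : ℤ) * (n : ℤ) ^ p := by
  unfold QQ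
  rw [coeff_add, coeff_C_mul, coeff_X_add_C_pow, coeff_C, if_pos rfl]
  simp

theorem norm_prod_le (s : Multiset ℂ) (K : ℝ) (hK : 0 ≤ K) (h : ∀ t ∈ s, ‖t‖ ≤ K) :
    ‖s.prod‖ ≤ K ^ s.card := by
  induction s using Multiset.induction_on with
  | empty => simp
  | cons a s ih =>
    rw [Multiset.prod_cons, Multiset.card_cons, norm_mul, pow_succ, mul_comm (K ^ _) K]
    exact mul_le_mul (h a (Multiset.mem_cons_self a s))
      (ih (fun t ht => h t (Multiset.mem_cons_of_mem ht))) (norm_nonneg _) hK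

/-- no nontrivial root of unity is a root -/
theorem ne_zero_of_primitive (p : ℕ) (hp : p.Prime) (h3 : 3 ≤ p) (n j : ℕ) (A : ℤ) (hn : 1 ≤ n)
    (hj : 1 ≤ j) (hex : ¬ (n = 1 ∧ A = j)) (z : ℂ) (hz : IsPrimitiveRoot z p) :
    (A : ℂ) + j * (z + n) ^ p ≠ 0 := by
  intro h0
  obtain ⟨q, rfl⟩ : ∃ q, p = q + 2 := ⟨p - 2, by omega⟩
  have := Fact.mk hp
  have hmin : cyclotomic (q + 2) ℤ = minpoly ℤ z := cyclotomic_eq_minpoly hz (by omega)
  have hint : IsIntegral ℤ z := hz.isIntegral (by omega)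
  have haev : aeval z (QQ (q + 2) n j A) = 0 := by
    unfold QQ
    simp only [map_add, map_mul, map_pow, aeval_C, aeval_X]
    simpa using h0
  have hdvd : cyclotomic (q + 2) ℤ ∣ QQ (q + 2) n j A := by
    rw [hmin]
    exact minpoly.isIntegrallyClosed_dvd hint haev
  obtain ⟨W, hW⟩ := hdvd
  have hcy : cyclotomic (q + 2) ℤ * (X - 1) = X ^ (q + 2) - 1 := cyclotomic_prime_mul_X_sub_one ℤ (q + 2)
  have hmul : (X - 1) * QQ (q + 2) n j A = (X ^ (q + 2) - 1) * W := by
    rw [hW, ← hcy]; ring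
  -- the degree of W
  have hWd : W.natDegree ≤ 1 := by
    by_cases hW0 : W = 0
    · simp [hW0]
    have hmon : (X ^ (q + 2) - 1 : ℤ[X]).Monic := monic_X_pow_sub_C 1 (by omega)
    have e1 : ((X ^ (q + 2) - 1) * W).natDegree = (q + 2) + W.natDegree := by
      rw [hmon.natDegree_mul' hW0]
      congr 1
      exact natDegree_X_pow_sub_C (R := ℤ) (n := q + 2) (r := 1)
    have e2 : ((X - 1) * QQ (q + 2) n j A).natDegree ≤ 1 + (q + 2) := by
      refine natDegree_mul_le.trans (Nat.add_le_add ?_ (natDegree_QQ_le _ _ _ _))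
      exact (natDegree_X_sub_C (1 : ℤ)).le
    rw [hmul, e1] at e2
    omega
  have hq1 : 1 ≤ q := by omega
  -- coefficients
  have cL : ∀ k : ℕ, ((X - 1) * QQ (q + 2) n j A).coeff (k + 1)
      = (QQ (q + 2) n j A).coeff k - (QQ (q + 2) n j A).coeff (k + 1) := by
    intro k
    rw [sub_mul, one_mul, coeff_sub, coeff_X_mul]
  have cL0 : ((X - 1) * QQ (q + 2) n j A).coeff 0 = - (QQ (q + 2) n j A).coeff 0 := by
    rw [sub_mul, one_mul, coeff_sub, mul_coeff_zero, coeff_X_zero]; ring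
  have cR : ∀ k : ℕ, k < q + 2 → ((X ^ (q + 2) - 1) * W).coeff k = - W.coeff k := by
    intro k hk
    rw [sub_mul, one_mul, coeff_sub, coeff_X_pow_mul', if_neg (by omega)]; ring
  have cRp : ((X ^ (q + 2) - 1) * W).coeff (q + 2) = W.coeff 0 - W.coeff (q + 2) := by
    rw [sub_mul, one_mul, coeff_sub, coeff_X_pow_mul', if_pos (by omega)]; simp
  have w1 : W.coeff (q + 1) = 0 := coeff_eq_zero_of_natDegree_lt (by omega)
  have w2 : W.coeff (q + 2) = 0 := coeff_eq_zero_of_natDegree_lt (by omega)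
  have E1 : (QQ (q + 2) n j A).coeff q - (QQ (q + 2) n j A).coeff (q + 1) = 0 := by
    rw [← cL q, hmul, cR (q + 1) (by omega), w1]; ring
  have E2 : (QQ (q + 2) n j A).coeff (q + 1) - (QQ (q + 2) n j A).coeff (q + 2) = W.coeff 0 := by
    rw [← cL (q + 1), hmul]
    have := cRp
    rw [w2] at this
    simpa using this
  have E3 : - (QQ (q + 2) n j A).coeff 0 = - W.coeff 0 := by
    rw [← cL0, hmul, cR 0 (by omega)]
  rw [coeff_QQ _ _ _ _ q (by omega), coeff_QQ _ _ _ _ (q + 1) (by omega)] at E1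
  rw [coeff_QQ _ _ _ _ (q + 1) (by omega), coeff_QQ _ _ _ _ (q + 2) (by omega)] at E2
  rw [coeff_QQ_zero] at E3
  have s1 : q + 2 - q = 2 := by omega
  have s2 : q + 2 - (q + 1) = 1 := by omega
  have s3 : q + 2 - (q + 2) = 0 := by omega
  rw [s1, s2] at E1
  rw [s2, s3] at E2
  have c1 : (q + 2).choose (q + 1) = q + 2 := by
    simpa using Nat.choose_succ_self_right (q + 1)
  have c2 : ((q + 2).choose q) * 2 = (q + 2) * (q + 1) := by
    have h := Nat.choose_symm_add (a := q) (b := 2)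
    rw [h]
    have h2 := Nat.choose_two_right (q + 2)
    have h3 : q + 2 - 1 = q + 1 := by omega
    rw [h3] at h2
    rw [h2]
    apply Nat.div_mul_cancel
    have := Nat.even_mul_succ_self (q + 1)
    rw [mul_comm] at this
    exact this.two_dvd
  have c3 : (q + 2).choose (q + 2) = 1 := Nat.choose_self _
  rw [c1] at E1 E2
  rw [c3] at E2
  push_cast at E1 E2
  have c2' : (((q + 2).choose q : ℕ) : ℤ) * 2 = ((q : ℤ) + 2) * (q + 1) := by exact_mod_cast c2
  have hj' : (j : ℤ) ≠ 0 := by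
    have : (1 : ℤ) ≤ j := by exact_mod_cast hj
    omega
  have hn' : (1 : ℤ) ≤ n := by exact_mod_cast hn
  have hq' : (1 : ℤ) ≤ q := by exact_mod_cast hq1
  have F1 : (n : ℤ) ^ 2 * ((q + 2).choose q : ℕ) = (n : ℤ) * ((q : ℤ) + 2) := by
    have : (j : ℤ) * ((n : ℤ) ^ 2 * ((q + 2).choose q : ℕ) - (n : ℤ) * ((q : ℤ) + 2)) = 0 := by
      have h := E1
      simp only [pow_one] at h
      linear_combination h
    have := (mul_eq_zero.mp this).resolve_left hj'
    linarith
  have F2 : (n : ℤ) * ((q : ℤ) + 1) = 2 := by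
    have h2 : ((n : ℤ) * ((q : ℤ) + 2)) * ((n : ℤ) * ((q : ℤ) + 1) - 2) = 0 := by
      linear_combination 2 * F1 - (n : ℤ) ^ 2 * c2'
    have h3 : (n : ℤ) * ((q : ℤ) + 2) ≠ 0 := by positivity
    have := (mul_eq_zero.mp h2).resolve_left h3
    linarith
  have hq2 : (q : ℤ) = 1 := by nlinarith
  have hn1 : (n : ℤ) = 1 := by rw [hq2] at F2; linarith
  have hqN : q = 1 := by exact_mod_cast hq2
  have hnN : n = 1 := by exact_mod_cast hn1
  apply hex
  refine ⟨hnN, ?_⟩
  subst hqN hnN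
  norm_num at E2 E3
  linarith

end RES

open Polynomial RES in
theorem t_RES : S_RES := by
  intro p hp h3 n j g A x hn hj h1 hex hg1 hg2
  have := Fact.mk hp
  set P : ℤ[X] := X ^ p - 1 with hP
  have hPd : P.natDegree = p := natDegree_X_pow_sub_C (R := ℤ) (n := p) (r := 1)
  set Q : ℤ[X] := QQ p n j A with hQ
  have hQd : Q.natDegree ≤ p := natDegree_QQ_le _ _ _ _
  obtain ⟨u, v, -, -, huv⟩ := exists_mul_add_mul_eq_C_resultant (m := p) (n := p) P Q hPd.le hQd
    (Or.inl (by omega))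
  set r : ℤ := P.resultant Q p p with hr
  have hdvd : (g : ℤ) ∣ r := by
    have h := congrArg (eval x) huv
    rw [eval_add, eval_mul, eval_mul, eval_C] at h
    rw [← h]
    refine dvd_add (Dvd.dvd.mul_right ?_ _) (Dvd.dvd.mul_right ?_ _)
    · rw [hP]; simpa using hg1
    · rw [hQ]; unfold QQ; simpa using hg2
  -- over the complex numbers
  have hsp : (P.map (Int.castRingHom ℂ)).Splits := IsAlgClosed.splits _
  have hPm : P.map (Int.castRingHom ℂ) = X ^ p - 1 := by rw [hP]; simp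
  have hPmd : (P.map (Int.castRingHom ℂ)).natDegree = p := by
    rw [hPm]; exact natDegree_X_pow_sub_C (R := ℂ) (n := p) (r := 1)
  have hPml : (P.map (Int.castRingHom ℂ)).leadingCoeff = 1 := by
    rw [hPm]; exact (monic_X_pow_sub_C (1 : ℂ) (by omega : p ≠ 0)).leadingCoeff
  have hres : (r : ℂ) = ((P.map (Int.castRingHom ℂ)).roots.map
      (Q.map (Int.castRingHom ℂ)).eval).prod := by
    have h := resultant_eq_prod_eval (P.map (Int.castRingHom ℂ)) (Q.map (Int.castRingHom ℂ)) p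
      (natDegree_map_le.trans hQd) hsp
    rw [hPmd, hPml, one_pow, one_mul, resultant_map_map] at h
    simpa using h
  have hroots : ∀ z ∈ (P.map (Int.castRingHom ℂ)).roots, z ^ p = 1 := by
    intro z hz
    have h := isRoot_of_mem_roots hz
    rw [hPm] at h
    have h' : z ^ p - 1 = 0 := by simpa [IsRoot] using h
    linear_combination h'
  have hcard : (P.map (Int.castRingHom ℂ)).roots.card = p := by
    rw [← hsp.natDegree_eq_card_roots, hPmd]
  have hev : ∀ z : ℂ, (Q.map (Int.castRingHom ℂ)).eval z = (A : ℂ) + j * (z + n) ^ p := by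
    intro z
    rw [hQ]; unfold QQ
    simp
  have hr0 : r ≠ 0 := by
    intro h0
    rw [h0, Int.cast_zero] at hres
    have hz := Multiset.prod_eq_zero_iff.mp hres.symm
    obtain ⟨z, hz1, hz2⟩ := Multiset.mem_map.mp hz
    rw [hev] at hz2
    have hzp := hroots z hz1
    by_cases hz11 : z = 1
    · rw [hz11] at hz2
      apply h1
      have : ((A + j * ((n : ℤ) + 1) ^ p : ℤ) : ℂ) = 0 := by
        push_cast
        rw [← hz2]; ring
      exact_mod_cast this
    · have hprim : IsPrimitiveRoot z p := by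
        have ho : orderOf z = p := orderOf_eq_prime hzp hz11
        rw [← ho]; exact IsPrimitiveRoot.orderOf z
      exact ne_zero_of_primitive p hp h3 n j A hn hj hex z hprim hz2
  have hbound : |(r : ℝ)| ≤ (|(A : ℝ)| + j * ((n : ℝ) + 1) ^ p) ^ p := by
    have e1 : |(r : ℝ)| = ‖(r : ℂ)‖ := by
      rw [← Complex.ofReal_intCast, Complex.norm_real, Real.norm_eq_abs]
    rw [e1, hres]
    have hmp := norm_prod_le ((P.map (Int.castRingHom ℂ)).roots.map
      (Q.map (Int.castRingHom ℂ)).eval) (|(A : ℝ)| + j * ((n : ℝ) + 1) ^ p) (by positivity) ?_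
    · rw [Multiset.card_map, hcard] at hmp
      exact hmp
    · intro t ht
      obtain ⟨z, hz1, rfl⟩ := Multiset.mem_map.mp ht
      have hz' : ‖z‖ = 1 := Complex.norm_eq_one_of_pow_eq_one (hroots z hz1) (by omega)
      rw [hev]
      refine (norm_add_le _ _).trans ?_
      have a1 : ‖(A : ℂ)‖ = |(A : ℝ)| := by
        rw [← Complex.ofReal_intCast, Complex.norm_real, Real.norm_eq_abs]
      have a2 : ‖(j : ℂ) * (z + n) ^ p‖ ≤ j * ((n : ℝ) + 1) ^ p := by
        rw [norm_mul, norm_pow, Complex.norm_natCast]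
        have a3 : ‖z + n‖ ≤ (n : ℝ) + 1 := by
          refine (norm_add_le _ _).trans ?_
          rw [hz', Complex.norm_natCast]; linarith
        exact mul_le_mul_of_nonneg_left (pow_le_pow_left₀ (norm_nonneg _) a3 p) (by positivity)
      rw [a1]; linarith
  have hgr : (g : ℤ) ≤ |r| := Int.le_of_dvd (abs_pos.mpr hr0) ((dvd_abs _ _).mpr hdvd)
  have : ((g : ℤ) : ℝ) ≤ (((|A| + j * ((n : ℤ) + 1) ^ p) ^ p : ℤ) : ℝ) := by
    have h2 : ((g : ℤ) : ℝ) ≤ ((|r| : ℤ) : ℝ) := by exact_mod_cast hgr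
    push_cast at h2 ⊢
    exact h2.trans hbound
  exact_mod_cast this

end Pool.Agent.K93.SO
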