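import Pool.Agent.K93.SO.Stm

/-!
# Project SO, part RHO: the number of `p`-th roots of unity modulo `g`
-/

set_option autoImplicit false

namespace Pool.Agent.K93.SO

open Finset
open Pool.Agent.K93.SD (tau)

namespace RHO

/-- the number of `p`-th roots of unity modulo `g` -/
def rr (p g : ℕ) : Finset ℕ := (range g).filter (fun x : ℕ => (g : ℤ) ∣ (x : ℤ) ^ p - 1)

lemma mem_rr {p g x : ℕ} : x ∈ rr p g ↔ x < g ∧ (g : ℤ) ∣ (x : ℤ) ^ p - 1 := by
  simp [rr]

lemma pow_eq {p g x : ℕ} (h : (g : ℤ) ∣ (x : ℤ) ^ p - 1) : (x : ZMod g) ^ p = 1 := by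
  have h1 := (ZMod.intCast_zmod_eq_zero_iff_dvd _ _).2 h
  push_cast at h1
  exact sub_eq_zero.1 h1

lemma card_le_units {p g : ℕ} (hp : 1 ≤ p) [NeZero g] :
    (rr p g).card ≤ (univ.filter (fun u : (ZMod g)ˣ => u ^ p = 1)).card := by
  classical
  let f : ℕ → (ZMod g)ˣ := fun x => if h : IsUnit (x : ZMod g) then h.unit else 1
  have hf : ∀ x ∈ rr p g, ((f x : (ZMod g)ˣ) : ZMod g) = x := by
    intro x hx
    have h1 := pow_eq (mem_rr.1 hx).2
    have h2 : IsUnit (x : ZMod g) := IsUnit.of_pow_eq_one h1 (by omega)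
    simp [f, h2]
  refine card_le_card_of_injOn f ?_ ?_
  · intro x hx
    have hx' : x ∈ rr p g := hx
    have h1 := pow_eq (mem_rr.1 hx').2
    simp only [coe_filter, mem_univ, true_and, Set.mem_ofPred_eq]
    apply Units.ext
    rw [Units.val_pow_eq_pow_val, hf x hx', h1, Units.val_one]
  · intro x hx y hy hxy
    have hx' : x ∈ rr p g := hx
    have hy' : y ∈ rr p g := hy
    have h1 : (x : ZMod g) = y := by rw [← hf x hx', ← hf y hy', hxy]
    rw [ZMod.natCast_eq_natCast_iff'] at h1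
    rwa [Nat.mod_eq_of_lt (mem_rr.1 hx').1, Nat.mod_eq_of_lt (mem_rr.1 hy').1] at h1

lemma prime_pow {p : ℕ} (hp : p.Prime) (hp3 : 3 ≤ p) (q a : ℕ) (hq : q.Prime) (ha : 0 < a) :
    (rr p (q ^ a)).card ≤ tau (q ^ a) ^ p := by
  have : NeZero (q ^ a) := ⟨(pow_pos hq.pos a).ne'⟩
  have h1 : (rr p (q ^ a)).card ≤ p := by
    refine (card_le_units (by omega)).trans ?_
    by_cases hq2 : q = 2
    · subst hq2
      have : (univ.filter (fun u : (ZMod (2 ^ a))ˣ => u ^ p = 1)) ⊆ {1} := by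
        intro u hu
        rw [mem_filter] at hu
        have h2 : orderOf u ∣ p := orderOf_dvd_of_pow_eq_one hu.2
        have h3 : orderOf u ∣ 2 ^ (a - 1) := by
          have h4 := orderOf_dvd_card (x := u)
          rwa [ZMod.card_units_eq_totient, Nat.totient_prime_pow Nat.prime_two ha,
            show 2 - 1 = 1 from rfl, mul_one] at h4
        have hcop : Nat.Coprime p (2 ^ (a - 1)) := by
          apply Nat.Coprime.pow_right
          rw [Nat.coprime_primes hp Nat.prime_two]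
          omega
        have h5 : orderOf u = 1 := Nat.dvd_one.1 (hcop ▸ Nat.dvd_gcd h2 h3)
        rw [mem_singleton]
        exact orderOf_eq_one_iff.1 h5
      refine (card_le_card this).trans ?_
      rw [card_singleton]
      omega
    · have := ZMod.isCyclic_units_of_prime_pow q hq hq2 a
      exact IsCyclic.card_pow_eq_one_le (by omega)
  have h2 : 2 ≤ tau (q ^ a) := by
    unfold tau
    rw [Nat.divisors_prime_pow hq, card_map, card_range]
    omega
  calc (rr p (q ^ a)).card ≤ p := h1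
    _ ≤ 2 ^ p := Nat.lt_two_pow_self.le
    _ ≤ tau (q ^ a) ^ p := Nat.pow_le_pow_left h2 p

lemma coprime {p a b : ℕ} (ha : 1 < a) (hb : 1 < b) (hab : Nat.Coprime a b) :
    (rr p (a * b)).card ≤ (rr p a).card * (rr p b).card := by
  rw [← card_product]
  refine card_le_card_of_injOn (fun x => (x % a, x % b)) ?_ ?_
  · intro x hx
    have hx' : x ∈ rr p (a * b) := hx
    obtain ⟨h1, h2⟩ := mem_rr.1 hx'
    have key : ∀ c : ℕ, 0 < c → (c : ℤ) ∣ (x : ℤ) ^ p - 1 → x % c ∈ rr p c := by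
      intro c hc h
      rw [mem_rr]
      refine ⟨Nat.mod_lt _ hc, ?_⟩
      have h3 : (c : ℤ) ∣ (x : ℤ) ^ p - ((x % c : ℕ) : ℤ) ^ p := by
        have h5 : (c : ℤ) ∣ (x : ℤ) - ((x % c : ℕ) : ℤ) := by
          refine ⟨((x / c : ℕ) : ℤ), ?_⟩
          have h6 : ((c * (x / c) + x % c : ℕ) : ℤ) = (x : ℤ) := by rw [Nat.div_add_mod]
          rw [Nat.cast_add, Nat.cast_mul] at h6
          linarith
        exact h5.trans (sub_dvd_pow_sub_pow _ _ p)
      have h4 : ((x % c : ℕ) : ℤ) ^ p - 1 = ((x : ℤ) ^ p - 1) - ((x : ℤ) ^ p - ((x % c : ℕ) : ℤ) ^ p) := by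
        ring
      rw [h4]
      exact dvd_sub h h3
    rw [mem_coe, mem_product]
    refine ⟨key a (by omega) ((Dvd.intro (b : ℤ) ?_).trans h2), key b (by omega) ((Dvd.intro (a : ℤ) ?_).trans h2)⟩
    · push_cast; ring
    · push_cast; ring
  · intro x hx y hy hxy
    have hx' : x ∈ rr p (a * b) := hx
    have hy' : y ∈ rr p (a * b) := hy
    simp only [Prod.mk.injEq] at hxy
    have h1 : x ≡ y [MOD a * b] := (Nat.modEq_and_modEq_iff_modEq_mul hab).1 ⟨hxy.1, hxy.2⟩
    have h2 : x % (a * b) = y % (a * b) := h1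
    rwa [Nat.mod_eq_of_lt (mem_rr.1 hx').1, Nat.mod_eq_of_lt (mem_rr.1 hy').1] at h2

end RHO

open RHO in
theorem t_RHO : S_RHO := by
  intro p hp hp3 g hg
  show (rr p g).card ≤ tau g ^ p
  induction g using Nat.recOnPosPrimePosCoprime with
  | prime_pow q a hq ha => exact prime_pow hp hp3 q a hq ha
  | zero => omega
  | one =>
    have h1 : (rr p 1).card ≤ 1 := by
      refine (card_filter_le _ _).trans ?_
      simp
    refine h1.trans ?_
    simp [tau]
  | coprime a b ha hb hab iha ihb =>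
    refine (coprime ha hb hab).trans ?_
    have h1 : tau (a * b) = tau a * tau b := hab.card_divisors_mul
    rw [h1, mul_pow]
    exact Nat.mul_le_mul (iha (by omega)) (ihb (by omega))

end Pool.Agent.K93.SO
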