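import Pool.Agent.K93.SO.Stm
import Pool.Agent.N333.GR.Dbl

/-!
# Project SO (helper93), part RUN (helper33): growth of the number of jumps without bad runs
(adapted from `K93/SD/T_RUN.lean` and `N333/GR/Run.lean`)
-/

set_option autoImplicit false

namespace Pool.Agent.K93.SO.RUN

open Finset Pool.Agent.K93.SO

/-- telescoping -/
theorem T_eq {P k μ j R : ℕ} {T g : ℕ → ℕ} (hW : Walk P k μ j R T g) {p : ℕ} (hp : 1 ≤ p) (m : ℕ)
    (hm : p + m ≤ R + 1) : T (p + m) = T p + ∑ x ∈ range m, g (p + x) := by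
  induction m with
  | zero => simp
  | succ m ih =>
    have h1 := ih (by omega)
    have h2 := hW.step (p + m) (by omega) (by omega)
    rw [sum_range_succ, ← add_assoc, ← add_assoc]
    omega

theorem T_mono {P k μ j R : ℕ} {T g : ℕ → ℕ} (hW : Walk P k μ j R T g) {p x : ℕ} (hp : 1 ≤ p) (hpx : p ≤ x)
    (hx : x ≤ R + 1) : T p ≤ T x := by
  obtain ⟨m, rfl⟩ := Nat.exists_eq_add_of_le hpx
  rw [T_eq hW hp m hx]
  exact Nat.le_add_right _ _

/-- the value of `T` at the next element -/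
theorem gap {P k μ j R G : ℕ} {T g : ℕ → ℕ} (hW : Walk P k μ j R T g) (hRG : R ≤ G) {p q E : ℕ} (hp : 1 ≤ p)
    (hpq : p < q) (hq : q ≤ R) (hE : ∀ x, p < x → x < q → g x ≤ E) :
    T p + g p ≤ T q ∧ T q ≤ T p + g p + G * E := by
  obtain ⟨m, hm⟩ : ∃ m, q = p + (m + 1) := ⟨q - p - 1, by omega⟩
  have h1 := T_eq hW hp (m + 1) (by omega)
  rw [← hm, sum_range_succ'] at h1
  rw [add_zero] at h1
  have h2 : ∑ x ∈ range m, g (p + (x + 1)) ≤ ∑ _x ∈ range m, E := by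
    refine sum_le_sum fun x hx => ?_
    rw [mem_range] at hx
    exact hE (p + (x + 1)) (by omega) (by omega)
  rw [sum_const, card_range, smul_eq_mul] at h2
  have h3 : m * E ≤ G * E := Nat.mul_le_mul_right _ (by omega)
  constructor
  · omega
  · omega

/-- the gcd of two jumps -/
theorem gcd_gg (hR : S_RES) {P k μ j R G : ℕ} (hP : P.Prime) (hP3 : 3 ≤ P) {T g : ℕ → ℕ}
    (hW : Walk P k μ j R T g) (hRG : R ≤ G) {n n' : ℕ} (hn : 1 ≤ n) (hnn : n < n') (hn' : n' ≤ R) :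
    Nat.gcd (g n) (g n') ≤ (4 * G) ^ (P ^ 2) := by
  obtain ⟨d, hd⟩ : ∃ d, d = Nat.gcd (g n) (g n') := ⟨_, rfl⟩
  rw [← hd]
  have h1 : (d : ℤ) ∣ ((k : ℤ) - n') ^ P - 1 :=
    (Int.natCast_dvd_natCast.2 (hd ▸ Nat.gcd_dvd_right _ _)).trans (hW.gV n' (by omega) hn')
  have h2 : (d : ℤ) ∣ ((k : ℤ) - n) ^ P - 1 :=
    (Int.natCast_dvd_natCast.2 (hd ▸ Nat.gcd_dvd_left _ _)).trans (hW.gV n hn (by omega))
  obtain ⟨m, rfl⟩ := Nat.exists_eq_add_of_lt hnn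
  have h3 : (d : ℤ) ∣ -1 + ((1 : ℕ) : ℤ) * (((k : ℤ) - ((n + m + 1 : ℕ) : ℤ)) + ((m + 1 : ℕ) : ℤ)) ^ P := by
    have e1 : -1 + ((1 : ℕ) : ℤ) * (((k : ℤ) - ((n + m + 1 : ℕ) : ℤ)) + ((m + 1 : ℕ) : ℤ)) ^ P =
        ((k : ℤ) - n) ^ P - 1 := by
      have e2 : ((k : ℤ) - ((n + m + 1 : ℕ) : ℤ)) + ((m + 1 : ℕ) : ℤ) = (k : ℤ) - n := by
        push_cast
        ring
      rw [e2]
      push_cast
      ring
    rw [e1]
    exact h2
  have hpow : (1 : ℤ) < (((m + 1 : ℕ) : ℤ) + 1) ^ P := one_lt_pow₀ (by push_cast; omega) (by omega)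
  have h4 := hR P hP hP3 (m + 1) 1 d (-1) ((k : ℤ) - ((n + m + 1 : ℕ) : ℤ)) (by omega) le_rfl
    (by push_cast at hpow ⊢; linarith) (by rintro ⟨-, h⟩; norm_num at h) h1 h3
  have h5 : (d : ℤ) ≤ (((1 + (m + 2) ^ P) ^ P : ℕ) : ℤ) := by
    refine h4.trans (le_of_eq ?_)
    rw [abs_neg, abs_one]
    push_cast
    ring
  have h6 : d ≤ (1 + (m + 2) ^ P) ^ P := by exact_mod_cast h5
  refine h6.trans ?_
  have h7 : m + 2 ≤ G := by omega
  have h8 : (m + 2) ^ P ≤ G ^ P := Nat.pow_le_pow_left h7 P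
  have h9 : 1 ≤ G ^ P := Nat.one_le_pow _ _ (by omega)
  have h10 : 2 ≤ 4 ^ P := by
    calc 2 ≤ 4 ^ 1 := by norm_num
      _ ≤ 4 ^ P := Nat.pow_le_pow_right (by norm_num) (by omega)
  have h11 : 1 + (m + 2) ^ P ≤ (4 * G) ^ P := by
    rw [mul_pow]
    calc 1 + (m + 2) ^ P ≤ 2 * G ^ P := by omega
      _ ≤ 4 ^ P * G ^ P := Nat.mul_le_mul_right _ h10
  calc (1 + (m + 2) ^ P) ^ P ≤ ((4 * G) ^ P) ^ P := Nat.pow_le_pow_left h11 P
    _ = (4 * G) ^ (P ^ 2) := by rw [← pow_mul, sq]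

open Classical in
theorem step (hR : S_RES) (hDBL : Pool.Agent.N333.GR.S_DBL) {P k μ j G R Y T0 Ts r D D' : ℕ} {T g : ℕ → ℕ}
    (hP : P.Prime) (hP3 : 3 ≤ P) (hT0 : 1 ≤ T0) (hW : Walk P k μ j R T g) (hRG : R ≤ G) (hμ : 1 ≤ μ) (hμG : μ ≤ 2 * G)
    (hTs : ∀ n, 1 ≤ n → n ≤ R → T n ≤ Ts) (hr : 2 ≤ r) (hY : 1 ≤ Y) (hG : 1 ≤ G) (hD' : G < D')
    (hDD : 2 * G * Y * D' ≤ D) (hB : ¬ BadRun P μ j G ((4 * G) ^ (P ^ 2)) Y T0 Ts D r k) (hrJ : r ≤ (J R T0 D T g).card) :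
    J R T0 D T g ⊆ J R T0 D' T g ∧ 9 * (J R T0 D T g).card ≤ 8 * (J R T0 D' T g).card := by
  have hDle : D' ≤ D := by
    have h1 : 1 ≤ 2 * G * Y := by
      have : 0 < 2 * G * Y := by positivity
      omega
    calc D' = 1 * D' := (one_mul _).symm
      _ ≤ (2 * G * Y) * D' := Nat.mul_le_mul_right _ h1
      _ ≤ D := hDD
  have hsub : J R T0 D T g ⊆ J R T0 D' T g := by
    intro x hx
    unfold J at hx ⊢
    rw [mem_filter] at hx ⊢
    exact ⟨hx.1, hx.2.1, hDle.trans hx.2.2⟩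
  refine ⟨hsub, ?_⟩
  have hJm : ∀ (D x : ℕ), x ∈ J R T0 D T g ↔ (1 ≤ x ∧ x ≤ R) ∧ T0 ≤ T x ∧ D ≤ g x := by
    intro D x
    unfold J
    rw [mem_filter, mem_Icc]
  -- the enumeration of `J`
  obtain ⟨F, hF⟩ : ∃ F : ℕ → ℕ, F = fun i => if h : i < (J R T0 D T g).card then
    (J R T0 D T g).orderEmbOfFin rfl ⟨i, h⟩ else 0 := ⟨_, rfl⟩
  have hFv : ∀ i (h : i < (J R T0 D T g).card), F i = (J R T0 D T g).orderEmbOfFin rfl ⟨i, h⟩ := by
    intro i h
    rw [hF]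
    exact dif_pos h
  have hFm : ∀ i, i < (J R T0 D T g).card → F i ∈ J R T0 D T g := by
    intro i h
    rw [hFv i h]
    exact orderEmbOfFin_mem _ _ _
  have hFlt : ∀ i i', i < i' → i' < (J R T0 D T g).card → F i < F i' := by
    intro i i' hii h
    rw [hFv i (by omega), hFv i' h]
    refine ((J R T0 D T g).orderEmbOfFin rfl).lt_iff_lt.2 ?_
    rw [Fin.mk_lt_mk]
    exact hii
  have hFl : ∀ i, i + 1 < (J R T0 D T g).card → F i < F (i + 1) :=
    fun i h => hFlt i (i + 1) (Nat.lt_succ_self i) h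
  have hFn : ∀ i x, i + 1 < (J R T0 D T g).card → F i < x → x < F (i + 1) → x ∉ J R T0 D T g := by
    intro i x h h1 h2 hx
    have h3 : x ∈ Set.range ((J R T0 D T g).orderEmbOfFin rfl) := by
      rw [range_orderEmbOfFin]
      exact hx
    obtain ⟨⟨l, hl⟩, rfl⟩ := h3
    rw [hFv i (by omega)] at h1
    rw [hFv (i + 1) h] at h2
    have h4 := ((J R T0 D T g).orderEmbOfFin rfl).lt_iff_lt.1 h1
    have h5 := ((J R T0 D T g).orderEmbOfFin rfl).lt_iff_lt.1 h2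
    rw [Fin.mk_lt_mk] at h4 h5
    omega
  refine hDBL _ _ F r hr hrJ hsub hFm hFl hFn ?_
  intro i0 hi0
  -- neighbours
  have hnb : ∀ i, i + 1 < r → F (i0 + i) < F (i0 + (i + 1)) := by
    intro i hi
    have := hFl (i0 + i) (by omega)
    rwa [add_assoc] at this
  have hin : ∀ i, i + 1 < r → ∀ x, F (i0 + i) < x → x < F (i0 + (i + 1)) →
      (1 ≤ x ∧ x ≤ R) ∧ T0 ≤ T x ∧ x ∉ J R T0 D T g := by
    intro i hi x h1 h2
    obtain ⟨⟨a1, a2⟩, a3, a4⟩ := (hJm D _).1 (hFm (i0 + i) (by omega))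
    obtain ⟨⟨b1, b2⟩, b3, b4⟩ := (hJm D _).1 (hFm (i0 + (i + 1)) (by omega))
    refine ⟨⟨by omega, by omega⟩, a3.trans (T_mono hW a1 h1.le (by omega)), ?_⟩
    exact hFn (i0 + i) x (by omega) h1 (by rwa [add_assoc])
  have hD1 : 1 ≤ D := by omega
  obtain ⟨A, hA⟩ : ∃ A : Finset ℕ, A = (range (r - 1)).filter (fun i => Y * (T (F (i0 + (i + 1))) -
    (T (F (i0 + i)) + g (F (i0 + i)))) <
      g (F (i0 + (i + 1)))) := ⟨_, rfl⟩
  have hAr : 2 * A.card < r := by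
    by_contra hcon
    push Not at hcon
    apply hB
    refine ⟨fun i => F (i0 + i), fun i => T (F (i0 + i)), fun i => g (F (i0 + i)), ?_, ?_, ?_, ?_⟩
    · intro i hi
      have hm := hFm (i0 + i) (by omega)
      obtain ⟨⟨a1, a2⟩, a3, a4⟩ := (hJm D _).1 hm
      have a5 : 2 ≤ F (i0 + i) := by
        by_contra h
        have h1 : F (i0 + i) = 1 := by omega
        rw [h1, hW.start] at a3
        omega
      exact ⟨a5, a2.trans hRG, a3, hTs _ a1 a2, hW.gpos _ a1 a2, a4, hW.gV _ a1 a2, hW.gT _ a1 a2⟩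
    · intro i i' hii hi'
      obtain ⟨⟨a1, a2⟩, -, -⟩ := (hJm D _).1 (hFm (i0 + i) (by omega))
      obtain ⟨⟨b1, b2⟩, -, -⟩ := (hJm D _).1 (hFm (i0 + i') (by omega))
      have hlt : F (i0 + i) < F (i0 + i') := hFlt _ _ (by omega) (by omega)
      exact gcd_gg hR hP hP3 hW hRG a1 hlt b2
    · intro i hi
      obtain ⟨⟨a1, a2⟩, a3, a4⟩ := (hJm D _).1 (hFm (i0 + i) (by omega))
      obtain ⟨⟨b1, b2⟩, b3, b4⟩ := (hJm D _).1 (hFm (i0 + (i + 1)) (by omega))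
      obtain ⟨g1, g2⟩ := gap hW hRG (E := D) a1 (hnb i hi) b2 (fun x h1 h2 => by
        obtain ⟨h3, h4, h5⟩ := hin i hi x h1 h2
        by_contra h6
        exact h5 ((hJm D x).2 ⟨h3, h4, by omega⟩))
      refine ⟨hnb i hi, g1, ?_⟩
      have h7 : G * D ≤ G * (g (F (i0 + (i + 1)))) := Nat.mul_le_mul_left _ b4
      show T (F (i0 + (i + 1))) ≤ T (F (i0 + i)) + g (F (i0 + i)) +
        G * (g (F (i0 + (i + 1))))
      omega
    · rw [hA] at hcon
      exact hcon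
  have hsplit : (range (r - 1)).card = A.card + ((range (r - 1)).filter (fun i => ¬ (Y *
      (T (F (i0 + (i + 1))) - (T (F (i0 + i)) + g (F (i0 + i)))) <
        g (F (i0 + (i + 1)))))).card := by
    rw [hA]
    exact (card_filter_add_card_filter_not _).symm
  rw [card_range] at hsplit
  have hle : ((range (r - 1)).filter (fun i => ¬ (Y *
      (T (F (i0 + (i + 1))) - (T (F (i0 + i)) + g (F (i0 + i)))) <
        g (F (i0 + (i + 1)))))).card ≤
      ((range (r - 1)).filter (fun i => ∃ x ∈ J R T0 D' T g, F (i0 + i) < x ∧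
        x < F (i0 + i + 1))).card := by
    refine card_le_card ?_
    intro i hi
    rw [mem_filter, mem_range] at hi ⊢
    obtain ⟨hi1, hi2⟩ := hi
    have hi3 : i + 1 < r := by omega
    refine ⟨hi1, ?_⟩
    by_contra hcon
    push Not at hcon
    apply hi2
    obtain ⟨⟨a1, a2⟩, a3, a4⟩ := (hJm D _).1 (hFm (i0 + i) (by omega))
    obtain ⟨⟨b1, b2⟩, b3, b4⟩ := (hJm D _).1 (hFm (i0 + (i + 1)) (by omega))
    obtain ⟨g1, g2⟩ := gap hW hRG (E := D') a1 (hnb i hi3) b2 (fun x h1 h2 => by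
      obtain ⟨h3, h4, h5⟩ := hin i hi3 x h1 h2
      by_contra h6
      have h7 := hcon x ((hJm D' x).2 ⟨h3, h4, by omega⟩) h1
      rw [add_assoc] at h7
      omega)
    have h0 : 0 < G * D' := Nat.mul_pos (by omega) (by omega)
    have h8 : T (F (i0 + (i + 1))) - (T (F (i0 + i)) + g (F (i0 + i))) <
        2 * (G * D') := by omega
    have h9 : Y * (T (F (i0 + (i + 1))) - (T (F (i0 + i)) + g (F (i0 + i)))) <
        Y * (2 * (G * D')) := Nat.mul_lt_mul_of_pos_left h8 hY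
    have h10 : Y * (2 * (G * D')) = 2 * G * Y * D' := by ring
    omega
  omega

end Pool.Agent.K93.SO.RUN

namespace Pool.Agent.K93.SO

theorem t_RUN (hR : S_RES) : S_RUN := by
  intro P hP hP3 k μ j G R Y T0 Ts r K T g D hW hRG hμ hμG hT0 hTs hr hY hG hD hDD hB hr0
  have key : ∀ i, i ≤ K → r ≤ (J R T0 (D i) T g).card ∧
      9 ^ i * (J R T0 (D 0) T g).card ≤ 8 ^ i * (J R T0 (D i) T g).card := by
    intro i
    induction i with
    | zero => intro _; exact ⟨hr0, by simp⟩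
    | succ i ih =>
      intro hk
      obtain ⟨h1, h2⟩ := ih (by omega)
      obtain ⟨h3, h4⟩ := RUN.step hR Pool.Agent.N333.GR.Dbl.t_DBL hP hP3 hT0 hW hRG hμ hμG hTs hr hY hG (hD (i + 1) hk)
        (hDD i (by omega)) (hB i (by omega)) h1
      refine ⟨h1.trans (Finset.card_le_card h3), ?_⟩
      calc 9 ^ (i + 1) * (J R T0 (D 0) T g).card = 9 * (9 ^ i * (J R T0 (D 0) T g).card) := by ring
        _ ≤ 9 * (8 ^ i * (J R T0 (D i) T g).card) := Nat.mul_le_mul_left _ h2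
        _ = 8 ^ i * (9 * (J R T0 (D i) T g).card) := by ring
        _ ≤ 8 ^ i * (8 * (J R T0 (D (i + 1)) T g).card) := Nat.mul_le_mul_left _ h4
        _ = 8 ^ (i + 1) * (J R T0 (D (i + 1)) T g).card := by ring
  refine (key K le_rfl).2.trans (Nat.mul_le_mul_left _ ?_)
  unfold J
  refine (Finset.card_filter_le _ _).trans ?_
  rw [Nat.card_Icc]
  omega

end Pool.Agent.K93.SO
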