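import Pool.Agent.K93.SO.Stm
import Pool.Agent.H359R2.Tau

/-! Project SO (owner helper93), part TAUI: small divisors with many divisors. -/

set_option autoImplicit false

namespace Pool.Agent.K93.SO

theorem TAUI.small (N : ℕ) (hN : N ≠ 0) :
    ∃ m, m ∣ N ∧ m * m ≤ N ∧ SD.tau N ≤ 2 * SD.tau m ^ 2 := by
  obtain ⟨m, h1, h2, h3⟩ := H359R2.exists_small_divisor N hN
  exact ⟨m, h1, h2, h3⟩

theorem t_TAUI : S_TAUI := by
  intro i
  induction i with
  | zero =>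
    refine ⟨1, 1, le_refl 1, fun N hN => ⟨N, dvd_refl N, ?_, ?_⟩⟩
    · simp
    · simp
  | succ i ih =>
    obtain ⟨C, γ, hC, h⟩ := ih
    refine ⟨C * 2 ^ γ, 2 * γ, ?_, ?_⟩
    · exact Nat.mul_pos hC (pow_pos (by norm_num) γ)
    intro N hN
    obtain ⟨m, hmN, hm, hτ⟩ := h N hN
    have hm0 : m ≠ 0 := by
      rintro rfl
      exact hN (Nat.eq_zero_of_zero_dvd hmN)
    obtain ⟨m', h1, h2, h3⟩ := TAUI.small m hm0
    refine ⟨m', h1.trans hmN, ?_, ?_⟩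
    · calc m' ^ 2 ^ (i + 1) = (m' * m') ^ 2 ^ i := by
            rw [pow_succ 2 i, mul_comm (2 ^ i) 2, pow_mul, sq]
        _ ≤ m ^ 2 ^ i := Nat.pow_le_pow_left h2 _
        _ ≤ N := hm
    · calc SD.tau N ≤ C * SD.tau m ^ γ := hτ
        _ ≤ C * (2 * SD.tau m' ^ 2) ^ γ :=
            Nat.mul_le_mul_left _ (Nat.pow_le_pow_left h3 _)
        _ = C * 2 ^ γ * SD.tau m' ^ (2 * γ) := by
            rw [mul_pow, ← pow_mul, mul_assoc]

end Pool.Agent.K93.SO
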