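import Pool.Agent.K93.SO.Stm

/-! Project SO, task TOP (helper70, after SD/T_TOP of helper37): from the parameter `h` to the final form. -/

set_option autoImplicit false

namespace Pool.Agent.K93.SO

namespace TOP

lemma ncard_le (a : ℕ → ℤ) (X : ℕ) : {n : ℕ | 1 ≤ n ∧ n ≤ X ∧ a n = 0}.ncard ≤ X := by
  have h1 : {n : ℕ | 1 ≤ n ∧ n ≤ X ∧ a n = 0} ⊆ ((Finset.Icc 1 X : Finset ℕ) : Set ℕ) := by
    intro n hn
    rw [Finset.mem_coe, Finset.mem_Icc]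
    exact ⟨hn.1, hn.2.1⟩
  have h2 := Set.ncard_le_ncard h1 (Finset.finite_toSet _)
  rw [Set.ncard_coe_finset, Nat.card_Icc, Nat.add_sub_cancel] at h2
  exact h2

lemma le_xx (p h : ℕ) (hp : 1 ≤ p) (_hh : 1 ≤ h) : h ≤ xx p h := by
  unfold xx
  have h1 : h ≤ h ^ 4 := Nat.le_self_pow (by norm_num) h
  have h2 : 1 ≤ p ^ 6 := Nat.one_le_pow _ _ hp
  calc h ≤ h ^ 4 := h1
    _ = 1 * h ^ 4 := (one_mul _).symm
    _ ≤ (100000000000 * p ^ 6) * h ^ 4 := Nat.mul_le_mul_right _ (by omega)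

lemma num {l h p : ℝ} (h0 : 0 ≤ l) (hh : 1 ≤ h) (hp : 1 ≤ p)
    (hl : l ≤ 100000000000 * p ^ 6 * (h + 1) ^ 4 * Real.log 2) :
    l ^ (1 / 4 : ℝ) ≤ 2000 * p ^ 2 * h := by
  have hlog21 : Real.log 2 ≤ 1 := by
    have := Real.log_two_lt_d9
    linarith
  have hp0 : 0 < p := by linarith
  have h6 : (h + 1) ^ 4 ≤ (2 * h) ^ 4 := pow_le_pow_left₀ (by linarith) (by linarith) 4
  have h7 : p ^ 6 ≤ p ^ 8 := pow_le_pow_right₀ hp (by norm_num)
  have h8 : 0 ≤ p ^ 6 := by positivity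
  have h2 : l ≤ (2000 * p ^ 2 * h) ^ 4 := by
    calc l ≤ 100000000000 * p ^ 6 * (h + 1) ^ 4 * Real.log 2 := hl
      _ ≤ 100000000000 * p ^ 6 * (h + 1) ^ 4 * 1 := mul_le_mul_of_nonneg_left hlog21 (by positivity)
      _ = 100000000000 * p ^ 6 * (h + 1) ^ 4 := mul_one _
      _ ≤ 100000000000 * p ^ 8 * (2 * h) ^ 4 := by
        apply mul_le_mul _ h6 (by positivity) (by positivity)
        linarith
      _ ≤ (2000 * p ^ 2 * h) ^ 4 := by
        have : 0 ≤ p ^ 8 * h ^ 4 := by positivity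
        nlinarith
  have h4 := Real.rpow_le_rpow h0 h2 (by norm_num : (0 : ℝ) ≤ 1 / 4)
  refine h4.trans (le_of_eq ?_)
  rw [← Real.rpow_natCast, ← Real.rpow_mul (by positivity)]
  norm_num

/-- the parameter `h` for `X` -/
lemma exists_h {p h₀ X : ℕ} (hp : 1 ≤ p) (hh₀ : 1 ≤ h₀) (hbig : 2 ^ xx p h₀ ≤ X) :
    ∃ h, h₀ ≤ h ∧ 2 ^ xx p h ≤ X ∧ X < 2 ^ xx p (h + 1) := by
  classical
  have h0X : h₀ ≤ X := by
    have h1 := le_xx p h₀ hp hh₀
    have h2 : xx p h₀ < 2 ^ xx p h₀ := Nat.lt_two_pow_self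
    omega
  refine ⟨Nat.findGreatest (fun h => 2 ^ xx p h ≤ X) X, ?_, ?_, ?_⟩
  · exact Nat.le_findGreatest h0X hbig
  · exact Nat.findGreatest_spec (P := fun h => 2 ^ xx p h ≤ X) h0X hbig
  · by_contra hcon
    push Not at hcon
    have h1 := le_xx p (Nat.findGreatest (fun h => 2 ^ xx p h ≤ X) X + 1) hp (by omega)
    have h2 : xx p (Nat.findGreatest (fun h => 2 ^ xx p h ≤ X) X + 1) <
        2 ^ xx p (Nat.findGreatest (fun h => 2 ^ xx p h ≤ X) X + 1) := Nat.lt_two_pow_self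
    have h3 := Nat.le_findGreatest (P := fun h => 2 ^ xx p h ≤ X)
      (m := Nat.findGreatest (fun h => 2 ^ xx p h ≤ X) X + 1) (n := X) (by omega) hcon
    omega

/-- the bound for `(log X) ^ (1/4)` -/
lemma log_bd {p h X : ℕ} (hp : 1 ≤ p) (hh : 1 ≤ h) (hX0 : (0 : ℝ) < X) (hlt : X < 2 ^ xx p (h + 1)) :
    Real.log 2 / (2000 * (p : ℝ) ^ 2) * Real.log X ^ (1 / 4 : ℝ) ≤ h * Real.log 2 := by
  have hlog2 : 0 < Real.log 2 := Real.log_pos (by norm_num)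
  have hlX : 0 ≤ Real.log X := Real.log_natCast_nonneg X
  have hp1 : (1 : ℝ) ≤ p := by exact_mod_cast hp
  have hh1 : (1 : ℝ) ≤ h := by exact_mod_cast hh
  have h2 : Real.log X ^ (1 / 4 : ℝ) ≤ 2000 * (p : ℝ) ^ 2 * h := by
    apply num hlX hh1 hp1
    have h3 : (X : ℝ) ≤ (2 : ℝ) ^ xx p (h + 1) := by exact_mod_cast hlt.le
    have h4 := Real.log_le_log hX0 h3
    rw [Real.log_pow] at h4
    have h5 : ((xx p (h + 1) : ℕ) : ℝ) = 100000000000 * (p : ℝ) ^ 6 * ((h : ℝ) + 1) ^ 4 := by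
      unfold xx
      push_cast
      ring
    rw [h5] at h4
    exact h4
  have hp0 : (p : ℝ) ≠ 0 := by linarith
  calc Real.log 2 / (2000 * (p : ℝ) ^ 2) * Real.log X ^ (1 / 4 : ℝ)
      ≤ Real.log 2 / (2000 * (p : ℝ) ^ 2) * (2000 * (p : ℝ) ^ 2 * h) :=
        mul_le_mul_of_nonneg_left h2 (by positivity)
    _ = h * Real.log 2 := by field_simp

lemma exp_bd {c l C X N : ℝ} {h : ℕ} (hX : 0 ≤ X) (hC : 0 ≤ C) (h4 : c * l ≤ h * Real.log 2)
    (h1 : N ≤ 8 * X / 2 ^ h) : N ≤ (8 + C) * X * Real.exp (-(c * l)) := by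
  have hE := Real.exp_pos (-(c * l))
  have h5 : 1 / (2 : ℝ) ^ h ≤ Real.exp (-(c * l)) := by
    have h6 : 1 / (2 : ℝ) ^ h = Real.exp (-(h * Real.log 2)) := by
      rw [Real.exp_neg, mul_comm, Real.exp_mul, Real.exp_log (by norm_num), Real.rpow_natCast, one_div]
    rw [h6]
    exact Real.exp_le_exp.2 (by linarith)
  calc N ≤ 8 * X / 2 ^ h := h1
    _ = 8 * X * (1 / (2 : ℝ) ^ h) := by ring
    _ ≤ 8 * X * Real.exp (-(c * l)) := mul_le_mul_of_nonneg_left h5 (by positivity)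
    _ ≤ (8 + C) * X * Real.exp (-(c * l)) := by
      apply mul_le_mul_of_nonneg_right _ hE.le
      exact mul_le_mul_of_nonneg_right (by linarith) hX

lemma small_bd {c l L X N : ℝ} (hX : 0 ≤ X) (hc : 0 ≤ c) (hl : l ≤ L) (h1 : N ≤ X) :
    N ≤ (8 + Real.exp (c * L)) * X * Real.exp (-(c * l)) := by
  have h3 : 1 ≤ Real.exp (c * L) * Real.exp (-(c * l)) := by
    rw [← Real.exp_add]
    apply Real.one_le_exp
    have := mul_le_mul_of_nonneg_left hl hc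
    linarith
  calc N ≤ X * 1 := by rw [mul_one]; exact h1
    _ ≤ X * (Real.exp (c * L) * Real.exp (-(c * l))) := mul_le_mul_of_nonneg_left h3 hX
    _ ≤ (8 + Real.exp (c * L)) * X * Real.exp (-(c * l)) := by
      have : 0 ≤ 8 * X * Real.exp (-(c * l)) := by positivity
      linarith

end TOP

open TOP

theorem t_TOP (hz : S_ZER) : S_TOP := by
  classical
  intro p hpp hp3
  obtain ⟨h₀, hh₀, H⟩ := hz p hpp hp3
  have hp1 : 1 ≤ p := by omega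
  have hp0 : (0 : ℝ) < p := by exact_mod_cast hp1
  have hlog2 : 0 < Real.log 2 := Real.log_pos (by norm_num)
  have hc : 0 < Real.log 2 / (2000 * (p : ℝ) ^ 2) := by positivity
  refine ⟨Real.log 2 / (2000 * (p : ℝ) ^ 2),
    8 + Real.exp (Real.log 2 / (2000 * (p : ℝ) ^ 2) * ((xx p h₀ : ℝ) * Real.log 2) ^ (1 / 4 : ℝ)),
    hc, by positivity, fun a ha X hX => ?_⟩
  have hX0 : (0 : ℝ) < X := by
    have : 0 < X := by omega
    exact_mod_cast this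
  have hE2 := Real.exp_pos (Real.log 2 / (2000 * (p : ℝ) ^ 2) * ((xx p h₀ : ℝ) * Real.log 2) ^ (1 / 4 : ℝ))
  have hlX : 0 ≤ Real.log X := Real.log_natCast_nonneg X
  by_cases hbig : 2 ^ xx p h₀ ≤ X
  · obtain ⟨h, hle, hPh, hlt⟩ := exists_h hp1 hh₀ hbig
    exact exp_bd hX0.le hE2.le (log_bd hp1 (hh₀.trans hle) hX0 hlt) (H h X hle hPh a ha)
  · push Not at hbig
    have h1 : Real.log X ≤ (xx p h₀ : ℝ) * Real.log 2 := by
      have h3 : (X : ℝ) ≤ (2 : ℝ) ^ xx p h₀ := by exact_mod_cast hbig.le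
      have h4 := Real.log_le_log hX0 h3
      rwa [Real.log_pow] at h4
    have h2 := Real.rpow_le_rpow hlX h1 (by norm_num : (0 : ℝ) ≤ 1 / 4)
    have h4 : ({n : ℕ | 1 ≤ n ∧ n ≤ X ∧ a n = 0}.ncard : ℝ) ≤ X := by exact_mod_cast ncard_le a X
    exact small_bd hX0.le hc.le h2 h4

end Pool.Agent.K93.SO
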