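import Pool.Agent.K93.SO.T_TOP

/-! Project SO, task TPA (helper70, after SD/T_TPA of helper37): the starting points with a short descent, final form. -/

set_option autoImplicit false

namespace Pool.Agent.K93.SO

namespace TPA

lemma sub_Icc {X : ℕ} (P : ℕ → Prop) :
    {n : ℕ | 1 ≤ n ∧ n ≤ X ∧ P n} ⊆ ((Finset.Icc 1 X : Finset ℕ) : Set ℕ) := by
  intro n hn
  rw [Finset.mem_coe, Finset.mem_Icc]
  exact ⟨hn.1, hn.2.1⟩

lemma ncard_le (P : ℕ → Prop) (X : ℕ) : {n : ℕ | 1 ≤ n ∧ n ≤ X ∧ P n}.ncard ≤ X := by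
  have h2 := Set.ncard_le_ncard (sub_Icc (X := X) P) (Finset.finite_toSet _)
  rw [Set.ncard_coe_finset, Nat.card_Icc, Nat.add_sub_cancel] at h2
  exact h2

lemma ncard_mono {P Q : ℕ → Prop} (X : ℕ) (h : ∀ n, P n → Q n) :
    {n : ℕ | 1 ≤ n ∧ n ≤ X ∧ P n}.ncard ≤ {n : ℕ | 1 ≤ n ∧ n ≤ X ∧ Q n}.ncard := by
  refine Set.ncard_le_ncard ?_ ((Finset.finite_toSet _).subset (sub_Icc (X := X) Q))
  exact fun n hn => ⟨hn.1, hn.2.1, h n hn.2.2⟩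

/-- `n' ≤ n + exp l` gives `n' ≤ n + 2 ^ h` if `l ≤ h log 2` -/
lemma le_add {n n' h : ℕ} {l : ℝ} (hl : l ≤ h * Real.log 2) (hn : (n' : ℝ) ≤ n + Real.exp l) :
    n' ≤ n + 2 ^ h := by
  have h1 : Real.exp l ≤ (2 : ℝ) ^ h := by
    have h2 : Real.exp (h * Real.log 2) = (2 : ℝ) ^ h := by
      rw [mul_comm, Real.exp_mul, Real.exp_log (by norm_num), Real.rpow_natCast]
    rw [← h2]
    exact Real.exp_le_exp.2 hl
  have h2 : (n' : ℝ) ≤ ((n + 2 ^ h : ℕ) : ℝ) := by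
    push_cast
    linarith
  exact_mod_cast h2

end TPA

open TPA

theorem t_TPA (ha : S_ALL) : S_TPA := by
  classical
  intro p hpp hp3
  obtain ⟨h₀, hh₀, H⟩ := ha p hpp hp3
  have hp1 : 1 ≤ p := by omega
  have hp0 : (0 : ℝ) < p := by exact_mod_cast hp1
  have hlog2 : 0 < Real.log 2 := Real.log_pos (by norm_num)
  have hc : 0 < Real.log 2 / (2000 * (p : ℝ) ^ 2) := by positivity
  refine ⟨Real.log 2 / (2000 * (p : ℝ) ^ 2),
    8 + Real.exp (Real.log 2 / (2000 * (p : ℝ) ^ 2) * ((xx p h₀ : ℝ) * Real.log 2) ^ (1 / 4 : ℝ)),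
    hc, by positivity, fun X hX => ?_⟩
  have hX0 : (0 : ℝ) < X := by
    have : 0 < X := by omega
    exact_mod_cast this
  have hE2 := Real.exp_pos (Real.log 2 / (2000 * (p : ℝ) ^ 2) * ((xx p h₀ : ℝ) * Real.log 2) ^ (1 / 4 : ℝ))
  have hlX : 0 ≤ Real.log X := Real.log_natCast_nonneg X
  by_cases hbig : 2 ^ xx p h₀ ≤ X
  · obtain ⟨h, hle, hPh, hlt⟩ := TOP.exists_h hp1 hh₀ hbig
    have h1 := H h X hle hPh
    have h4 := TOP.log_bd hp1 (hh₀.trans hle) hX0 hlt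
    refine TOP.exp_bd hX0.le hE2.le h4 (le_trans ?_ h1)
    have h5 := ncard_mono (P := fun n => ∃ (a : ℕ → ℤ) (n' : ℕ), IsFrom p a n ∧ a n = 0 ∧ n < n' ∧
        (n' : ℝ) ≤ n + Real.exp (Real.log 2 / (2000 * (p : ℝ) ^ 2) * Real.log X ^ (1 / 4 : ℝ)) ∧ a n' = 0)
      (Q := fun n => ∃ (a : ℕ → ℤ) (n' : ℕ), IsFrom p a n ∧ a n = 0 ∧ n < n' ∧ n' ≤ n + 2 ^ h ∧ a n' = 0)
      X (by
        rintro n ⟨a, n', e1, e2, e3, e4, e5⟩
        exact ⟨a, n', e1, e2, e3, le_add h4 e4, e5⟩)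
    exact_mod_cast h5
  · push Not at hbig
    have h1 : Real.log X ≤ (xx p h₀ : ℝ) * Real.log 2 := by
      have h3 : (X : ℝ) ≤ (2 : ℝ) ^ xx p h₀ := by exact_mod_cast hbig.le
      have h4 := Real.log_le_log hX0 h3
      rwa [Real.log_pow] at h4
    have h2 := Real.rpow_le_rpow hlX h1 (by norm_num : (0 : ℝ) ≤ 1 / 4)
    have h4 := ncard_le (fun n => ∃ (a : ℕ → ℤ) (n' : ℕ), IsFrom p a n ∧ a n = 0 ∧ n < n' ∧
        (n' : ℝ) ≤ n + Real.exp (Real.log 2 / (2000 * (p : ℝ) ^ 2) * Real.log X ^ (1 / 4 : ℝ)) ∧ a n' = 0) X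
    exact TOP.small_bd hX0.le hc.le h2 (by exact_mod_cast h4)

end Pool.Agent.K93.SO
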