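import Pool.Agent.K93.SO.Stm
import Pool.Agent.K93.SD.T_ZER

/-! (ZER) the number of zeros up to `X` (helper46, adapted from `SD/T_ZER.lean` of helper54). -/

set_option autoImplicit false

namespace Pool.Agent.K93.SO

open Finset
open Pool.Agent.K93.SD (em)

namespace ZER

/-- the small zeros -/
theorem small (p h X : ℕ) (hp : 3 ≤ p) (hph : p ≤ h) (hX : 2 ^ xx p h ≤ X) :
    2 ^ h * (16 ^ p * (2 ^ h) ^ 4 + Ts p h + 1) ≤ X := by
  refine le_trans ?_ hX
  have hh : 1 ≤ h := by omega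
  have h1 : 16 ^ p * (2 ^ h) ^ 4 = 2 ^ (4 * p + h * 4) := by
    rw [pow_add, ← pow_mul, pow_mul 2 4 p]
    norm_num
  have e : Ts p h = 2 ^ (8 * em h * uu p h) := rfl
  have h2 : 2 ^ (4 * p + h * 4) ≤ 2 ^ (4 * p + h * 4 + 8 * em h * uu p h) :=
    Nat.pow_le_pow_right (by norm_num) (by omega)
  have h3 : 2 ^ (8 * em h * uu p h) ≤ 2 ^ (4 * p + h * 4 + 8 * em h * uu p h) :=
    Nat.pow_le_pow_right (by norm_num) (by omega)
  have h4 : 1 ≤ 2 ^ (4 * p + h * 4 + 8 * em h * uu p h) := Nat.one_le_two_pow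
  have h5 : 16 ^ p * (2 ^ h) ^ 4 + Ts p h + 1 ≤ 2 ^ 2 * 2 ^ (4 * p + h * 4 + 8 * em h * uu p h) := by
    rw [e, h1]
    omega
  calc 2 ^ h * (16 ^ p * (2 ^ h) ^ 4 + Ts p h + 1) ≤
        2 ^ h * (2 ^ 2 * 2 ^ (4 * p + h * 4 + 8 * em h * uu p h)) := Nat.mul_le_mul_left _ h5
    _ = 2 ^ (h + (2 + (4 * p + h * 4 + 8 * em h * uu p h))) := by
        rw [pow_add 2 h, pow_add 2 2]
    _ ≤ 2 ^ xx p h := by
      apply Nat.pow_le_pow_right (by norm_num)
      have h6 : em h ≤ 10 * h := by unfold Pool.Agent.K93.SD.em; omega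
      have hA : h ≤ p ^ 6 * h ^ 4 := by
        calc h = 1 * h ^ 1 := by ring
          _ ≤ p ^ 6 * h ^ 4 := Nat.mul_le_mul (Nat.one_le_pow _ _ (by omega))
            (Nat.pow_le_pow_right hh (by norm_num))
      have h7 : 8 * em h * uu p h ≤ 8000000 * (p ^ 6 * h ^ 4) := by
        unfold uu
        calc 8 * em h * (100000 * p ^ 4 * h ^ 2) ≤ 8 * (10 * h) * (100000 * p ^ 4 * h ^ 2) := by gcongr
          _ = 8000000 * (p ^ 4 * h ^ 3) := by ring
          _ ≤ 8000000 * (p ^ 6 * h ^ 4) := by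
            refine Nat.mul_le_mul_left _ (Nat.mul_le_mul (Nat.pow_le_pow_right (by omega) (by norm_num))
              (Nat.pow_le_pow_right hh (by norm_num)))
      have h8 : xx p h = 100000000000 * (p ^ 6 * h ^ 4) := by
        unfold xx
        ring
      rw [h8]
      omega

end ZER

open Classical in
theorem t_ZER (hR : S_REC) (hE : S_EXC) : S_ZER := by
  intro p hp hp3
  obtain ⟨h₀, hh₀, hE⟩ := hE p hp hp3
  refine ⟨max h₀ p, hh₀.trans (le_max_left _ _), fun h X hh hX a ha => ?_⟩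
  have hh0 : h₀ ≤ h := (le_max_left _ _).trans hh
  have hph : p ≤ h := (le_max_right _ _).trans hh
  have hh1 : 1 ≤ h := hh₀.trans hh0
  obtain ⟨E, hEc, hEk⟩ := hE h (2 * X) hh0 (hX.trans (by omega))
  have hsm := ZER.small p h X hp3 hph hX
  set G := 2 ^ h with hG
  set N0 := 16 ^ p * G ^ 4 + Ts p h + 1 with hN0
  have hG1 : 1 ≤ G := Nat.one_le_two_pow
  have hGX : G ≤ X := le_trans (Nat.le_mul_of_pos_right _ (by omega)) hsm
  set Z : Finset ℕ := (Icc 1 X).filter fun n => a n = 0 with hZ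
  have hZeq : {n : ℕ | 1 ≤ n ∧ n ≤ X ∧ a n = 0} = (Z : Set ℕ) := by
    ext n
    rw [Set.mem_ofPred_eq, Finset.mem_coe, hZ, mem_filter, mem_Icc, and_assoc]
  rw [hZeq, Set.ncard_coe_finset]
  set A := Z.filter fun n => ∀ m, n < m → m ≤ n + G → a m ≠ 0 with hA
  set B := Z.filter fun n => N0 < n ∧ ∃ m, n < m ∧ m ≤ n + G ∧ a m = 0 with hB
  have hsub : Z ⊆ Icc 1 N0 ∪ (A ∪ B) := by
    intro n hn
    have hn' := hn
    rw [hZ, mem_filter, mem_Icc] at hn'
    rw [mem_union, mem_union, mem_Icc]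
    by_cases h1 : n ≤ N0
    · exact Or.inl ⟨hn'.1.1, h1⟩
    · right
      by_cases h2 : ∃ m, n < m ∧ m ≤ n + G ∧ a m = 0
      · right
        rw [hB, mem_filter]
        exact ⟨hn, by omega, h2⟩
      · left
        rw [hA, mem_filter]
        push Not at h2
        exact ⟨hn, h2⟩
  have hcA : A.card ≤ X / G + 1 := by
    apply Pool.Agent.K93.SD.ZER.sparse G X hG1 A
    · intro n hn
      rw [hA, mem_filter, hZ, mem_filter, mem_Icc] at hn
      exact hn.1.1.2
    · intro n hn m hm hnm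
      rw [hA, mem_filter] at hn hm
      rw [hZ, mem_filter, mem_Icc] at hm
      by_contra hcon
      exact hn.2 m hnm (by omega) hm.1.2
  have hkey : ∀ n ∈ B, ∃ k, k ∈ E ∧ n < k ∧ ∀ m, n < m → a m = 0 → k ≤ m := by
    intro n hn
    rw [hB, mem_filter, hZ, mem_filter, mem_Icc] at hn
    obtain ⟨⟨⟨hn1, hnX⟩, han⟩, hnN, hex0⟩ := hn
    have hex : ∃ m, n < m ∧ a m = 0 := by
      obtain ⟨m, h1, _, h3⟩ := hex0
      exact ⟨m, h1, h3⟩
    set n' := Nat.find hex with hn'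
    obtain ⟨h1, h2⟩ := Nat.find_spec hex
    rw [← hn'] at h1 h2
    have hmin : ∀ m, n < m → a m = 0 → n' ≤ m := fun m h3 h4 => Nat.find_min' hex ⟨h3, h4⟩
    have hn'G : n' ≤ n + G := by
      obtain ⟨m, h3, h4, h5⟩ := hex0
      exact (hmin m h3 h5).trans h4
    obtain ⟨k, μ, j, R, T, g, hk1, hk2, hj1, hjμ, hμ, hRG, hW, hT⟩ :=
      hR p hp hp3 a n n' G (fun i hi => ha i (by omega)) hG1 (by omega) h1 han h2
        (fun m h3 h4 h5 => by
          have := hmin m h3 h5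
          omega) hn'G
    refine ⟨k, ?_, by omega, fun m h3 h4 => hk2.trans (hmin m h3 h4)⟩
    by_contra hkE
    have := hEk k (by omega) (by omega) hkE μ j R T g hj1 hjμ hμ hRG hW
    omega
  have hcB : B.card ≤ E.card := by
    choose! κ hκ using hkey
    refine Finset.card_le_card_of_injOn κ (fun n hn => (hκ n hn).1) ?_
    intro n hn m hm hnm
    by_contra hne
    have hn0 : a n = 0 := by
      have := hn
      rw [Finset.mem_coe, hB, mem_filter, hZ, mem_filter] at this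
      exact this.1.2
    have hm0 : a m = 0 := by
      have := hm
      rw [Finset.mem_coe, hB, mem_filter, hZ, mem_filter] at this
      exact this.1.2
    rcases Nat.lt_or_gt_of_ne hne with h1 | h1
    · have h2 := (hκ n hn).2.2 m h1 hm0
      have h3 := (hκ m hm).2.1
      omega
    · have h2 := (hκ m hm).2.2 n h1 hn0
      have h3 := (hκ n hn).2.1
      omega
  have hcard : Z.card ≤ N0 + (X / G + 1 + E.card) := by
    refine (Finset.card_le_card hsub).trans ((Finset.card_union_le _ _).trans ?_)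
    rw [Nat.card_Icc, Nat.add_sub_cancel]
    exact Nat.add_le_add_left ((Finset.card_union_le _ _).trans (Nat.add_le_add hcA hcB)) _
  have hGR : (0 : ℝ) < 2 ^ h := by positivity
  have c1 : (N0 : ℝ) ≤ X / 2 ^ h := by
    rw [le_div_iff₀ hGR]
    have : ((2 ^ h * N0 : ℕ) : ℝ) ≤ X := by exact_mod_cast hsm
    push_cast at this
    linarith
  have c2 : ((X / G : ℕ) : ℝ) ≤ X / 2 ^ h := by
    refine Nat.cast_div_le.trans ?_
    rw [hG]
    push_cast
    exact le_rfl
  have c3 : (1 : ℝ) ≤ X / 2 ^ h := by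
    rw [le_div_iff₀ hGR, one_mul]
    exact_mod_cast hGX
  have c4 : (E.card : ℝ) ≤ 2 * (X / 2 ^ h) := by
    refine hEc.trans ?_
    push_cast
    rw [mul_div_assoc]
    refine mul_le_mul_of_nonneg_left ?_ (by norm_num)
    exact div_le_div_of_nonneg_left (Nat.cast_nonneg X) hGR (pow_le_pow_right₀ (by norm_num) (by omega))
  have hcR : (Z.card : ℝ) ≤ (N0 : ℝ) + (((X / G : ℕ) : ℝ) + 1 + (E.card : ℝ)) := by
    exact_mod_cast hcard
  have h8 : (8 : ℝ) * X / 2 ^ h = 8 * (X / 2 ^ h) := by ring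
  rw [h8]
  linarith

end Pool.Agent.K93.SO
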